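import Pool.Agent.TH993.SP.Defs

/-!
# MAX: the inequality for one functional

For a continuous `f` with `f (a + T) = - f a`, nonnegative and concave on `[c, c + T]`,
`∫∫ |f a - f b| ≤ (4/3) (2 T) ∫ |f a|` over `[0, 2 T]`.
-/

set_option autoImplicit false

open MeasureTheory Set Real

namespace Pool.Agent.TH263.SPMAX

noncomputable section

theorem ite_meas {g : ℝ → ℝ} (hg : Continuous g) (t : ℝ) :
    Measurable (fun a => if t ≤ g a then t else 0) :=
  Measurable.ite (measurableSet_le measurable_const hg.measurable) measurable_const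
    measurable_const

theorem ite_int {g : ℝ → ℝ} (hg : Continuous g) (t x y : ℝ) :
    IntervalIntegrable (fun a => if t ≤ g a then t else 0) volume x y := by
  have hb : ∀ a, ‖(if t ≤ g a then t else 0)‖ ≤ |t| := by
    intro a
    split_ifs
    · exact (Real.norm_eq_abs t).le
    · simp
  exact ⟨Integrable.of_bound (ite_meas hg t).aestronglyMeasurable |t| (ae_of_all _ hb),
    Integrable.of_bound (ite_meas hg t).aestronglyMeasurable |t| (ae_of_all _ hb)⟩

/-- lower bound of the integral of the truncated function -/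
theorem inner {T : ℝ} {g : ℝ → ℝ} (hg : Continuous g) (h0 : ∀ x, 0 ≤ g x)
    (hc : ConcaveOn ℝ (Icc 0 T) g) {b : ℝ} (hb : b ∈ Icc 0 T) :
    T / 2 * g b + 1 / 2 * ∫ a in (0 : ℝ)..T, (if g b ≤ g a then g b else 0) ≤
      ∫ a in (0 : ℝ)..T, min (g a) (g b) := by
  obtain ⟨t, ht⟩ : ∃ t, t = g b := ⟨_, rfl⟩
  rw [← ht]
  have ht0 : 0 ≤ t := ht ▸ h0 b
  have hEc : IsCompact {a ∈ Icc 0 T | t ≤ g a} :=
    isCompact_Icc.inter_right (isClosed_le continuous_const hg)
  have hEne : {a ∈ Icc 0 T | t ≤ g a}.Nonempty := ⟨b, hb, ht.le⟩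
  obtain ⟨p, hp, hpmin⟩ := hEc.exists_isLeast hEne
  obtain ⟨q, hq, hqmax⟩ := hEc.exists_isGreatest hEne
  have hpq : p ≤ q := hqmax hp
  have hp0 : 0 ≤ p := hp.1.1
  have hqT : q ≤ T := hq.1.2
  have hT0 : 0 ≤ T := hp0.trans (hpq.trans hqT)
  have hM : ∀ a ∈ Icc p q, t ≤ g a := by
    intro a ha
    exact ((hc.convex_ge t).ordConnected.out hp hq ha).2
  have hL : ∀ a ∈ Icc 0 p, t / p * a ≤ g a := by
    intro a ha
    rcases hp0.eq_or_lt with h | h
    · rw [← h]; simp [h0 a]
    · have ha1 : a / p ≤ 1 := (div_le_one h).2 ha.2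
      have ha0 : 0 ≤ a / p := div_nonneg ha.1 hp0
      have h2 := hc.2 (show (0 : ℝ) ∈ Icc 0 T from ⟨le_refl _, hT0⟩) hp.1
        (show 0 ≤ 1 - a / p by linarith) ha0 (by ring)
      have e : (1 - a / p) • (0 : ℝ) + (a / p) • p = a := by
        simp only [smul_eq_mul]
        field_simp
        ring
      rw [e] at h2
      simp only [smul_eq_mul] at h2
      have h3 : 0 ≤ (1 - a / p) * g 0 := mul_nonneg (by linarith) (h0 0)
      have h4 : a / p * t ≤ a / p * g p := mul_le_mul_of_nonneg_left hp.2 ha0
      calc t / p * a = a / p * t := by ring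
        _ ≤ g a := by linarith
  have hR : ∀ a ∈ Icc q T, t / (T - q) * (T - a) ≤ g a := by
    intro a ha
    rcases (sub_nonneg.2 hqT).eq_or_lt with h | h
    · rw [← h]; simp [h0 a]
    · have ha1 : (T - a) / (T - q) ≤ 1 := (div_le_one h).2 (by linarith [ha.1])
      have ha0 : 0 ≤ (T - a) / (T - q) := div_nonneg (by linarith [ha.2]) h.le
      have h2 := hc.2 (show T ∈ Icc 0 T from ⟨hT0, le_refl _⟩) hq.1
        (show 0 ≤ 1 - (T - a) / (T - q) by linarith) ha0 (by ring)
      have e : (1 - (T - a) / (T - q)) • T + ((T - a) / (T - q)) • q = a := by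
        simp only [smul_eq_mul]
        field_simp
        ring
      rw [e] at h2
      simp only [smul_eq_mul] at h2
      have h3 : 0 ≤ (1 - (T - a) / (T - q)) * g T := mul_nonneg (by linarith) (h0 T)
      have h4 : (T - a) / (T - q) * t ≤ (T - a) / (T - q) * g q :=
        mul_le_mul_of_nonneg_left hq.2 ha0
      calc t / (T - q) * (T - a) = (T - a) / (T - q) * t := by ring
        _ ≤ g a := by linarith
  have hmin : Continuous (fun a => min (g a) t) := hg.min continuous_const
  -- the three parts of the integral of the minimum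
  have i1 : t * p / 2 ≤ ∫ a in (0 : ℝ)..p, min (g a) t := by
    have h1 : ∫ a in (0 : ℝ)..p, t / p * a ≤ ∫ a in (0 : ℝ)..p, min (g a) t := by
      apply intervalIntegral.integral_mono_on hp0
      · exact (continuous_const.mul continuous_id).intervalIntegrable _ _
      · exact hmin.intervalIntegrable _ _
      · intro a ha
        refine le_min (hL a ha) ?_
        rcases hp0.eq_or_lt with h | h
        · rw [← h]; simpa using ht0
        · calc t / p * a ≤ t / p * p := mul_le_mul_of_nonneg_left ha.2 (by positivity)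
            _ = t := by field_simp
    rw [intervalIntegral.integral_const_mul, integral_id] at h1
    have h2 : t / p * ((p ^ 2 - 0 ^ 2) / 2) = t * p / 2 := by
      rcases hp0.eq_or_lt with h | h
      · rw [← h]; simp
      · field_simp
        ring
    linarith
  have i2 : t * (q - p) ≤ ∫ a in p..q, min (g a) t := by
    have h1 : ∫ a in p..q, t ≤ ∫ a in p..q, min (g a) t := by
      apply intervalIntegral.integral_mono_on hpq
      · exact continuous_const.intervalIntegrable _ _
      · exact hmin.intervalIntegrable _ _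
      · intro a ha
        exact le_min (hM a ha) (le_refl _)
    rw [intervalIntegral.integral_const, smul_eq_mul] at h1
    linarith
  have i3 : t * (T - q) / 2 ≤ ∫ a in q..T, min (g a) t := by
    have h1 : ∫ a in q..T, t / (T - q) * (T - a) ≤ ∫ a in q..T, min (g a) t := by
      apply intervalIntegral.integral_mono_on hqT
      · exact (continuous_const.mul (continuous_const.sub continuous_id)).intervalIntegrable _ _
      · exact hmin.intervalIntegrable _ _
      · intro a ha
        refine le_min (hR a ha) ?_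
        rcases (sub_nonneg.2 hqT).eq_or_lt with h | h
        · rw [← h]; simpa using ht0
        · calc t / (T - q) * (T - a) ≤ t / (T - q) * (T - q) :=
                mul_le_mul_of_nonneg_left (by linarith [ha.1]) (by positivity)
            _ = t := by field_simp
    have e1 : ∫ x in q..T, (T - x) = (T - q) * T - (T ^ 2 - q ^ 2) / 2 := by
      have c1 : IntervalIntegrable (fun _ : ℝ => T) volume q T :=
        continuous_const.intervalIntegrable _ _
      have c2 : IntervalIntegrable (fun x : ℝ => x) volume q T :=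
        continuous_id.intervalIntegrable _ _
      rw [intervalIntegral.integral_sub c1 c2, intervalIntegral.integral_const, integral_id,
        smul_eq_mul]
    rw [intervalIntegral.integral_const_mul, e1] at h1
    have h2 : t / (T - q) * ((T - q) * T - (T ^ 2 - q ^ 2) / 2) = t * (T - q) / 2 := by
      rcases (sub_nonneg.2 hqT).eq_or_lt with h | h
      · have : T = q := by linarith
        rw [this]; simp
      · field_simp
        ring
    linarith
  have hsum : ∫ a in (0 : ℝ)..T, min (g a) t = (∫ a in (0 : ℝ)..p, min (g a) t) +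
      (∫ a in p..q, min (g a) t) + ∫ a in q..T, min (g a) t := by
    rw [intervalIntegral.integral_add_adjacent_intervals (hmin.intervalIntegrable _ _)
      (hmin.intervalIntegrable _ _), intervalIntegral.integral_add_adjacent_intervals
      (hmin.intervalIntegrable _ _) (hmin.intervalIntegrable _ _)]
  -- the three parts of the other integral
  have j1 : ∫ a in (0 : ℝ)..p, (if t ≤ g a then t else 0) ≤ 0 := by
    have h1 : ∫ a in (0 : ℝ)..p, (if t ≤ g a then t else 0) ≤ ∫ a in (0 : ℝ)..p, (0 : ℝ) := by
      apply intervalIntegral.integral_mono_on_of_le_Ioo hp0 (ite_int hg t _ _)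
        (continuous_const.intervalIntegrable _ _)
      intro a ha
      rw [if_neg]
      intro h
      have := hpmin ⟨⟨ha.1.le, (ha.2.le.trans hpq).trans hqT⟩, h⟩
      linarith [ha.2]
    simpa using h1
  have j2 : ∫ a in p..q, (if t ≤ g a then t else 0) ≤ t * (q - p) := by
    have h1 : ∫ a in p..q, (if t ≤ g a then t else 0) ≤ ∫ a in p..q, t := by
      apply intervalIntegral.integral_mono_on hpq (ite_int hg t _ _)
        (continuous_const.intervalIntegrable _ _)
      intro a _
      split_ifs
      · exact le_refl _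
      · exact ht0
    rw [intervalIntegral.integral_const, smul_eq_mul] at h1
    linarith
  have j3 : ∫ a in q..T, (if t ≤ g a then t else 0) ≤ 0 := by
    have h1 : ∫ a in q..T, (if t ≤ g a then t else 0) ≤ ∫ a in q..T, (0 : ℝ) := by
      apply intervalIntegral.integral_mono_on_of_le_Ioo hqT (ite_int hg t _ _)
        (continuous_const.intervalIntegrable _ _)
      intro a ha
      rw [if_neg]
      intro h
      have := hqmax ⟨⟨(hp0.trans hpq).trans ha.1.le, ha.2.le⟩, h⟩
      linarith [ha.1]
    simpa using h1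
  have hsum2 : ∫ a in (0 : ℝ)..T, (if t ≤ g a then t else 0) =
      (∫ a in (0 : ℝ)..p, (if t ≤ g a then t else 0)) +
      (∫ a in p..q, (if t ≤ g a then t else 0)) + ∫ a in q..T, (if t ≤ g a then t else 0) := by
    rw [intervalIntegral.integral_add_adjacent_intervals (ite_int hg t _ _) (ite_int hg t _ _),
      intervalIntegral.integral_add_adjacent_intervals (ite_int hg t _ _) (ite_int hg t _ _)]
  rw [hsum, hsum2]
  nlinarith [i1, i2, i3, j1, j2, j3]

/-- symmetrisation -/
theorem symm {T : ℝ} (hT : 0 < T) {g : ℝ → ℝ} (hg : Continuous g) (h0 : ∀ x, 0 ≤ g x) :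
    IntervalIntegrable (fun b => ∫ a in (0 : ℝ)..T, (if g b ≤ g a then g b else 0)) volume 0 T ∧
    ∫ b in (0 : ℝ)..T, ∫ a in (0 : ℝ)..T, min (g a) (g b) ≤
      2 * ∫ b in (0 : ℝ)..T, ∫ a in (0 : ℝ)..T, (if g b ≤ g a then g b else 0) := by
  obtain ⟨μ, hμ⟩ : ∃ μ : Measure ℝ, μ = volume.restrict (Ioc 0 T) := ⟨_, rfl⟩
  have hfin : IsFiniteMeasure μ := by rw [hμ]; infer_instance
  have hgi : Integrable g μ := by
    rw [hμ]
    exact (hg.integrableOn_Icc (a := 0) (b := T)).mono_set Ioc_subset_Icc_self
  have h2 : Integrable (fun z : ℝ × ℝ => g z.1) (μ.prod μ) := hgi.comp_fst μ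
  have h3 : Integrable (fun z : ℝ × ℝ => g z.2) (μ.prod μ) := hgi.comp_snd μ
  have hMm : Measurable (fun z : ℝ × ℝ => if g z.1 ≤ g z.2 then g z.1 else 0) :=
    Measurable.ite (measurableSet_le (hg.measurable.comp measurable_fst)
      (hg.measurable.comp measurable_snd)) (hg.measurable.comp measurable_fst) measurable_const
  have hMi : Integrable (fun z : ℝ × ℝ => if g z.1 ≤ g z.2 then g z.1 else 0) (μ.prod μ) := by
    refine h2.mono hMm.aestronglyMeasurable (ae_of_all _ ?_)
    intro z
    split_ifs
    · exact le_refl _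
    · simp
  have hmini : Integrable (fun z : ℝ × ℝ => min (g z.2) (g z.1)) (μ.prod μ) := h3.inf h2
  have hswap : Integrable (fun z : ℝ × ℝ => if g z.2 ≤ g z.1 then g z.2 else 0) (μ.prod μ) :=
    hMi.swap
  have hval : ∫ z : ℝ × ℝ, (if g z.2 ≤ g z.1 then g z.2 else 0) ∂(μ.prod μ) =
      ∫ z : ℝ × ℝ, (if g z.1 ≤ g z.2 then g z.1 else 0) ∂(μ.prod μ) :=
    integral_prod_swap (μ := μ) (ν := μ) (fun z : ℝ × ℝ => if g z.1 ≤ g z.2 then g z.1 else 0)
  have hle : ∫ z : ℝ × ℝ, min (g z.2) (g z.1) ∂(μ.prod μ) ≤
      2 * ∫ z : ℝ × ℝ, (if g z.1 ≤ g z.2 then g z.1 else 0) ∂(μ.prod μ) := by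
    have h4 : ∫ z : ℝ × ℝ, min (g z.2) (g z.1) ∂(μ.prod μ) ≤
        ∫ z : ℝ × ℝ, ((if g z.1 ≤ g z.2 then g z.1 else 0) +
          (if g z.2 ≤ g z.1 then g z.2 else 0)) ∂(μ.prod μ) := by
      apply integral_mono hmini (hMi.add hswap)
      intro z
      change min (g z.2) (g z.1) ≤ (if g z.1 ≤ g z.2 then g z.1 else 0) +
        (if g z.2 ≤ g z.1 then g z.2 else 0)
      have ha := h0 z.1
      have hb := h0 z.2
      rcases le_total (g z.1) (g z.2) with h | h
      · rw [if_pos h, min_eq_right h]
        split_ifs <;> linarith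
      · rw [if_pos h, min_eq_left h]
        split_ifs <;> linarith
    rw [integral_add hMi hswap, hval] at h4
    linarith
  rw [integral_prod _ hmini, integral_prod _ hMi] at hle
  have e1 : ∀ F : ℝ → ℝ, ∫ a in (0 : ℝ)..T, F a = ∫ a, F a ∂μ := by
    intro F
    rw [intervalIntegral.integral_of_le hT.le, hμ]
  simp only [e1]
  refine ⟨?_, hle⟩
  rw [intervalIntegrable_iff_integrableOn_Ioc_of_le hT.le]
  have := hMi.integral_prod_left
  rw [hμ] at this ⊢
  exact this

theorem core {T : ℝ} (hT : 0 < T) {g : ℝ → ℝ} (hg : Continuous g) (h0 : ∀ x, 0 ≤ g x)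
    (hc : ConcaveOn ℝ (Icc 0 T) g) :
    2 / 3 * T * ∫ b in (0 : ℝ)..T, g b ≤
      ∫ b in (0 : ℝ)..T, ∫ a in (0 : ℝ)..T, min (g a) (g b) := by
  obtain ⟨h1, h2⟩ := symm hT hg h0
  have hcont : Continuous (fun b => ∫ a in (0 : ℝ)..T, min (g a) (g b)) := by
    apply intervalIntegral.continuous_parametric_intervalIntegral_of_continuous'
    exact (hg.comp continuous_snd).min (hg.comp continuous_fst)
  have h3 : ∫ b in (0 : ℝ)..T, (T / 2 * g b +
      1 / 2 * ∫ a in (0 : ℝ)..T, (if g b ≤ g a then g b else 0)) ≤
      ∫ b in (0 : ℝ)..T, ∫ a in (0 : ℝ)..T, min (g a) (g b) := by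
    apply intervalIntegral.integral_mono_on hT.le
    · exact ((continuous_const.mul hg).intervalIntegrable _ _).add (h1.const_mul _)
    · exact hcont.intervalIntegrable _ _
    · intro b hb
      exact inner hg h0 hc hb
  have c1 : IntervalIntegrable (fun b => T / 2 * g b) volume 0 T :=
    (continuous_const.mul hg).intervalIntegrable _ _
  have c2 : IntervalIntegrable (fun b => 1 / 2 * ∫ a in (0 : ℝ)..T,
      (if g b ≤ g a then g b else 0)) volume 0 T := h1.const_mul _
  rw [intervalIntegral.integral_add c1 c2, intervalIntegral.integral_const_mul,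
    intervalIntegral.integral_const_mul] at h3
  linarith

/-- the integral of an even function of `f` over a period -/
theorem half {T c : ℝ} {f : ℝ → ℝ} (hf : Continuous f) (ha : ∀ a, f (a + T) = - f a)
    {φ : ℝ → ℝ} (hφ : Continuous φ) :
    ∫ a in (0 : ℝ)..(2 * T), φ (f a) =
      ∫ x in (0 : ℝ)..T, (φ (f (c + x)) + φ (- f (c + x))) := by
  have hper : Function.Periodic (fun a => φ (f a)) (2 * T) := by
    intro a
    have : f (a + 2 * T) = f a := by
      have h1 := ha (a + T)
      have h2 := ha a
      have : a + 2 * T = a + T + T := by ring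
      rw [this, h1, h2, neg_neg]
    simp only [this]
  have h1 := hper.intervalIntegral_add_eq 0 c
  rw [zero_add] at h1
  rw [h1]
  have hc : Continuous (fun x => φ (f (c + x))) :=
    hφ.comp (hf.comp (continuous_const.add continuous_id))
  have h2 : ∫ x in (0 : ℝ)..(2 * T), φ (f (c + x)) = ∫ x in c..(c + 2 * T), φ (f x) := by
    have := intervalIntegral.integral_comp_add_left (a := 0) (b := 2 * T)
      (fun x => φ (f x)) c
    simpa using this
  rw [← h2, ← intervalIntegral.integral_add_adjacent_intervals (b := T)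
    (hc.intervalIntegrable _ _) (hc.intervalIntegrable _ _)]
  have h3 : ∫ x in T..(2 * T), φ (f (c + x)) = ∫ x in (0 : ℝ)..T, φ (- f (c + x)) := by
    have h4 := intervalIntegral.integral_comp_add_right (a := 0) (b := T)
      (fun x => φ (f (c + x))) T
    have e1 : ∀ x, φ (f (c + (x + T))) = φ (- f (c + x)) := by
      intro x
      rw [← add_assoc, ha]
    have e2 : T + T = 2 * T := by ring
    simp only [e1, zero_add, e2] at h4
    exact h4.symm
  rw [h3, intervalIntegral.integral_add (hc.intervalIntegrable _ _)]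
  exact (hφ.comp (hf.comp (continuous_const.add continuous_id)).neg).intervalIntegrable _ _

theorem abs_max (t s : ℝ) : |t - s| + |t - -s| = 2 * max |t| |s| := by
  rcases le_total 0 t with h1 | h1 <;> rcases le_total 0 s with h2 | h2 <;>
  rcases le_total |t| |s| with h3 | h3
  all_goals
    first
    | rw [max_eq_right h3]
    | rw [max_eq_left h3]
  all_goals
    first
    | rw [abs_of_nonneg h1] at *
    | rw [abs_of_nonpos h1] at *
  all_goals
    first
    | rw [abs_of_nonneg h2] at *
    | rw [abs_of_nonpos h2] at *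
  all_goals
    rcases abs_cases (t - s) with ⟨h4, _⟩ | ⟨h4, _⟩ <;>
    rcases abs_cases (t - -s) with ⟨h5, _⟩ | ⟨h5, _⟩ <;> linarith

theorem MAX : Pool.Agent.TH993.SP.S_MAX := by
  intro T c f hT hf ha hpos hconc
  obtain ⟨g, hgdef⟩ : ∃ g : ℝ → ℝ, ∀ x, g x = |f (c + x)| := ⟨fun x => |f (c + x)|, fun x => rfl⟩
  have hg : Continuous g := by
    have : g = fun x => |f (c + x)| := funext hgdef
    rw [this]
    exact (hf.comp (continuous_const.add continuous_id)).abs
  have h0 : ∀ x, 0 ≤ g x := fun x => by rw [hgdef]; exact abs_nonneg _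
  have hgc : ConcaveOn ℝ (Icc 0 T) g := by
    refine ⟨convex_Icc 0 T, ?_⟩
    intro x hx y hy a b ha0 hb0 hab
    have hmem : ∀ z ∈ Icc 0 T, c + z ∈ Icc c (c + T) := fun z hz =>
      ⟨by linarith [hz.1], by linarith [hz.2]⟩
    have hz := (convex_Icc 0 T) hx hy ha0 hb0 hab
    rw [hgdef, hgdef, hgdef, abs_of_nonneg (hpos _ (hmem x hx)),
      abs_of_nonneg (hpos _ (hmem y hy)), abs_of_nonneg (hpos _ (hmem _ hz))]
    have h := hconc.2 (hmem x hx) (hmem y hy) ha0 hb0 hab
    have e : a • (c + x) + b • (c + y) = c + (a • x + b • y) := by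
      simp only [smul_eq_mul]
      have : b = 1 - a := by linarith
      rw [this]
      ring
    rw [e] at h
    exact h
  have hcore := core hT hg h0 hgc
  -- the right hand side
  have hJ : ∫ a in (0 : ℝ)..(2 * T), |f a| = 2 * ∫ x in (0 : ℝ)..T, g x := by
    rw [half (c := c) hf ha continuous_abs, ← intervalIntegral.integral_const_mul]
    apply intervalIntegral.integral_congr
    intro x _
    simp only [abs_neg, hgdef]
    ring
  -- the inner integral
  have hin : ∀ t : ℝ, ∫ b in (0 : ℝ)..(2 * T), |t - f b| =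
      ∫ y in (0 : ℝ)..T, 2 * max |t| (g y) := by
    intro t
    rw [half (c := c) hf ha (φ := fun s => |t - s|) (continuous_const.sub continuous_id).abs]
    apply intervalIntegral.integral_congr
    intro y _
    simp only [hgdef]
    exact abs_max t _
  have hcΨ : Continuous (fun t : ℝ => ∫ y in (0 : ℝ)..T, 2 * max |t| (g y)) := by
    apply intervalIntegral.continuous_parametric_intervalIntegral_of_continuous'
    exact continuous_const.mul (continuous_fst.abs.max (hg.comp continuous_snd))
  have hLHS : ∫ a in (0 : ℝ)..(2 * T), ∫ b in (0 : ℝ)..(2 * T), |f a - f b| =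
      ∫ x in (0 : ℝ)..T, (4 * ∫ y in (0 : ℝ)..T, max (g x) (g y)) := by
    simp only [hin]
    rw [half (c := c) hf ha (φ := fun t : ℝ => ∫ y in (0 : ℝ)..T, 2 * max |t| (g y)) hcΨ]
    apply intervalIntegral.integral_congr
    intro x _
    simp only [abs_neg, ← hgdef, intervalIntegral.integral_const_mul]
    ring
  have hmaxmin : ∀ x, ∫ y in (0 : ℝ)..T, max (g x) (g y) =
      T * g x + (∫ y in (0 : ℝ)..T, g y) - ∫ y in (0 : ℝ)..T, min (g y) (g x) := by
    intro x
    have e : ∀ y, max (g x) (g y) = (g x + g y) - min (g y) (g x) := by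
      intro y
      rw [min_comm, ← max_add_min (g x) (g y)]
      ring
    simp only [e]
    have c1 : IntervalIntegrable (fun y => g x + g y) volume 0 T :=
      (continuous_const.add hg).intervalIntegrable _ _
    have c2 : IntervalIntegrable (fun y => min (g y) (g x)) volume 0 T :=
      (hg.min continuous_const).intervalIntegrable _ _
    have c3 : IntervalIntegrable (fun _ : ℝ => g x) volume 0 T :=
      continuous_const.intervalIntegrable _ _
    rw [intervalIntegral.integral_sub c1 c2,
      intervalIntegral.integral_add c3 (hg.intervalIntegrable _ _),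
      intervalIntegral.integral_const]
    simp
  have hcm : Continuous (fun b => ∫ a in (0 : ℝ)..T, min (g a) (g b)) := by
    apply intervalIntegral.continuous_parametric_intervalIntegral_of_continuous'
    exact (hg.comp continuous_snd).min (hg.comp continuous_fst)
  rw [hLHS, hJ, intervalIntegral.integral_const_mul]
  simp only [hmaxmin]
  have c1 : IntervalIntegrable (fun x => T * g x + ∫ y in (0 : ℝ)..T, g y) volume 0 T :=
    ((continuous_const.mul hg).add continuous_const).intervalIntegrable _ _
  have c2 : IntervalIntegrable (fun b => ∫ a in (0 : ℝ)..T, min (g a) (g b)) volume 0 T :=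
    hcm.intervalIntegrable _ _
  have c3 : IntervalIntegrable (fun x => T * g x) volume 0 T :=
    (continuous_const.mul hg).intervalIntegrable _ _
  have c4 : IntervalIntegrable (fun _ : ℝ => ∫ y in (0 : ℝ)..T, g y) volume 0 T :=
    continuous_const.intervalIntegrable _ _
  rw [intervalIntegral.integral_sub c1 c2, intervalIntegral.integral_add c3 c4,
    intervalIntegral.integral_const_mul, intervalIntegral.integral_const, smul_eq_mul, sub_zero]
  linarith

end

end Pool.Agent.TH263.SPMAX
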