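import Pool.Agent.TH144.AE.Core3

/-! Dimension count for an embedding of the pinched threefold into a product of two projective
spaces. -/

set_option autoImplicit false

open MvPolynomial Filter Topology

namespace Pool.Agent.TH263.J1084

open Pool.Agent.TH144.AE

/-- evaluation of bihomogeneous polynomials at rescaled points -/
lemma biHom_eval {κ μ : Type} [Fintype κ] [Fintype μ] {G : MvPolynomial (κ ⊕ μ) ℂ} {d e : ℕ}
    (hG : BiHom G d e) (u : κ → ℂ) (v : μ → ℂ) (a b : ℂ) :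
    eval (Sum.elim (a • u) (b • v)) G = a ^ d * b ^ e * eval (Sum.elim u v) G := by
  classical
  rw [eval_eq', eval_eq', Finset.mul_sum]
  refine Finset.sum_congr rfl fun m hm => ?_
  have hw := hG (mem_support_iff.1 hm)
  rw [Finsupp.weight_apply, Finsupp.sum_fintype _ _ (by intro i; simp)] at hw
  rw [Fintype.sum_sum_type] at hw
  simp only [Sum.elim_inl, Sum.elim_inr, Prod.smul_mk, smul_eq_mul, mul_one, mul_zero] at hw
  have h1 : ∑ k : κ, m (Sum.inl k) = d := by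
    have := congrArg Prod.fst hw
    simpa [Prod.fst_sum] using this
  have h2 : ∑ k : μ, m (Sum.inr k) = e := by
    have := congrArg Prod.snd hw
    simpa [Prod.snd_sum] using this
  rw [Fintype.prod_sum_type, Fintype.prod_sum_type]
  simp only [Sum.elim_inl, Sum.elim_inr, Pi.smul_apply, smul_eq_mul, mul_pow,
    Finset.prod_mul_distrib]
  rw [Finset.prod_pow_eq_pow_sum, Finset.prod_pow_eq_pow_sum, h1, h2]
  ring

/-- Euler's relation for bihomogeneous polynomials. -/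
lemma biHom_euler {κ μ : Type} [Fintype κ] [Fintype μ] {G : MvPolynomial (κ ⊕ μ) ℂ} {d e : ℕ}
    (hG : BiHom G d e) (u : κ → ℂ) (v : μ → ℂ) (l r : ℂ) :
    ∑ i, (Sum.elim (l • u) (r • v) : κ ⊕ μ → ℂ) i * eval (Sum.elim u v) (pderiv i G) =
      (d * l + e * r) * eval (Sum.elim u v) G := by
  have hy : ∀ i, HasDerivAt (fun z : ℂ => (Sum.elim ((1 + z * l) • u) ((1 + z * r) • v) :
      κ ⊕ μ → ℂ) i) ((Sum.elim (l • u) (r • v) : κ ⊕ μ → ℂ) i) 0 := by
    have hl : ∀ c : ℂ, HasDerivAt (fun z : ℂ => 1 + z * c) c 0 := fun c => by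
      simpa using ((hasDerivAt_id (0 : ℂ)).mul_const c).const_add 1
    rintro (i | i)
    · simpa using (hl l).mul_const (u i)
    · simpa using (hl r).mul_const (v i)
  have h1 := hasDerivAt_eval G hy
  simp only [zero_mul, add_zero, one_smul] at h1
  have hl : ∀ c : ℂ, HasDerivAt (fun z : ℂ => 1 + z * c) c 0 := fun c => by
    simpa using ((hasDerivAt_id (0 : ℂ)).mul_const c).const_add 1
  have h2 := (((hl l).fun_pow d).fun_mul ((hl r).fun_pow e)).mul_const (eval (Sum.elim u v) G)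
  have h3 : (fun z : ℂ => eval (Sum.elim ((1 + z * l) • u) ((1 + z * r) • v)) G) =
      fun z : ℂ => (1 + z * l) ^ d * (1 + z * r) ^ e * eval (Sum.elim u v) G := by
    funext z
    exact biHom_eval hG _ _ _ _
  rw [h3] at h1
  rw [h1.unique h2]
  simp

/-- (A) the tangent vector of a curve in `X` is killed only if it is radial -/
lemma curve_imm {ι κ μ : Type} [Fintype ι] [Fintype κ] [Fintype μ] {X : Set (PS ι)}
    {j : PS ι → PS κ × PS μ} (hj : IsEmbedding X j) {x : ℂ → PS ι} {y : ℂ → ι → ℂ}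
    {F : ℂ → κ → ℂ} {G : ℂ → μ → ℂ} {y' : ι → ℂ} {l r : ℂ}
    (hx : ∀ᶠ t in 𝓝 (0 : ℂ), x t ∈ X) (hxy : ∀ᶠ t in 𝓝 (0 : ℂ), IsCoord (x t) (y t))
    (hF : ∀ᶠ t in 𝓝 (0 : ℂ), IsCoord (j (x t)).1 (F t))
    (hG : ∀ᶠ t in 𝓝 (0 : ℂ), IsCoord (j (x t)).2 (G t))
    (hy : ∀ i, HasDerivAt (fun t => y t i) (y' i) 0)
    (hF' : ∀ i, HasDerivAt (fun t => F t i) (l * F 0 i) 0)
    (hG' : ∀ i, HasDerivAt (fun t => G t i) (r * G 0 i) 0) : ∃ c : ℂ, y' = c • y 0 := by
  obtain ⟨d, e, H, hH, hH0, hHj⟩ := hj.2.2.2 (x 0) hx.self_of_nhds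
  set w : ℂ → κ ⊕ μ → ℂ := fun t => Sum.elim (F t) (G t) with hwdef
  have hw' : ∀ i, HasDerivAt (fun t => w t i) ((Sum.elim (l • F 0) (r • G 0) : κ ⊕ μ → ℂ) i) 0 := by
    rintro (i | i)
    · exact hF' i
    · exact hG' i
  have hd : ∀ i, HasDerivAt (fun t => eval (w t) (H i)) ((d * l + e * r) * eval (w 0) (H i)) 0 := by
    intro i
    have := hasDerivAt_eval (H i) hw'
    rwa [biHom_euler (hH i)] at this
  have h0 : evalT (w 0) H ≠ 0 := hH0 _ _ hF.self_of_nhds hG.self_of_nhds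
  obtain ⟨k, hk⟩ := Function.ne_iff.1 h0
  have hk' : eval (w 0) (H k) ≠ 0 := hk
  have hne : ∀ᶠ t in 𝓝 (0 : ℂ), eval (w t) (H k) ≠ 0 := (hd k).continuousAt.eventually_ne hk'
  have hpar : ∀ᶠ t in 𝓝 (0 : ℂ), ∃ a : ℂ, evalT (w t) H = a • y t := by
    filter_upwards [hx, hxy, hF, hG, hne] with t h1 h2 h3 h4 h5
    have h6 : evalT (w t) H ≠ 0 := fun h => h5 (congrFun h k)
    obtain ⟨a, -, ha⟩ := h2.exists_smul (hHj _ h1 _ _ h3 h4 h6)
    exact ⟨a, ha⟩
  have hcross : ∀ i, (fun t => eval (w t) (H k) * y t i) =ᶠ[𝓝 0]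
      fun t => eval (w t) (H i) * y t k := by
    intro i
    filter_upwards [hpar] with t ⟨a, ha⟩
    have hk1 : eval (w t) (H k) = a * y t k := congrFun ha k
    have hi1 : eval (w t) (H i) = a * y t i := congrFun ha i
    rw [hk1, hi1]
    ring
  obtain ⟨a, ha⟩ := hpar.self_of_nhds
  have hk1 : eval (w 0) (H k) = a * y 0 k := congrFun ha k
  have ha0 : a ≠ 0 := by
    rintro rfl
    exact hk' (by rw [hk1, zero_mul])
  have hyk : y 0 k ≠ 0 := by
    intro h
    exact hk' (by rw [hk1, h, mul_zero])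
  refine ⟨y' k / y 0 k, ?_⟩
  funext i
  have hi1 : eval (w 0) (H i) = a * y 0 i := congrFun ha i
  have e1 := (hd k).fun_mul (hy i)
  have e2 := (hd i).fun_mul (hy k)
  have e3 := (e2.congr_of_eventuallyEq (hcross i)).unique e1
  rw [hk1, hi1] at e3
  simp only [Pi.smul_apply, smul_eq_mul]
  have e4 : a * (y' i * y 0 k - y' k * y 0 i) = 0 := by linear_combination -e3
  have e5 := (mul_eq_zero.1 e4).resolve_left ha0
  field_simp
  linear_combination e5

/-! ### The base point and the three directions -/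

/-- the first coordinate of the curve in the quartic -/
noncomputable def RR (r t : ℂ) : ℂ := r * ((1 + (1 + t) ^ 4) / 2) ^ (((4 : ℕ) : ℂ)⁻¹)

lemma RR_pow {r : ℂ} (hr : r ^ 4 = 2) (t : ℂ) : RR r t ^ 4 = 1 + (1 + t) ^ 4 := by
  unfold RR
  rw [mul_pow, Complex.cpow_nat_inv_pow _ (by norm_num), hr]
  ring

lemma RR_zero (r : ℂ) : RR r 0 = r := by
  unfold RR
  norm_num

lemma hasDerivAt_RR (r : ℂ) : HasDerivAt (RR r) (r / 2) 0 := by
  have h1 : HasDerivAt (fun t : ℂ => (1 + (1 + t) ^ 4) / 2) 2 0 := by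
    have := ((((hasDerivAt_id (0 : ℂ)).const_add 1).fun_pow 4).const_add 1).div_const 2
    refine this.congr_deriv ?_
    norm_num
  have h2 := h1.cpow_const (c := ((4 : ℕ) : ℂ)⁻¹) (by
    norm_num [Complex.slitPlane])
  have h3 := h2.const_mul r
  refine h3.congr_deriv ?_
  norm_num
  ring

/-- the curve in the cone over the quartic -/
noncomputable def bb (r t : ℂ) : Fin 3 → ℂ := ![RR r t, 1, 1 + t]

/-- the curve in the plane -/
def ss (t : ℂ) : Fin 2 → ℂ := ![1, t]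

lemma bb_mem {r : ℂ} (hr : r ^ 4 = 2) (t : ℂ) : bb r t ∈ Cone := by
  refine ⟨fun h => ?_, ?_⟩
  · have := congrFun h 1
    simp [bb] at this
  · simp [bb, RR_pow hr]

lemma ss_ne (t : ℂ) : ss t ≠ 0 := by
  intro h
  have := congrFun h 0
  simp [ss] at this

/-- the local parametrization of the threefold -/
noncomputable def YY (r : ℂ) (t : Fin 3 → ℂ) : Idx → ℂ :=
  Phi (bb r (t 1)) (bb r (t 2)) (ss (t 0))

lemma diff_YY (r : ℂ) : DifferentiableAt ℂ (YY r) 0 := by
  have hR : ∀ i : Fin 3, DifferentiableAt ℂ (fun t : Fin 3 → ℂ => RR r (t i)) 0 := by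
    intro i
    have h1 : DifferentiableAt ℂ (RR r) ((0 : Fin 3 → ℂ) i) :=
      (hasDerivAt_RR r).differentiableAt
    exact DifferentiableAt.comp (g := RR r) (f := fun t : Fin 3 → ℂ => t i) (0 : Fin 3 → ℂ) h1
      (differentiableAt_apply i 0)
  have hb : ∀ (i k : Fin 3), DifferentiableAt ℂ (fun t : Fin 3 → ℂ => bb r (t i) k) 0 := by
    intro i k
    fin_cases k
    · exact hR i
    · exact differentiableAt_const _
    · exact (differentiableAt_apply i 0).const_add 1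
  have hs : ∀ k : Fin 2, DifferentiableAt ℂ (fun t : Fin 3 → ℂ => ss (t 0) k) 0 := by
    intro k
    fin_cases k
    · exact differentiableAt_const _
    · exact differentiableAt_apply 0 0
  have hP : ∀ k : Fin 4, DifferentiableAt ℂ (fun t : Fin 3 → ℂ =>
      Psi (bb r (t 1)) (bb r (t 2)) (ss (t 0)) k) 0 := by
    intro k
    fin_cases k
    · exact ((hb 1 0).fun_mul (hb 2 0)).fun_mul (hs 0)
    · exact ((((hb 1 0).fun_mul (hb 2 0)).fun_mul (hs 1)).fun_add
        (((hb 1 0).fun_mul (hb 2 1)).fun_mul (hs 0))).fun_add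
        (((hb 1 1).fun_mul (hb 2 0)).fun_mul (hs 0))
    · exact ((((hb 1 0).fun_mul (hb 2 1)).fun_mul (hs 1)).fun_add
        (((hb 1 1).fun_mul (hb 2 0)).fun_mul (hs 1))).fun_add
        (((hb 1 1).fun_mul (hb 2 1)).fun_mul (hs 0))
    · exact ((hb 1 1).fun_mul (hb 2 1)).fun_mul (hs 1)
  rw [differentiableAt_pi]
  rintro (p | p)
  · exact (hP p.1).fun_mul (hP p.2)
  · exact ((((((hb 1 0).fun_sub (hb 1 1)).fun_mul ((hb 2 0).fun_sub (hb 2 1))).fun_mul
      (hb 1 p.1)).fun_mul (hb 2 p.2.1)).fun_mul (hs p.2.2.1)).fun_mul (hs p.2.2.2)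

/-- the derivative of the parametrization at the base point -/
noncomputable def LL (r : ℂ) : (Fin 3 → ℂ) →L[ℂ] (Idx → ℂ) := fderiv ℂ (YY r) 0

lemma hasDerivAt_YY (r : ℂ) (x : Fin 3 → ℂ) (i : Idx) :
    HasDerivAt (fun t : ℂ => YY r (t • x) i) (LL r x i) 0 := by
  have h1 : HasDerivAt (fun t : ℂ => t • x) x 0 := by
    simpa using (hasDerivAt_id (0 : ℂ)).smul_const x
  have h2 : HasFDerivAt (YY r) (LL r) ((0 : ℂ) • x) := by
    rw [zero_smul]
    exact (diff_YY r).hasFDerivAt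
  have h3 := h2.comp_hasDerivAt (0 : ℂ) h1
  exact (hasDerivAt_pi.1 h3) i

lemma YY_inr (r : ℂ) (t : Fin 3 → ℂ) (k l : Fin 3) (m n : Fin 2) :
    YY r t (Sum.inr (k, l, m, n)) = (RR r (t 1) - 1) * (RR r (t 2) - 1) * bb r (t 1) k *
      bb r (t 2) l * ss (t 0) m * ss (t 0) n := by
  simp [YY, Phi, lam, bb]

/-- (B) no direction is radial -/
lemma LL_radial {r : ℂ} (hr : r ^ 4 = 2) {x : Fin 3 → ℂ} {c : ℂ} (h : LL r x = c • YY r 0) :
    x = 0 := by
  have hr1 : r - 1 ≠ 0 := by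
    intro h1
    have : r = 1 := by linear_combination h1
    rw [this] at hr
    norm_num at hr
  have hRR : ∀ i : Fin 3, HasDerivAt (fun t : ℂ => RR r (t * x i)) (r / 2 * x i) 0 := by
    intro i
    have h1 : HasDerivAt (fun t : ℂ => t * x i) (x i) 0 := by
      simpa using (hasDerivAt_id (0 : ℂ)).mul_const (x i)
    have h2 : HasDerivAt (RR r) (r / 2) ((0 : ℂ) * x i) := by
      rw [zero_mul]
      exact hasDerivAt_RR r
    exact HasDerivAt.comp (h₂ := RR r) (h := fun t : ℂ => t * x i) (0 : ℂ) h2 h1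
  have hX : ∀ i : Fin 3, HasDerivAt (fun t : ℂ => t * x i) (x i) 0 := fun i => by
    simpa using (hasDerivAt_id (0 : ℂ)).mul_const (x i)
  have hi : ∀ i, LL r x i = c * YY r 0 i := fun i => by rw [h]; rfl
  have A1 := (hasDerivAt_YY r x (Sum.inr (1, 1, 0, 1))).unique (f := fun t : ℂ =>
    YY r (t • x) (Sum.inr (1, 1, 0, 1))) (by
      have := ((((hRR 1).sub_const 1).fun_mul ((hRR 2).sub_const 1))).fun_mul (hX 0)
      refine (this.congr_of_eventuallyEq (Eventually.of_forall fun t => ?_))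
      simp [YY_inr, bb, ss])
  have A2 := (hasDerivAt_YY r x (Sum.inr (1, 1, 0, 0))).unique (f := fun t : ℂ =>
    YY r (t • x) (Sum.inr (1, 1, 0, 0))) (by
      have := (((hRR 1).sub_const 1).fun_mul ((hRR 2).sub_const 1))
      refine (this.congr_of_eventuallyEq (Eventually.of_forall fun t => ?_))
      simp [YY_inr, bb, ss])
  have A3 := (hasDerivAt_YY r x (Sum.inr (2, 1, 0, 0))).unique (f := fun t : ℂ =>
    YY r (t • x) (Sum.inr (2, 1, 0, 0))) (by
      have := (((hRR 1).sub_const 1).fun_mul ((hRR 2).sub_const 1)).fun_mul ((hX 1).const_add 1)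
      refine (this.congr_of_eventuallyEq (Eventually.of_forall fun t => ?_))
      simp [YY_inr, bb, ss])
  have A4 := (hasDerivAt_YY r x (Sum.inr (1, 2, 0, 0))).unique (f := fun t : ℂ =>
    YY r (t • x) (Sum.inr (1, 2, 0, 0))) (by
      have := (((hRR 1).sub_const 1).fun_mul ((hRR 2).sub_const 1)).fun_mul ((hX 2).const_add 1)
      refine (this.congr_of_eventuallyEq (Eventually.of_forall fun t => ?_))
      simp [YY_inr, bb, ss])
  rw [hi, YY_inr] at A1 A2 A3 A4
  simp only [Pi.zero_apply, RR_zero, bb, ss, zero_mul, mul_zero, Matrix.cons_val_zero,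
    Matrix.cons_val_one, Matrix.cons_val, mul_one, add_zero, zero_add] at A1 A2 A3 A4
  have a2 : (r - 1) ^ 2 ≠ 0 := pow_ne_zero _ hr1
  have x0 : x 0 = 0 := by
    have : (r - 1) ^ 2 * x 0 = 0 := by linear_combination -A1
    exact (mul_eq_zero.1 this).resolve_left a2
  have x1 : x 1 = 0 := by
    have : (r - 1) ^ 2 * x 1 = 0 := by linear_combination A2 - A3
    exact (mul_eq_zero.1 this).resolve_left a2
  have x2 : x 2 = 0 := by
    have : (r - 1) ^ 2 * x 2 = 0 := by linear_combination A2 - A4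
    exact (mul_eq_zero.1 this).resolve_left a2
  funext i
  fin_cases i
  · exact x0
  · exact x1
  · exact x2

/-! ### The dimension count -/

/-- the derivative of the composition with a tuple of polynomials -/
noncomputable def DD {κ : Type} (r : ℂ) (G : κ → MvPolynomial Idx ℂ) :
    (Fin 3 → ℂ) →ₗ[ℂ] (κ → ℂ) :=
  LinearMap.pi fun k => ∑ i, (eval (YY r 0) (pderiv i (G k))) •
    ((LinearMap.proj i : (Idx → ℂ) →ₗ[ℂ] ℂ) ∘ₗ (LL r : (Fin 3 → ℂ) →ₗ[ℂ] (Idx → ℂ)))

lemma DD_apply {κ : Type} (r : ℂ) (G : κ → MvPolynomial Idx ℂ) (x : Fin 3 → ℂ) (k : κ) :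
    DD r G x k = ∑ i, LL r x i * eval (YY r 0) (pderiv i (G k)) := by
  simp only [DD, LinearMap.pi_apply, LinearMap.coe_sum, Finset.sum_apply, LinearMap.smul_apply,
    LinearMap.comp_apply, LinearMap.proj_apply, smul_eq_mul]
  exact Finset.sum_congr rfl fun i _ => mul_comm _ _

lemma hasDerivAt_DD {κ : Type} (r : ℂ) (G : κ → MvPolynomial Idx ℂ) (x : Fin 3 → ℂ) (k : κ) :
    HasDerivAt (fun t : ℂ => evalT (YY r (t • x)) G k) (DD r G x k) 0 := by
  have h := hasDerivAt_eval (G k) (hasDerivAt_YY r x)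
  rw [DD_apply]
  simp only [zero_smul] at h
  exact h

lemma near_ne {κ : Type} (r : ℂ) (G : κ → MvPolynomial Idx ℂ) (h0 : evalT (YY r 0) G ≠ 0)
    (x : Fin 3 → ℂ) : ∀ᶠ t in 𝓝 (0 : ℂ), evalT (YY r (t • x)) G ≠ 0 := by
  obtain ⟨k, hk⟩ := Function.ne_iff.1 h0
  have h1 : evalT (YY r ((0 : ℂ) • x)) G k ≠ 0 := by
    rw [zero_smul]
    exact hk
  have h2 := (hasDerivAt_DD r G x k).continuousAt.eventually_ne h1
  filter_upwards [h2] with t ht h
  exact ht (congrFun h k)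

/-- a lift of a constant map has radial derivative -/
lemma DD_const {κ : Type} (r : ℂ) (G : κ → MvPolynomial Idx ℂ) (h0 : evalT (YY r 0) G ≠ 0)
    (x : Fin 3 → ℂ) {p : PS κ} (hp : ∀ᶠ t in 𝓝 (0 : ℂ), IsCoord p (evalT (YY r (t • x)) G)) :
    ∃ c : ℂ, DD r G x = c • evalT (YY r 0) G := by
  obtain ⟨k, hk⟩ := Function.ne_iff.1 h0
  have hk' : evalT (YY r 0) G k ≠ 0 := hk
  have hp0 : IsCoord p (evalT (YY r 0) G) := by
    have := hp.self_of_nhds
    rwa [zero_smul] at this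
  refine ⟨DD r G x k / evalT (YY r 0) G k, ?_⟩
  funext i
  have e1 := (hasDerivAt_DD r G x i).mul_const (evalT (YY r 0) G k)
  have e2 := (hasDerivAt_DD r G x k).mul_const (evalT (YY r 0) G i)
  have e3 : (fun t : ℂ => evalT (YY r (t • x)) G i * evalT (YY r 0) G k) =ᶠ[𝓝 0]
      fun t : ℂ => evalT (YY r (t • x)) G k * evalT (YY r 0) G i := by
    filter_upwards [hp] with t ht
    obtain ⟨a, -, ha⟩ := hp0.exists_smul ht
    rw [ha]
    simp only [Pi.smul_apply, smul_eq_mul]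
    ring
  have e4 := (e2.congr_of_eventuallyEq e3).unique e1
  simp only [Pi.smul_apply, smul_eq_mul]
  field_simp
  linear_combination -e4

theorem dim_bound {m n : ℕ} {j : PS Idx → PS (Fin m) × PS (Fin n)} (hj : IsEmbedding XX j) :
    5 ≤ m + n ∧ ((∀ x ∈ XX, ∀ y ∈ XX, (j x).1 = (j y).1) → 4 ≤ n) ∧
      ((∀ x ∈ XX, ∀ y ∈ XX, (j x).2 = (j y).2) → 4 ≤ m) := by
  obtain ⟨r, hr⟩ : ∃ r : ℂ, r ^ 4 = 2 :=
    ⟨(2 : ℂ) ^ (((4 : ℕ) : ℂ)⁻¹), Complex.cpow_nat_inv_pow _ (by norm_num)⟩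
  have hne : ∀ t, YY r t ≠ 0 := fun t => Phi_ne_zero (bb_mem hr _) (bb_mem hr _) (ss_ne _)
  set P : (Fin 3 → ℂ) → PS Idx := fun t => Projectivization.mk ℂ (YY r t) (hne t) with hPdef
  have hP : ∀ t, IsCoord (P t) (YY r t) := fun t => isCoord_mk (hne t)
  have hPX : ∀ t, P t ∈ XX := fun t => ⟨_, bb_mem hr _, _, bb_mem hr _, _, ss_ne _, hP t⟩
  obtain ⟨d1, G1, hG1, hG1n, hG1j⟩ := hj.1 (P 0) (hPX 0)
  obtain ⟨d2, G2, hG2, hG2n, hG2j⟩ := hj.2.1 (P 0) (hPX 0)
  have n1 : evalT (YY r 0) G1 ≠ 0 := hG1n _ (hP 0)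
  have n2 : evalT (YY r 0) G2 ≠ 0 := hG2n _ (hP 0)
  have c1 : ∀ x, ∀ᶠ t in 𝓝 (0 : ℂ), IsCoord (j (P (t • x))).1 (evalT (YY r (t • x)) G1) := by
    intro x
    filter_upwards [near_ne r G1 n1 x] with t ht
    exact hG1j _ (hPX _) _ (hP _) ht
  have c2 : ∀ x, ∀ᶠ t in 𝓝 (0 : ℂ), IsCoord (j (P (t • x))).2 (evalT (YY r (t • x)) G2) := by
    intro x
    filter_upwards [near_ne r G2 n2 x] with t ht
    exact hG2j _ (hPX _) _ (hP _) ht
  -- the key step
  have key : ∀ (x : Fin 3 → ℂ) (u v : ℂ), DD r G1 x = u • evalT (YY r 0) G1 →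
      DD r G2 x = v • evalT (YY r 0) G2 → x = 0 := by
    intro x u v h1 h2
    obtain ⟨c, hc⟩ := curve_imm (x := fun t => P (t • x)) (y := fun t => YY r (t • x))
      (F := fun t => evalT (YY r (t • x)) G1) (G := fun t => evalT (YY r (t • x)) G2)
      (y' := LL r x) (l := u) (r := v) hj (Eventually.of_forall fun t => hPX _)
      (Eventually.of_forall fun t => hP _) (c1 x) (c2 x) (hasDerivAt_YY r x)
      (fun i => by
        have := hasDerivAt_DD r G1 x i
        rw [h1] at this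
        simpa only [zero_smul, Pi.smul_apply, smul_eq_mul] using this)
      (fun i => by
        have := hasDerivAt_DD r G2 x i
        rw [h2] at this
        simpa only [zero_smul, Pi.smul_apply, smul_eq_mul] using this)
    rw [zero_smul] at hc
    exact LL_radial hr hc
  refine ⟨?_, ?_, ?_⟩
  · -- the injective linear map
    let T : ((Fin 3 → ℂ) × ℂ × ℂ) →ₗ[ℂ] ((Fin m → ℂ) × (Fin n → ℂ)) :=
      LinearMap.prod
        (DD r G1 ∘ₗ LinearMap.fst ℂ _ _ + (LinearMap.toSpanSingleton ℂ _ (evalT (YY r 0) G1)) ∘ₗ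
          LinearMap.fst ℂ _ _ ∘ₗ LinearMap.snd ℂ _ _)
        (DD r G2 ∘ₗ LinearMap.fst ℂ _ _ + (LinearMap.toSpanSingleton ℂ _ (evalT (YY r 0) G2)) ∘ₗ
          LinearMap.snd ℂ _ _ ∘ₗ LinearMap.snd ℂ _ _)
    have hT : Function.Injective T := by
      rw [injective_iff_map_eq_zero]
      rintro ⟨x, u, v⟩ h
      have h1 : DD r G1 x + u • evalT (YY r 0) G1 = 0 := congrArg Prod.fst h
      have h2 : DD r G2 x + v • evalT (YY r 0) G2 = 0 := congrArg Prod.snd h
      have hx := key x (-u) (-v) (by rw [neg_smul]; exact eq_neg_of_add_eq_zero_left h1)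
        (by rw [neg_smul]; exact eq_neg_of_add_eq_zero_left h2)
      subst hx
      rw [map_zero, zero_add, smul_eq_zero] at h1 h2
      rw [h1.resolve_right n1, h2.resolve_right n2]
      rfl
    have := LinearMap.finrank_le_finrank_of_injective hT
    simpa using this
  · intro hc
    let T : ((Fin 3 → ℂ) × ℂ) →ₗ[ℂ] (Fin n → ℂ) :=
      DD r G2 ∘ₗ LinearMap.fst ℂ _ _ + (LinearMap.toSpanSingleton ℂ _ (evalT (YY r 0) G2)) ∘ₗ
          LinearMap.snd ℂ _ _
    have hT : Function.Injective T := by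
      rw [injective_iff_map_eq_zero]
      rintro ⟨x, v⟩ h
      have h2 : DD r G2 x + v • evalT (YY r 0) G2 = 0 := h
      obtain ⟨c, h1⟩ := DD_const r G1 n1 x (p := (j (P 0)).1) (by
        filter_upwards [c1 x] with t ht
        rwa [hc _ (hPX 0) _ (hPX (t • x))])
      have hx := key x c (-v) h1 (by rw [neg_smul]; exact eq_neg_of_add_eq_zero_left h2)
      subst hx
      rw [map_zero, zero_add, smul_eq_zero] at h2
      rw [h2.resolve_right n2]
      rfl
    have := LinearMap.finrank_le_finrank_of_injective hT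
    simpa using this
  · intro hc
    let T : ((Fin 3 → ℂ) × ℂ) →ₗ[ℂ] (Fin m → ℂ) :=
      DD r G1 ∘ₗ LinearMap.fst ℂ _ _ + (LinearMap.toSpanSingleton ℂ _ (evalT (YY r 0) G1)) ∘ₗ
          LinearMap.snd ℂ _ _
    have hT : Function.Injective T := by
      rw [injective_iff_map_eq_zero]
      rintro ⟨x, v⟩ h
      have h1 : DD r G1 x + v • evalT (YY r 0) G1 = 0 := h
      obtain ⟨c, h2⟩ := DD_const r G2 n2 x (p := (j (P 0)).2) (by
        filter_upwards [c2 x] with t ht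
        rwa [hc _ (hPX 0) _ (hPX (t • x))])
      have hx := key x (-v) c (by rw [neg_smul]; exact eq_neg_of_add_eq_zero_left h1) h2
      subst hx
      rw [map_zero, zero_add, smul_eq_zero] at h1
      rw [h1.resolve_right n1]
      rfl
    have := LinearMap.finrank_le_finrank_of_injective hT
    simpa using this

end Pool.Agent.TH263.J1084
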