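import Pool.Agent.TH229.PG.GeoDefs

/-!
# Leaves of the foliation arbitrarily close to the curve
-/

set_option autoImplicit false

namespace Pool.Agent.TH263.PG

open Real Filter Topology MeasureTheory Set Pool.Agent.TH229.PG

/-- different leaves are strictly ordered -/
theorem nested {𝓕 : Set (ℝ → ℝ)} (hF : Fol 𝓕) {τ₁ τ₂ : ℝ → ℝ} (h1 : τ₁ ∈ 𝓕) (h2 : τ₂ ∈ 𝓕)
    {p : ℝ} (hp : τ₁ p < τ₂ p) (x : ℝ) : τ₁ x < τ₂ x := by
  by_contra hx
  rw [not_lt] at hx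
  have l1 := hF.leaf _ h1
  have l2 := hF.leaf _ h2
  have hc : Continuous (fun x => τ₂ x - τ₁ x) := l2.cont.sub l1.cont
  have hmem : (0 : ℝ) ∈ uIcc ((fun x => τ₂ x - τ₁ x) x) ((fun x => τ₂ x - τ₁ x) p) := by
    rw [mem_uIcc]; left; constructor
    · simp only; linarith
    · simp only; linarith
  obtain ⟨z, -, hz⟩ := intermediate_value_uIcc (hc.continuousOn (s := uIcc x p)) hmem
  simp only at hz
  have hz' : τ₂ z = τ₁ z := by linarith
  obtain ⟨τ, -, hu⟩ := hF.unique z (τ₁ z) (l1.above z) (l1.below z)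
  have e1 := hu τ₁ ⟨h1, rfl⟩
  have e2 := hu τ₂ ⟨h2, hz'⟩
  rw [e1, e2] at hp
  exact lt_irrefl _ hp

theorem near_leaf {𝓕 : Set (ℝ → ℝ)} (hF : Fol 𝓕) {η : ℝ} (hη : 0 < η) :
    ∃ τ ∈ 𝓕, ∀ x, τ x ≤ x + η := by
  have hπ := Real.pi_pos
  obtain ⟨ε, hε⟩ : ∃ ε : ℝ, ε = min η π := ⟨_, rfl⟩
  have hε0 : 0 < ε := by rw [hε]; exact lt_min hη hπ
  have hε1 : ε ≤ η := by rw [hε]; exact min_le_left _ _
  have hε2 : ε ≤ π := by rw [hε]; exact min_le_right _ _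
  obtain ⟨N, hN⟩ := exists_nat_gt (2 * π / (ε / 2))
  have hN0 : (0 : ℝ) < N := lt_trans (by positivity) hN
  obtain ⟨h, hh⟩ : ∃ h : ℝ, h = 2 * π / N := ⟨_, rfl⟩
  have hh0 : 0 < h := by rw [hh]; positivity
  have hhε : h ≤ ε / 2 := by
    rw [hh, div_le_iff₀ hN0]
    rw [div_lt_iff₀ (by positivity)] at hN
    linarith
  have hNh : N * h = 2 * π := by rw [hh]; field_simp
  have hex : ∀ i : ℕ, ∃ t ∈ 𝓕, t (i * h) = i * h + ε / 2 := by
    intro i
    obtain ⟨t, ⟨ht, he⟩, -⟩ := hF.unique (i * h) (i * h + ε / 2) (by linarith) (by linarith)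
    exact ⟨t, ht, he⟩
  choose t ht hte using hex
  obtain ⟨i₀, -, hi₀⟩ := Finset.exists_min_image (Finset.range (N + 1)) (fun i => t i 0)
    ⟨0, Finset.mem_range.2 (by omega)⟩
  refine ⟨t i₀, ht i₀, fun x => ?_⟩
  have hle : ∀ i ∈ Finset.range (N + 1), ∀ x, t i₀ x ≤ t i x := by
    intro i hi x
    by_contra hc
    rw [not_le] at hc
    have h1 := nested hF (ht i) (ht i₀) hc 0
    have h2 := hi₀ i hi
    linarith
  have hl := hF.leaf _ (ht i₀)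
  have hper : Function.Periodic (fun x => t i₀ x - x) (2 * π) := by
    intro x
    simp only
    rw [hl.per]
    ring
  obtain ⟨y, hy, hxy⟩ := hper.exists_mem_Ico₀ (by positivity) x
  have hy0 : 0 ≤ y := hy.1
  have hi1 : y ≤ (⌈y / h⌉₊ : ℝ) * h := by
    have := Nat.le_ceil (y / h)
    rwa [div_le_iff₀ hh0] at this
  have hi2 : (⌈y / h⌉₊ : ℝ) * h < y + h := by
    have := Nat.ceil_lt_add_one (show 0 ≤ y / h by positivity)
    have h3 := mul_lt_mul_of_pos_right this hh0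
    have h4 : (y / h + 1) * h = y + h := by field_simp
    linarith
  have hi3 : ⌈y / h⌉₊ ∈ Finset.range (N + 1) := by
    rw [Finset.mem_range, Nat.lt_succ_iff]
    apply Nat.ceil_le.2
    rw [div_le_iff₀ hh0, hNh]
    exact hy.2.le
  have h5 : t i₀ y ≤ t i₀ ((⌈y / h⌉₊ : ℝ) * h) := hl.mono.monotone hi1
  have h6 := hle _ hi3 ((⌈y / h⌉₊ : ℝ) * h)
  rw [hte] at h6
  linarith

end Pool.Agent.TH263.PG
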