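import Pool.Agent.TH83.DC.GDefs

set_option autoImplicit false

namespace Pool.Agent.TH263.DC2344

open Finset Pool.Agent.TH83.DC
open scoped Classical

theorem wt_nonneg (a : ℕ) : 0 ≤ wt a := by
  unfold wt
  exact Real.log_natCast_nonneg _

theorem wt_one : wt 1 = 0 := by
  unfold wt
  rw [Nat.divisors_one, Finset.card_singleton, Nat.cast_one, Real.log_one]

theorem wt_zero : wt 0 = 0 := by
  unfold wt
  rw [Nat.divisors_zero, Finset.card_empty, Nat.cast_zero, Real.log_zero]

theorem card_divisors_pos {a : ℕ} (ha : a ≠ 0) : (0 : ℝ) < (a.divisors.card : ℝ) := by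
  have : 0 < a.divisors.card := Finset.card_pos.2 ⟨1, Nat.one_mem_divisors.2 ha⟩
  exact_mod_cast this

theorem wt_mul_le (a b : ℕ) : wt (a * b) ≤ wt a + wt b := by
  rcases eq_or_ne a 0 with rfl | ha
  · rw [zero_mul, wt_zero, zero_add]; exact wt_nonneg b
  rcases eq_or_ne b 0 with rfl | hb
  · rw [mul_zero, wt_zero, add_zero]; exact wt_nonneg a
  unfold wt
  rw [← Real.log_mul (card_divisors_pos ha).ne' (card_divisors_pos hb).ne']
  refine Real.log_le_log (card_divisors_pos (mul_ne_zero ha hb)) ?_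
  have h1 : (a * b).divisors ⊆ (a.divisors ×ˢ b.divisors).image fun d => d.1 * d.2 := by
    intro d hd
    rw [Nat.mem_divisors] at hd
    obtain ⟨x, y, hx, hy, rfl⟩ := exists_dvd_and_dvd_of_dvd_mul hd.1
    exact Finset.mem_image.2 ⟨(x, y), Finset.mem_product.2
      ⟨Nat.mem_divisors.2 ⟨hx, ha⟩, Nat.mem_divisors.2 ⟨hy, hb⟩⟩, rfl⟩
  have h2 := (Finset.card_le_card h1).trans Finset.card_image_le
  rw [Finset.card_product] at h2
  exact_mod_cast h2

theorem wt_prod_le {ι : Type*} (s : Finset ι) (f : ι → ℕ) :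
    wt (∏ i ∈ s, f i) ≤ ∑ i ∈ s, wt (f i) := by
  induction s using Finset.induction_on with
  | empty => rw [Finset.prod_empty, Finset.sum_empty, wt_one]
  | insert a s ha ih =>
    rw [Finset.prod_insert ha, Finset.sum_insert ha]
    exact (wt_mul_le _ _).trans (by linarith)

theorem wt_mono {a b : ℕ} (hb : b ≠ 0) (h : a ∣ b) : wt a ≤ wt b := by
  unfold wt
  refine Real.log_le_log (card_divisors_pos (ne_zero_of_dvd_ne_zero hb h)) ?_
  exact_mod_cast Finset.card_le_card (Nat.divisors_subset_of_dvd hb h)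

theorem wt_prime {p : ℕ} (hp : p.Prime) : wt p = Real.log 2 := by
  unfold wt
  rw [Nat.Prime.divisors hp, Finset.card_pair hp.one_lt.ne]
  norm_num

theorem wt_interp {g : ℕ} (hg : g ≠ 0) {s : ℝ} (h0 : 0 ≤ s) (h1 : s ≤ wt g) :
    ∃ n, n ∣ g ∧ s ≤ wt n ∧ wt n ≤ s + Real.log 2 := by
  induction g using Nat.strong_induction_on with
  | _ g ih =>
    by_cases h : wt g ≤ s + Real.log 2
    · exact ⟨g, dvd_rfl, h1, h⟩
    · push Not at h
      have hl : 0 < Real.log 2 := Real.log_pos (by norm_num)
      have hg1 : g ≠ 1 := by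
        rintro rfl
        rw [wt_one] at h
        linarith
      have hp := Nat.minFac_prime hg1
      obtain ⟨q, hq⟩ := Nat.minFac_dvd g
      have hq0 : q ≠ 0 := by
        rintro rfl
        rw [mul_zero] at hq
        exact hg hq
      have h2 : wt g ≤ wt g.minFac + wt q := by
        conv_lhs => rw [hq]
        exact wt_mul_le _ _
      rw [wt_prime hp] at h2
      have hlt : q < g := by
        have := hp.one_lt
        calc q < g.minFac * q := by
              exact lt_mul_left (Nat.pos_of_ne_zero hq0) this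
          _ = g := hq.symm
      obtain ⟨n, hn, hn1, hn2⟩ := ih q hlt hq0 (by linarith)
      exact ⟨n, hn.trans (Dvd.intro_left _ hq.symm), hn1, hn2⟩

end Pool.Agent.TH263.DC2344
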