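import Pool.Agent.TH37.HG.Stmts

/-! Job HG-MAL (helper263 for helper37): finitely generated residually finite groups are Hopfian. -/

set_option autoImplicit false

namespace Pool.Agent.TH263.HGMAL

open Pool.Agent.TH37.HG

theorem mal : MalStmt := by
  intro G _ _ hG φ hφ
  rw [injective_iff_map_eq_one]
  intro g hg
  by_contra hne
  obtain ⟨M, hM, hfi, hgM⟩ := hG g hne
  have hfin : Finite (G ⧸ M) := inferInstance
  have hF : Finite (G →* G ⧸ M) := by
    obtain ⟨S, hS⟩ := Group.fg_def.mp (inferInstance : Group.FG G)
    have hinj : Function.Injective (fun f : G →* G ⧸ M => fun s : S => f s) := by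
      intro f f' hff
      refine MonoidHom.eq_of_eqOn_dense hS ?_
      intro x hx
      exact congrFun hff ⟨x, hx⟩
    exact Finite.of_injective _ hinj
  have hinj : Function.Injective (fun f : G →* G ⧸ M => f.comp φ) := by
    intro f f' hff
    ext x
    obtain ⟨y, rfl⟩ := hφ x
    exact DFunLike.congr_fun hff y
  obtain ⟨f, hf⟩ := (Finite.surjective_of_injective hinj) (QuotientGroup.mk' M)
  have h1 : QuotientGroup.mk' M g = 1 := by
    rw [← hf]
    simp [hg]
  exact hgM ((QuotientGroup.eq_one_iff g).mp h1)

end Pool.Agent.TH263.HGMAL
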