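import Pool.Agent.TH37.HG.Stmts

/-! Job HG-SIMP (helper263 for helper37): a simple module over a polycyclic group has prime
exponent. -/

set_option autoImplicit false

namespace Pool.Agent.TH263.HGSIMP

open Pool.Agent.Helper294.HallC (PC FGM Stb Noe)
open Pool.Agent.TH37.HG

theorem smul_zmul {Q A : Type} [Group Q] [AddCommGroup A] [DistribMulAction Q A] (g : Q) (n : ℤ)
    (x : A) : g • (n • x) = n • (g • x) :=
  map_zsmul (DistribSMul.toAddMonoidHom A g) n x

theorem simp' (hG : GenStmt) (hD : DivStmt) : SimpStmt := by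
  intro Q A _ _ _ hPC hfg hsim
  by_contra hcon
  push Not at hcon
  -- multiplication by a prime is bijective
  have hinj : ∀ p : ℕ, p.Prime → ∀ x : A, (p : ℤ) • x = 0 → x = 0 := by
    intro p hp x hx
    by_contra hx0
    let B : AddSubgroup A := (zsmulAddGroupHom (p : ℤ) : A →+ A).ker
    have hB : Stb Q B := by
      intro g a ha
      have ha' : (p : ℤ) • a = 0 := ha
      show (p : ℤ) • (g • a) = 0
      rw [← smul_zmul, ha', smul_zero]
    have hne : B ≠ ⊥ := by
      intro h
      have : x ∈ B := hx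
      rw [h] at this
      exact hx0 (by simpa using this)
    have htop := hsim.2 B hB hne
    obtain ⟨y, hy⟩ := hcon p hp
    have : y ∈ B := by rw [htop]; trivial
    apply hy
    have h2 : (p : ℤ) • y = 0 := this
    simpa using h2
  have hsurj : ∀ p : ℕ, p.Prime → ∀ x : A, ∃ y : A, (p : ℤ) • y = x := by
    intro p hp
    let B : AddSubgroup A := (zsmulAddGroupHom (p : ℤ) : A →+ A).range
    have hB : Stb Q B := by
      rintro g _ ⟨a, rfl⟩
      exact ⟨g • a, by
        show (p : ℤ) • (g • a) = g • ((p : ℤ) • a)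
        rw [smul_zmul]⟩
    have hne : B ≠ ⊥ := by
      intro h
      obtain ⟨y, hy⟩ := hcon p hp
      apply hy
      have : (p : ℤ) • y ∈ B := ⟨y, rfl⟩
      rw [h] at this
      simpa using this
    have htop := hsim.2 B hB hne
    intro x
    have : x ∈ B := by rw [htop]; trivial
    obtain ⟨y, hy⟩ := this
    exact ⟨y, hy⟩
  have htf : ∀ (n : ℕ), n ≠ 0 → ∀ x : A, (n : ℤ) • x = 0 → x = 0 := by
    intro n
    induction n using Nat.strong_induction_on with
    | _ n ih =>
      intro hn x hx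
      rcases Nat.lt_or_ge n 2 with h | h
      · have : n = 1 := by omega
        subst this
        simpa using hx
      · obtain ⟨p, hp, hpn⟩ := Nat.exists_prime_and_dvd (n := n) (by omega)
        obtain ⟨m, rfl⟩ := hpn
        have hm0 : m ≠ 0 := by rintro rfl; simp at hn
        have hlt : m < p * m := by
          have := hp.two_le
          nlinarith [Nat.pos_of_ne_zero hm0]
        refine ih m hlt hm0 x (hinj p hp _ ?_)
        rw [smul_smul]
        exact_mod_cast hx
  have hsmcl : SMulCommClass Q ℤ A := ⟨fun g n x => smul_zmul g n x⟩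
  obtain ⟨S, hS⟩ := hfg
  obtain ⟨f, hf0, hGF⟩ := hG ℤ A Q hPC (⊥ : Submodule ℤ A) (by
    intro g _ x hx
    rw [Submodule.mem_bot] at hx ⊢
    rw [hx, smul_zero]) S
  have htop : (⊥ : Submodule ℤ A) ⊔ spJ ℤ (⊤ : Subgroup Q) (S : Set A) = ⊤ := by
    rw [bot_sup_eq]
    unfold spJ
    rw [← Submodule.toAddSubgroup_inj, Submodule.span_int_eq_addSubgroupClosure]
    have hset : {a : A | ∃ g ∈ (⊤ : Subgroup Q), ∃ s ∈ (S : Set A), a = g • s} =
        {a : A | ∃ g : Q, ∃ s ∈ S, a = g • s} := by
      ext a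
      simp
    rw [hset, hS]
    rfl
  rw [htop] at hGF
  obtain ⟨p, hple, hp⟩ := Nat.exists_infinite_primes (f.natAbs + 1)
  have hndvd : ¬ p ∣ f.natAbs := by
    intro h
    have := Nat.le_of_dvd (Int.natAbs_pos.mpr hf0) h
    omega
  have hcop : IsCoprime (p : ℤ) f := by
    rw [Int.isCoprime_iff_nat_coprime]
    simpa using (Nat.Prime.coprime_iff_not_dvd hp).mpr hndvd
  have hnu : ¬ IsUnit (p : ℤ) := by
    rw [Int.isUnit_iff_natAbs_eq]
    simpa using hp.one_lt.ne'
  obtain ⟨a, ha⟩ := hsim.1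
  refine ha (hD ℤ A f (p : ℤ) hnu hcop hf0 ?_ (hsurj p hp) hGF a)
  intro c x hcx
  by_cases hc : c = 0
  · exact Or.inl hc
  · right
    refine htf c.natAbs (Int.natAbs_ne_zero.mpr hc) x ?_
    rcases Int.natAbs_eq c with h | h
    · rw [← h]; exact hcx
    · have h2 : ((c.natAbs : ℕ) : ℤ) = -c := by omega
      rw [h2, neg_smul, hcx, neg_zero]

end Pool.Agent.TH263.HGSIMP
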