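import Pool.Agent.TH37.HG.Stmts

/-! Job HG-SIMZ (helper263 for helper37): a central element acts with finite order on a simple
module over a polycyclic group. -/

set_option autoImplicit false

namespace Pool.Agent.TH263.HGSIMZ

open Pool.Agent.Helper294.HallC (PC FGM Stb Noe)
open Pool.Agent.TH37.HG
open Polynomial

theorem simz_aux (hG : GenStmt) (hD : DivStmt) (Q A : Type) [Group Q] [AddCommGroup A]
    [DistribMulAction Q A] (hPC : PC Q) (hfg : FGM Q A) (hsim : SimM Q A) (p : ℕ) [Fact p.Prime]
    [Module (ZMod p) A] (z : Q) (hz : ∀ g, z * g = g * z) :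
    ∃ m : ℕ, 0 < m ∧ ∀ x : A, z ^ m • x = x := by
  -- the action of an element as a linear map
  let L : Q → (A →ₗ[ZMod p] A) := fun g =>
    (DistribSMul.toAddMonoidHom A g).toZModLinearMap p
  have hL : ∀ g x, L g x = g • x := fun g x => rfl
  let _ : Module (ZMod p)[X] A := Module.compHom A
    (Polynomial.aeval (L z) : (ZMod p)[X] →ₐ[ZMod p] Module.End (ZMod p) A).toRingHom
  have hact : ∀ (f : (ZMod p)[X]) (x : A), f • x = (Polynomial.aeval (L z) f) x := fun f x => rfl
  have hX : ∀ x : A, (X : (ZMod p)[X]) • x = z • x := by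
    intro x
    rw [hact, aeval_X]
    rfl
  have hXn : ∀ (n : ℕ) (x : A), ((X : (ZMod p)[X]) ^ n) • x = z ^ n • x := by
    intro n
    induction n with
    | zero => intro x; simp
    | succ n ih => intro x; rw [pow_succ, mul_smul, hX, ih, pow_succ, mul_smul]
  have hcomm : ∀ (g : Q) (f : (ZMod p)[X]) (x : A), g • (f • x) = f • (g • x) := by
    intro g f
    induction f using Polynomial.induction_on with
    | C a =>
      intro x
      rw [hact, hact, aeval_C, Module.algebraMap_end_apply, Module.algebraMap_end_apply]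
      exact map_smul (L g) a x
    | add f h hf hh => intro x; rw [add_smul, smul_add, hf, hh, add_smul]
    | monomial n a ih =>
      intro x
      have e : (C a * X ^ (n + 1) : (ZMod p)[X]) = (C a * X ^ n) * X := by ring
      rw [e, mul_smul (C a * X ^ n) X x, mul_smul (C a * X ^ n) X (g • x), ih, hX, hX,
        smul_smul g z, smul_smul z g, hz g]
  have hsc : SMulCommClass Q (ZMod p)[X] A := ⟨hcomm⟩
  by_cases hker : ∃ f : (ZMod p)[X], f ≠ 0 ∧ ∃ x : A, x ≠ 0 ∧ f • x = 0
  · obtain ⟨f, hf0, x, hx0, hfx⟩ := hker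
    let B : AddSubgroup A := (DistribSMul.toAddMonoidHom A f).ker
    have hB : Stb Q B := by
      intro g a ha
      have ha' : f • a = 0 := ha
      show f • (g • a) = 0
      rw [← hcomm, ha', smul_zero]
    have hne : B ≠ ⊥ := by
      intro h
      have : x ∈ B := hfx
      rw [h] at this
      exact hx0 (by simpa using this)
    have htop := hsim.2 B hB hne
    have hall : ∀ a : A, f • a = 0 := by
      intro a
      have : a ∈ B := by rw [htop]; trivial
      exact this
    have hfinM : Module.Finite (ZMod p) (AdjoinRoot f) := (AdjoinRoot.powerBasis hf0).finite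
    have hfin : Finite (AdjoinRoot f) := Module.finite_of_finite (ZMod p)
    obtain ⟨a, b, hab, heq⟩ := Finite.exists_ne_map_eq_of_infinite
      (fun n : ℕ => (AdjoinRoot.mk f (X ^ n)))
    have hpow : ∀ x : A, z ^ a • x = z ^ b • x := by
      intro x
      obtain ⟨c, hc⟩ := AdjoinRoot.mk_eq_mk.mp heq
      have h1 : ((X : (ZMod p)[X]) ^ a - X ^ b) • x = 0 := by
        rw [hc, mul_comm, mul_smul, hall, smul_zero]
      rw [sub_smul, hXn, hXn] at h1
      exact sub_eq_zero.mp h1
    rcases lt_or_gt_of_ne hab with h | h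
    · refine ⟨b - a, by omega, fun x => ?_⟩
      have h1 := hpow ((z ^ a)⁻¹ • x)
      rw [smul_inv_smul] at h1
      have e : z ^ b = z ^ (b - a) * z ^ a := by rw [← pow_add]; congr 1; omega
      rw [e, mul_smul, smul_inv_smul] at h1
      exact h1.symm
    · refine ⟨a - b, by omega, fun x => ?_⟩
      have h1 := hpow ((z ^ b)⁻¹ • x)
      rw [smul_inv_smul] at h1
      have e : z ^ a = z ^ (a - b) * z ^ b := by rw [← pow_add]; congr 1; omega
      rw [e, mul_smul, smul_inv_smul] at h1
      exact h1
  · exfalso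
    push Not at hker
    obtain ⟨a0, ha0⟩ := hsim.1
    have hsurj : ∀ f : (ZMod p)[X], f ≠ 0 → ∀ x : A, ∃ y : A, f • y = x := by
      intro f hf0
      let B : AddSubgroup A := (DistribSMul.toAddMonoidHom A f).range
      have hB : Stb Q B := by
        rintro g _ ⟨a, rfl⟩
        exact ⟨g • a, by
          show f • (g • a) = g • (f • a)
          rw [hcomm]⟩
      have hne : B ≠ ⊥ := by
        intro h
        have : f • a0 ∈ B := ⟨a0, rfl⟩
        rw [h] at this
        exact hker f hf0 a0 ha0 (by simpa using this)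
      have htop := hsim.2 B hB hne
      intro x
      have : x ∈ B := by rw [htop]; trivial
      obtain ⟨y, hy⟩ := this
      exact ⟨y, hy⟩
    obtain ⟨S, hS⟩ := hfg
    obtain ⟨f, hf0, hGF⟩ := hG (ZMod p)[X] A Q hPC (⊥ : Submodule (ZMod p)[X] A) (by
      intro g _ x hx
      rw [Submodule.mem_bot] at hx ⊢
      rw [hx, smul_zero]) S
    have htop : (⊥ : Submodule (ZMod p)[X] A) ⊔ spJ (ZMod p)[X] (⊤ : Subgroup Q) (S : Set A) =
        ⊤ := by
      rw [bot_sup_eq]
      rw [Submodule.eq_top_iff']
      intro x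
      have hx : x ∈ AddSubgroup.closure {a : A | ∃ g : Q, ∃ s ∈ S, a = g • s} := by
        rw [hS]; trivial
      have hle : AddSubgroup.closure {a : A | ∃ g : Q, ∃ s ∈ S, a = g • s} ≤
          (spJ (ZMod p)[X] (⊤ : Subgroup Q) (S : Set A)).toAddSubgroup := by
        rw [AddSubgroup.closure_le]
        rintro a ⟨g, s, hs, rfl⟩
        exact Submodule.subset_span ⟨g, Subgroup.mem_top g, s, hs, rfl⟩
      exact hle hx
    rw [htop] at hGF
    have hnu : ¬ IsUnit (1 + X * f : (ZMod p)[X]) := by
      intro h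
      have h1 := Polynomial.natDegree_eq_zero_of_isUnit h
      have h2 : (1 + X * f : (ZMod p)[X]).natDegree = f.natDegree + 1 := by
        rw [add_comm, ← C_1, natDegree_add_C, natDegree_X_mul hf0]
      omega
    have hcop : IsCoprime (1 + X * f : (ZMod p)[X]) f := ⟨1, -X, by ring⟩
    have hq0 : (1 + X * f : (ZMod p)[X]) ≠ 0 := by
      intro h
      have h2 : (1 + X * f : (ZMod p)[X]).natDegree = f.natDegree + 1 := by
        rw [add_comm, ← C_1, natDegree_add_C, natDegree_X_mul hf0]
      rw [h, natDegree_zero] at h2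
      omega
    refine ha0 (hD (ZMod p)[X] A f (1 + X * f) hnu hcop hf0 ?_ (hsurj _ hq0) hGF a0)
    intro c x hcx
    by_cases hc : c = 0
    · exact Or.inl hc
    · right
      by_contra hx
      exact hker c hc x hx hcx

theorem simz (hG : GenStmt) (hD : DivStmt) : SimzStmt := by
  intro Q A _ _ _ hPC hfg hsim p hp hpA z hz
  have : Fact p.Prime := ⟨hp⟩
  have : Module (ZMod p) A := AddCommGroup.zmodModule hpA
  exact simz_aux hG hD Q A hPC hfg hsim p z hz

end Pool.Agent.TH263.HGSIMZ
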