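import Mathlib
import Pool.Agent.TH444.ML.Defs
import Pool.Agent.TH263.DQ.Disc

/-! Job 3086 (project ML, helper444): discriminants of quadratic extensions. -/

set_option autoImplicit false

namespace Pool.Agent.TH263.J3086

open Pool.Agent.TH444.ML Pool.Agent.TH263.DQ

theorem discQuad : DiscQuad := by
  intro M _ _
  refine ⟨kk, ⟨?_, ?_, ?_, ?_, ?_⟩⟩
  · intro 𝔠 α α' _ h
    exact kk_congr 𝔠 α α' h
  · intro 𝔠 α h
    exact kk_pos 𝔠 α h
  · intro 𝔠 α h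
    exact (kk_le 𝔠 α h).1
  · intro 𝔠 α u h
    exact kk_unit 𝔠 α u h
  · intro L _ _ _ s α 𝔡 𝔠 h2 hs hn hα hd h
    exact disc_formula s α 𝔡 𝔠 h2 hs hn hα hd h

end Pool.Agent.TH263.J3086
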