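import Mathlib
import Pool.Agent.TH598.GV.Defs2

/-!
# Laplace expansion of the double alternating sum `GG` in the slot of `e₀`
-/

set_option autoImplicit false

namespace Pool.Agent.TH263.J4005

open Finset MeasureTheory Pool.Agent.TH598.GV
open scoped ComplexConjugate ComplexOrder

/-- a permutation of the slots as a permutation of the indices -/
def hat {B : Type} (π : Equiv.Perm B) : Equiv.Perm (B × Bool) :=
  Equiv.prodCongrLeft (fun _ => π)

@[simp] lemma hat_apply {B : Type} (π : Equiv.Perm B) (b : B) (c : Bool) :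
    hat π (b, c) = (π b, c) := rfl

lemma sign_hat {B : Type} [Fintype B] [DecidableEq B] (π : Equiv.Perm B) :
    Equiv.Perm.sign (hat π) = 1 := by
  rw [hat, Equiv.Perm.sign_prodCongrLeft]
  simp

lemma cs_mul {P : Type} [Fintype P] [DecidableEq P] (σ τ : Equiv.Perm P) :
    cs (σ * τ) = cs σ * cs τ := by
  unfold cs
  rw [Equiv.Perm.sign_mul]
  push_cast
  rfl

lemma cs_sq {P : Type} [Fintype P] [DecidableEq P] (σ : Equiv.Perm P) : cs σ * cs σ = 1 := by
  unfold cs
  rw [← Int.cast_mul, Int.cast_eq_one, ← Units.val_mul, Int.units_mul_self, Units.val_one]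

lemma cs_hat {B : Type} [Fintype B] [DecidableEq B] (σ : Equiv.Perm (B × Bool))
    (π : Equiv.Perm B) : cs (σ * hat π) = cs σ := by
  unfold cs
  rw [Equiv.Perm.sign_mul, sign_hat, mul_one]

/-- mixed double alternating sum -/
noncomputable def GM {B : Type} [Fintype B] [DecidableEq B]
    (H : B → B × Bool → B × Bool → B × Bool → B × Bool → ℂ) : ℂ :=
  ∑ σ : Equiv.Perm (B × Bool), ∑ τ : Equiv.Perm (B × Bool), cs σ * cs τ *
    ∏ b : B, H b (σ (b, false)) (σ (b, true)) (τ (b, false)) (τ (b, true))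

lemma GM_comp {B : Type} [Fintype B] [DecidableEq B]
    (H : B → B × Bool → B × Bool → B × Bool → B × Bool → ℂ)
    (π : Equiv.Perm B) : GM (fun b => H (π b)) = GM H := by
  unfold GM
  rw [← Equiv.sum_comp (Equiv.mulRight (hat π))]
  refine Finset.sum_congr rfl fun σ _ => ?_
  rw [← Equiv.sum_comp (Equiv.mulRight (hat π))]
  refine Finset.sum_congr rfl fun τ _ => ?_
  rw [Equiv.coe_mulRight, cs_hat, cs_hat]
  congr 1
  exact Equiv.prod_comp π
    (fun b => H b (σ (b, false)) (σ (b, true)) (τ (b, false)) (τ (b, true)))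

/-- expansion of a product of sums with only one nonzero second term -/
lemma prod_add_unique {B : Type} [Fintype B] [DecidableEq B] (R G : B → ℂ) (b0 : B)
    (h : ∀ b, b ≠ b0 → G b = 0) :
    ∏ b, (R b + G b) = ∏ b, R b + ∑ b, G b * ∏ b' ∈ univ.erase b, R b' := by
  rw [Finset.sum_eq_single b0 (fun b _ hb => by rw [h b hb, zero_mul])
    (fun hb => absurd (Finset.mem_univ _) hb)]
  rw [← Finset.mul_prod_erase univ (fun b => R b + G b) (Finset.mem_univ b0),
    ← Finset.mul_prod_erase univ R (Finset.mem_univ b0), add_mul]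
  have : ∏ b ∈ univ.erase b0, (R b + G b) = ∏ b ∈ univ.erase b0, R b :=
    Finset.prod_congr rfl fun b hb => by rw [h b (Finset.ne_of_mem_erase hb), add_zero]
  rw [this]

lemma W_zero {k : ℕ} {i j p : Ix k} (hi : i ≠ e0) (hj : j ≠ e0) : W p i j = 0 := by
  simp [W, hi, hj]

lemma em_ne {k : ℕ} (j : K k) (c : Bool) : Pool.Agent.TH598.GV.em j ≠ ((0, c) : Ix k) := by
  intro h
  have := congrArg (fun x : Ix k => x.1) h
  exact Fin.succ_ne_zero _ this

lemma e1_ne {k : ℕ} : (e1 : Ix k) ≠ e0 := by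
  intro h
  have := congrArg (fun x : Ix k => x.2) h
  simp [e1, e0] at this

/-- the slot of `e0` -/
def sl {k : ℕ} (σ : Equiv.Perm (Ix k)) : Fin (k + 1) := (σ.symm e0).1

lemma sl_ne {k : ℕ} {σ : Equiv.Perm (Ix k)} {b : Fin (k + 1)} (h : b ≠ sl σ) (c : Bool) :
    σ (b, c) ≠ e0 := by
  intro hc
  apply h
  rw [sl, ← hc, Equiv.symm_apply_apply]

lemma W_sl {k : ℕ} {σ : Equiv.Perm (Ix k)} {b : Fin (k + 1)} (h : b ≠ sl σ) (p : Ix k) :
    W p (σ (b, false)) (σ (b, true)) = 0 := W_zero (sl_ne h _) (sl_ne h _)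

lemma U0_sl {k : ℕ} {σ : Equiv.Perm (Ix k)} {b : Fin (k + 1)} (h : b ≠ sl σ) (i' j' : Ix k) :
    U0 (σ (b, false)) (σ (b, true)) i' j' = 0 := by
  unfold U0
  refine Finset.sum_eq_zero fun p _ => ?_
  rw [W_sl h, zero_mul, ite_self]

/-- the product over the slots with one special slot -/
lemma prod_slot {B : Type} [Fintype B] [DecidableEq B] (x y : B → ℂ) (b : B) :
    ∏ b', (if b' = b then x b' else y b') = x b * ∏ b' ∈ univ.erase b, y b' := by
  rw [← Finset.mul_prod_erase univ _ (Finset.mem_univ b), if_pos rfl]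
  congr 1
  exact Finset.prod_congr rfl fun b' hb => by rw [if_neg (Finset.ne_of_mem_erase hb)]

/-- moving the slot `b` to `0` -/
lemma GM_slot {k : ℕ} (w β : Ix k → Ix k → Ix k → Ix k → ℂ) (b : Fin (k + 1)) :
    GM (B := Fin (k + 1)) (fun b' => if b' = b then w else β) =
      GM (B := Fin (k + 1)) (Fin.cons w (fun _ => β)) := by
  rw [← GM_comp (Fin.cons w (fun _ => β)) (Equiv.swap 0 b)]
  congr 1
  funext b'
  by_cases h : b' = b
  · rw [if_pos h, h, Equiv.swap_apply_right, Fin.cons_zero]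
  · rw [if_neg h]
    obtain ⟨i, hi⟩ : ∃ i : Fin k, Equiv.swap 0 b b' = i.succ := by
      refine Fin.exists_succ_eq.2 ?_ |>.imp fun i hi => hi.symm
      intro h0
      apply h
      rw [Equiv.swap_apply_eq_iff, Equiv.swap_apply_left] at h0
      exact h0
    rw [hi, Fin.cons_succ]

/-- the expansion in the slots -/
lemma expand {k : ℕ} (H : Ix k → Ix k → Ix k → Ix k → ℂ) (t : ℂ) :
    GG (fun i j i' j' => H i j i' j' + t * U0 i j i' j') = GG H + t * (k + 1) *
      GM (B := Fin (k + 1)) (Fin.cons U0 (fun _ => H)) := by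
  have h1 : GG (fun i j i' j' => H i j i' j' + t * U0 i j i' j') = GG H + t *
      ∑ b : Fin (k + 1),
        GM (B := Fin (k + 1)) (fun b' => if b' = b then U0 else H) := by
    have h3 : ∑ b : Fin (k + 1),
        GM (B := Fin (k + 1)) (fun b' => if b' = b then U0 else H) =
        ∑ σ : Equiv.Perm (Ix k), ∑ τ : Equiv.Perm (Ix k), ∑ b : Fin (k + 1), cs σ * cs τ *
          ∏ b' : Fin (k + 1), (if b' = b then U0 else H)
            (σ (b', false)) (σ (b', true)) (τ (b', false)) (τ (b', true)) := by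
      unfold GM
      rw [Finset.sum_comm]
      refine Finset.sum_congr rfl fun σ _ => ?_
      rw [Finset.sum_comm]
    rw [h3]
    unfold GG
    rw [Finset.mul_sum, ← Finset.sum_add_distrib]
    refine Finset.sum_congr rfl fun σ _ => ?_
    rw [Finset.mul_sum, ← Finset.sum_add_distrib]
    refine Finset.sum_congr rfl fun τ _ => ?_
    rw [prod_add_unique (fun b : Fin (k + 1) =>
        H (σ (b, false)) (σ (b, true)) (τ (b, false)) (τ (b, true)))
      (fun b : Fin (k + 1) =>
        t * U0 (σ (b, false)) (σ (b, true)) (τ (b, false)) (τ (b, true))) (sl σ)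
      (fun b hb => by rw [U0_sl hb, mul_zero]), mul_add, Finset.mul_sum, Finset.mul_sum]
    congr 1
    refine Finset.sum_congr rfl fun b _ => ?_
    have h4 : ∏ b' : Fin (k + 1), (if b' = b then U0 else H)
            (σ (b', false)) (σ (b', true)) (τ (b', false)) (τ (b', true)) =
        U0 (σ (b, false)) (σ (b, true)) (τ (b, false)) (τ (b, true)) *
          ∏ b' ∈ univ.erase b,
            H (σ (b', false)) (σ (b', true)) (τ (b', false)) (τ (b', true)) := by
      rw [← prod_slot (fun b => U0 (σ (b, false)) (σ (b, true)) (τ (b, false)) (τ (b, true)))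
        (fun b => H (σ (b, false)) (σ (b, true)) (τ (b, false)) (τ (b, true)))]
      refine Finset.prod_congr rfl fun b' _ => ?_
      split_ifs <;> rfl
    rw [h4]
    ring
  rw [h1, Finset.sum_congr rfl fun b _ => GM_slot U0 H b, Finset.sum_const,
    Finset.card_univ, Fintype.card_fin, nsmul_eq_mul]
  push_cast
  ring

/-- the indices as `Bool ⊕ K k` -/
def ie {k : ℕ} : Bool ⊕ K k ≃ Ix k where
  toFun := Sum.elim (fun c => (0, c)) em
  invFun x := Fin.cases (motive := fun _ => Bool ⊕ K k) (Sum.inl x.2)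
    (fun j => Sum.inr (j, x.2)) x.1
  left_inv := by rintro (c | j) <;> rfl
  right_inv := by
    rintro ⟨i, c⟩
    refine Fin.cases ?_ (fun j => ?_) i <;> rfl

/-- a permutation of the last indices as a permutation of the indices -/
def ex {k : ℕ} (σ : Equiv.Perm (K k)) : Equiv.Perm (Ix k) :=
  ie.permCongr (Equiv.Perm.sumCongr 1 σ)

lemma ex_zero {k : ℕ} (σ : Equiv.Perm (K k)) (c : Bool) : ex σ ((0, c) : Ix k) = (0, c) := rfl

lemma ex_em {k : ℕ} (σ : Equiv.Perm (K k)) (a : K k) : ex σ (em a) = em (σ a) := rfl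

lemma cs_ex {k : ℕ} (σ : Equiv.Perm (K k)) : cs (ex σ) = cs σ := by
  unfold cs ex
  rw [Equiv.Perm.sign_permCongr, Equiv.Perm.sign_sumCongr, map_one, one_mul]

lemma em_inj {k : ℕ} : Function.Injective (Pool.Agent.TH598.GV.em (k := k)) := by
  intro a b h
  have h1 := congrArg (fun x : Ix k => x.1) h
  have h2 := congrArg (fun x : Ix k => x.2) h
  exact Prod.ext (Fin.succ_injective _ h1) h2

lemma ex_inj {k : ℕ} : Function.Injective (ex (k := k)) := by
  intro σ τ h
  refine Equiv.ext fun a => em_inj ?_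
  rw [← ex_em, ← ex_em, h]

lemma em_or {k : ℕ} (i : Ix k) : (∃ c, i = (0, c)) ∨ ∃ a, i = Pool.Agent.TH598.GV.em a := by
  obtain ⟨i, c⟩ := i
  refine Fin.cases ?_ (fun j => ?_) i
  · exact Or.inl ⟨c, rfl⟩
  · exact Or.inr ⟨(j, c), rfl⟩

lemma ex_surj {k : ℕ} (σ : Equiv.Perm (Ix k)) (h : ∀ c, σ ((0, c) : Ix k) = (0, c)) :
    ∃ τ, ex τ = σ := by
  have h1 : ∀ a : K k, ∃ b : K k, σ (em a) = em b := by
    intro a
    rcases em_or (σ (em a)) with ⟨c, hc⟩ | hb
    · rw [← h c] at hc
      exact absurd (σ.injective hc) (em_ne a c)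
    · exact hb
  choose f hf using h1
  have hinj : Function.Injective f := by
    intro a b hab
    apply em_inj
    apply σ.injective
    rw [hf, hf, hab]
  refine ⟨Equiv.ofBijective f (Finite.injective_iff_bijective.1 hinj), ?_⟩
  refine Equiv.ext fun i => ?_
  rcases em_or i with ⟨c, rfl⟩ | ⟨a, rfl⟩
  · rw [ex_zero, h]
  · rw [ex_em, hf, Equiv.ofBijective_apply]

/-- sums over the permutations fixing `e0` and `e1` -/
lemma sum_fix {k : ℕ} (f : Equiv.Perm (Ix k) → ℂ)
    (hf : ∀ σ, ¬ (σ (0, false) = e0 ∧ σ (0, true) = e1) → f σ = 0) :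
    ∑ σ, f σ = ∑ σ : Equiv.Perm (K k), f (ex σ) := by
  symm
  refine Finset.sum_of_injOn ex (fun a _ b _ h => ex_inj h) (fun _ _ => Finset.mem_univ _)
    (fun σ _ hσ => hf σ fun h => hσ ?_) (fun _ _ => rfl)
  obtain ⟨τ, hτ⟩ := ex_surj σ (fun c => by cases c; exacts [h.1, h.2])
  exact ⟨τ, Finset.mem_coe.2 (Finset.mem_univ _), hτ⟩

/-- the sum for `p = e1` -/
lemma half1 {k : ℕ} (F : (K k → Ix k) → ℂ) :
    ∑ σ : Equiv.Perm (Ix k), cs σ * W e1 (σ (0, false)) (σ (0, true)) * F (fun a => σ (em a)) =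
      2 * ∑ σ : Equiv.Perm (K k), cs σ * F (fun a => em (σ a)) := by
  have hA : ∑ σ : Equiv.Perm (Ix k), cs σ * ((if σ (0, false) = e0 then 1 else 0) *
      (if σ (0, true) = e1 then 1 else 0)) * F (fun a => σ (em a)) =
      ∑ σ : Equiv.Perm (K k), cs σ * F (fun a => em (σ a)) := by
    rw [sum_fix]
    · refine Finset.sum_congr rfl fun σ _ => ?_
      have e0' : ex σ ((0, false) : Ix k) = e0 := rfl
      have e1' : ex σ ((0, true) : Ix k) = e1 := rfl
      rw [cs_ex, e0', e1', if_pos rfl, if_pos rfl, mul_one, mul_one]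
      rfl
    · intro σ hσ
      by_cases h0 : σ (0, false) = e0
      · have h1 : σ (0, true) ≠ e1 := fun h1 => hσ ⟨h0, h1⟩
        rw [if_neg h1, mul_zero, mul_zero, zero_mul]
      · rw [if_neg h0, zero_mul, mul_zero, zero_mul]
  have hB : ∑ σ : Equiv.Perm (Ix k), cs σ * ((if σ (0, false) = e1 then 1 else 0) *
      (if σ (0, true) = e0 then 1 else 0)) * F (fun a => σ (em a)) =
      - ∑ σ : Equiv.Perm (K k), cs σ * F (fun a => em (σ a)) := by
    rw [← hA, ← Equiv.sum_comp (Equiv.mulRight (Equiv.swap (e0 : Ix k) e1)),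
      ← Finset.sum_neg_distrib]
    refine Finset.sum_congr rfl fun σ _ => ?_
    have hcs : cs (Equiv.swap (e0 : Ix k) e1) = -1 := by
      unfold cs
      rw [Equiv.Perm.sign_swap e1_ne.symm]
      simp
    have h0 : (σ * Equiv.swap (e0 : Ix k) e1) (0, false) = σ (0, true) := by
      exact congrArg σ (Equiv.swap_apply_left (e0 : Ix k) e1)
    have h1 : (σ * Equiv.swap (e0 : Ix k) e1) (0, true) = σ (0, false) := by
      exact congrArg σ (Equiv.swap_apply_right (e0 : Ix k) e1)
    have h2 : (fun a : K k => (σ * Equiv.swap (e0 : Ix k) e1) (em a)) =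
        fun a => σ (em a) := by
      funext a
      exact congrArg σ (Equiv.swap_apply_of_ne_of_ne (a := (e0 : Ix k)) (b := e1)
        (em_ne a false) (em_ne a true))
    rw [Equiv.coe_mulRight, h0, h1, h2, cs_mul, hcs]
    ring
  have hC : ∀ σ : Equiv.Perm (Ix k),
      cs σ * W e1 (σ (0, false)) (σ (0, true)) * F (fun a => σ (em a)) =
      cs σ * ((if σ (0, false) = e0 then 1 else 0) *
        (if σ (0, true) = e1 then 1 else 0)) * F (fun a => σ (em a)) -
      cs σ * ((if σ (0, false) = e1 then 1 else 0) *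
        (if σ (0, true) = e0 then 1 else 0)) * F (fun a => σ (em a)) := by
    intro σ
    unfold W
    ring
  rw [Finset.sum_congr rfl fun σ _ => hC σ, Finset.sum_sub_distrib, hA, hB]
  ring

lemma W_swap {k : ℕ} {p : Ix k} (hp : p ≠ e0) (i j : Ix k) :
    W p (Equiv.swap p e1 i) (Equiv.swap p e1 j) = W e1 i j := by
  have h0 : ∀ i : Ix k, (Equiv.swap p e1 i = e0) = (i = e0) := by
    intro i
    rw [Equiv.swap_apply_eq_iff, Equiv.swap_apply_of_ne_of_ne hp.symm e1_ne.symm]
  have h1 : ∀ i : Ix k, (Equiv.swap p e1 i = p) = (i = e1) := by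
    intro i
    rw [Equiv.swap_apply_eq_iff, Equiv.swap_apply_left]
  unfold W
  simp only [h0, h1]

/-- the sum for `p ≠ e0` -/
lemma half {k : ℕ} {p : Ix k} (hp : p ≠ e0) (F : (K k → Ix k) → ℂ) :
    ∑ σ : Equiv.Perm (Ix k), cs σ * W p (σ (0, false)) (σ (0, true)) * F (fun a => σ (em a)) =
      2 * cs (Equiv.swap p e1) * ∑ σ : Equiv.Perm (K k), cs σ * F (fun a => cp p (σ a)) := by
  have h := half1 (fun g : K k → Ix k => F (fun a => Equiv.swap p e1 (g a)))
  rw [← Equiv.sum_comp (Equiv.mulLeft (Equiv.swap p e1))]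
  simp only [Equiv.coe_mulLeft, Equiv.Perm.mul_apply, W_swap hp, cs_mul]
  have h2 : ∑ σ : Equiv.Perm (Ix k), cs (Equiv.swap p e1) * cs σ *
      W e1 (σ (0, false)) (σ (0, true)) * F (fun a => Equiv.swap p e1 (σ (em a))) =
      cs (Equiv.swap p e1) * ∑ σ : Equiv.Perm (Ix k), cs σ *
      W e1 (σ (0, false)) (σ (0, true)) * F (fun a => Equiv.swap p e1 (σ (em a))) := by
    rw [Finset.mul_sum]
    exact Finset.sum_congr rfl fun σ _ => by ring
  rw [h2, h]
  unfold cp
  ring

/-- the value in slot `0` -/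
lemma slot0 {k : ℕ} (H : Ix k → Ix k → Ix k → Ix k → ℂ) {p : Ix k} (hp : p ≠ e0) :
    ∑ σ : Equiv.Perm (Ix k), ∑ τ : Equiv.Perm (Ix k), cs σ * cs τ *
      (W p (σ (0, false)) (σ (0, true)) * W p (τ (0, false)) (τ (0, true)) *
        ∏ i : Fin k, H (σ (em (i, false))) (σ (em (i, true)))
          (τ (em (i, false))) (τ (em (i, true)))) =
      4 * GG (fun a b a' b' : K k => H (cp p a) (cp p b) (cp p a') (cp p b')) := by
  have h1 : ∀ g : K k → Ix k, ∑ τ : Equiv.Perm (Ix k), cs τ *
      W p (τ (0, false)) (τ (0, true)) * ∏ i : Fin k, H (g (i, false)) (g (i, true))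
          (τ (em (i, false))) (τ (em (i, true))) =
      2 * cs (Equiv.swap p e1) * ∑ τ : Equiv.Perm (K k), cs τ *
        ∏ i : Fin k, H (g (i, false)) (g (i, true)) (cp p (τ (i, false))) (cp p (τ (i, true))) :=
    fun g => half hp (fun g' => ∏ i : Fin k, H (g (i, false)) (g (i, true))
          (g' (i, false)) (g' (i, true)))
  have h2 := half hp (fun g : K k → Ix k => 2 * cs (Equiv.swap p e1) *
    ∑ τ : Equiv.Perm (K k), cs τ *
      ∏ i : Fin k, H (g (i, false)) (g (i, true)) (cp p (τ (i, false))) (cp p (τ (i, true))))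
  calc _ = ∑ σ : Equiv.Perm (Ix k), cs σ * W p (σ (0, false)) (σ (0, true)) *
        ∑ τ : Equiv.Perm (Ix k), cs τ *
      W p (τ (0, false)) (τ (0, true)) * ∏ i : Fin k, H (σ (em (i, false))) (σ (em (i, true)))
          (τ (em (i, false))) (τ (em (i, true))) := by
        refine Finset.sum_congr rfl fun σ _ => ?_
        rw [Finset.mul_sum]
        exact Finset.sum_congr rfl fun τ _ => by ring
    _ = ∑ σ : Equiv.Perm (Ix k), cs σ * W p (σ (0, false)) (σ (0, true)) *
        (2 * cs (Equiv.swap p e1) * ∑ τ : Equiv.Perm (K k), cs τ *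
          ∏ i : Fin k, H (σ (em (i, false))) (σ (em (i, true)))
            (cp p (τ (i, false))) (cp p (τ (i, true)))) := by
        refine Finset.sum_congr rfl fun σ _ => ?_
        rw [h1 (fun a => σ (em a))]
    _ = _ := by
        rw [h2]
        unfold GG
        simp only [Finset.mul_sum]
        refine Finset.sum_congr rfl fun σ _ => Finset.sum_congr rfl fun τ _ => ?_
        linear_combination (4 * cs σ * cs τ * ∏ i : Fin k, H (cp p (σ (i, false)))
          (cp p (σ (i, true))) (cp p (τ (i, false))) (cp p (τ (i, true)))) *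
            cs_sq (Equiv.swap p (e1 : Ix k))

/-- expansion in the slot of `e₀` -/
theorem laplace {k : ℕ} (H : Ix k → Ix k → Ix k → Ix k → ℂ) (hH : HS H) (t : ℂ) :
    GG (fun i j i' j' => H i j i' j' + t * U0 i j i' j') = GG H + t * (4 * (k + 1)) *
      ∑ p : Ix k, (if p = e0 then 0 else
        GG (fun a b a' b' : K k => H (cp p a) (cp p b) (cp p a') (cp p b'))) := by
  rw [expand]
  have h : GM (B := Fin (k + 1)) (Fin.cons U0 (fun _ => H)) =
      ∑ p : Ix k, (if p = e0 then 0 else
        4 * GG (fun a b a' b' : K k => H (cp p a) (cp p b) (cp p a') (cp p b'))) := by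
    have h1 : ∀ p : Ix k, (if p = e0 then 0 else
        4 * GG (fun a b a' b' : K k => H (cp p a) (cp p b) (cp p a') (cp p b'))) =
        ∑ σ : Equiv.Perm (Ix k), ∑ τ : Equiv.Perm (Ix k), cs σ * cs τ *
      ((if p = e0 then 0 else
        W p (σ (0, false)) (σ (0, true)) * W p (τ (0, false)) (τ (0, true))) *
        ∏ i : Fin k, H (σ (em (i, false))) (σ (em (i, true)))
          (τ (em (i, false))) (τ (em (i, true)))) := by
      intro p
      by_cases hp : p = e0
      · simp [hp]
      · simp only [if_neg hp]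
        rw [slot0 H hp]
    rw [Finset.sum_congr rfl fun p _ => h1 p, Finset.sum_comm]
    unfold GM
    refine Finset.sum_congr rfl fun σ _ => ?_
    rw [Finset.sum_comm]
    refine Finset.sum_congr rfl fun τ _ => ?_
    rw [Fin.prod_univ_succ]
    simp only [Fin.cons_zero, Fin.cons_succ]
    unfold U0
    rw [Finset.sum_mul, Finset.mul_sum]
    rfl
  rw [h]
  have h5 : ∑ p : Ix k, (if p = e0 then 0 else
        4 * GG (fun a b a' b' : K k => H (cp p a) (cp p b) (cp p a') (cp p b'))) =
      4 * ∑ p : Ix k, (if p = e0 then 0 else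
        GG (fun a b a' b' : K k => H (cp p a) (cp p b) (cp p a') (cp p b'))) := by
    rw [Finset.mul_sum]
    refine Finset.sum_congr rfl fun p _ => ?_
    split_ifs
    · rw [mul_zero]
    · rfl
  rw [h5]
  ring

end Pool.Agent.TH263.J4005
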