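import Pool.Agent.TH948.KK.Defs

set_option autoImplicit false
set_option linter.unusedSectionVars false

/-! Jobs KK-2 and KK-3 (helper263 for helper948): the weighted fragmentation lemma and an
independence identity for random subsets. -/

namespace Pool.Agent.TH948.KK

open Finset
open Pool.Agent.TH965.Spread

lemma exs_congr {X : Type*} [DecidableEq X] (s : Finset X) (p : ℝ) {f g : Finset X → ℝ}
    (h : ∀ W, W ⊆ s → f W = g W) : exs s p f = exs s p g := by
  unfold exs
  refine Finset.sum_congr rfl fun W hW => ?_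
  rw [h W (Finset.mem_powerset.mp hW)]

lemma exs_indep {X : Type*} [DecidableEq X] (w p : ℝ) (T s : Finset X) (hT : T ⊆ s)
    (g : Finset X → ℝ) (hg : ∀ W, g W = g (W \ T)) :
    exs s w (fun W => p ^ (T \ W).card * g W) = (w + (1 - w) * p) ^ T.card * exs s w g := by
  induction T using Finset.induction_on generalizing s with
  | empty =>
    simp only [Finset.empty_sdiff, Finset.card_empty, pow_zero, one_mul]
  | insert x T hx ih =>
    have hxs : x ∈ s := hT (Finset.mem_insert_self x T)
    have hTs : T ⊆ s.erase x := fun y hy => Finset.mem_erase.mpr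
      ⟨fun h => hx (h ▸ hy), hT (Finset.mem_insert_of_mem hy)⟩
    have hgT : ∀ W, g W = g (W \ T) := by
      intro W
      rw [hg W, hg (W \ T)]
      congr 1
      ext y
      simp only [Finset.mem_sdiff, Finset.mem_insert]
      tauto
    have hgx : ∀ W, g (insert x W) = g W := by
      intro W
      rw [hg (insert x W), hg W]
      congr 1
      ext y
      simp only [Finset.mem_sdiff, Finset.mem_insert]
      tauto
    have ih' := ih (s.erase x) hTs hgT
    have hs : s = insert x (s.erase x) := (Finset.insert_erase hxs).symm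
    have hxe : x ∉ s.erase x := Finset.notMem_erase x s
    have h1 : exs s w (fun W => p ^ (insert x T \ W).card * g W) =
        (1 - w) * exs (s.erase x) w (fun W => p ^ (insert x T \ W).card * g W) +
        w * exs (s.erase x) w (fun W => p ^ (insert x T \ insert x W).card * g (insert x W)) := by
      conv_lhs => rw [hs]
      exact exs_insert (s.erase x) x hxe w _
    have h2 : exs s w g = (1 - w) * exs (s.erase x) w g +
        w * exs (s.erase x) w (fun W => g (insert x W)) := by
      conv_lhs => rw [hs]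
      exact exs_insert (s.erase x) x hxe w _
    have h3 : exs (s.erase x) w (fun W => p ^ (insert x T \ W).card * g W) =
        p * exs (s.erase x) w (fun W => p ^ (T \ W).card * g W) := by
      rw [← exs_mul_left]
      refine exs_congr _ _ fun W hW => ?_
      have hxW : x ∉ W := fun h => hxe (hW h)
      have hxT : x ∉ T \ W := fun h => hx (Finset.mem_sdiff.mp h).1
      rw [Finset.insert_sdiff_of_notMem _ hxW, Finset.card_insert_of_notMem hxT, pow_succ]
      ring
    have h4 : exs (s.erase x) w (fun W => p ^ (insert x T \ insert x W).card *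
        g (insert x W)) = exs (s.erase x) w (fun W => p ^ (T \ W).card * g W) := by
      refine exs_congr _ _ fun W hW => ?_
      have e : insert x T \ insert x W = T \ W := by
        ext y
        simp only [Finset.mem_sdiff, Finset.mem_insert]
        constructor
        · rintro ⟨h1, h2⟩
          push Not at h2
          exact ⟨h1.resolve_left h2.1, h2.2⟩
        · rintro ⟨h1, h2⟩
          refine ⟨Or.inr h1, ?_⟩
          push Not
          exact ⟨fun h => hx (h ▸ h1), h2⟩
      rw [e, hgx]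
    have h5 : exs (s.erase x) w (fun W => g (insert x W)) = exs (s.erase x) w g :=
      exs_congr _ _ fun W _ => hgx W
    rw [h1, h3, h4, ih', h2, h5, Finset.card_insert_of_notMem hx, pow_succ]
    ring

lemma frag {ι X : Type*} [DecidableEq X] (s : Finset X) (G : Finset ι) (ν : ι → ℝ)
    (B : ι → Finset X) (fr : Finset X → ι → ι)
    (hfr : ∀ W : Finset X, ∀ i ∈ G, fr W i ∈ G ∧ B (fr W i) ⊆ W ∪ B i ∧
      ∀ j ∈ G, B j ⊆ W ∪ B i → (B (fr W i) \ W).card ≤ (B j \ W).card)
    (hB : ∀ i ∈ G, B i ⊆ s) (r t₀ : ℕ) (hr : ∀ i ∈ G, (B i).card ≤ r) (ht₀ : 1 ≤ t₀)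
    (A K p : ℝ) (hA : 0 ≤ A) (hK : 1 ≤ K) (hp : 0 < p) (hKp : K * p ≤ 1) (hν : ∀ i, 0 ≤ ν i)
    (hsp : ∀ S : Finset X, S.Nonempty → ∑ i ∈ G with S ⊆ B i, ν i ≤ A * p ^ S.card) :
    exs s (K * p) (fun W => ∑ i ∈ G with t₀ ≤ (B (fr W i) \ W).card, ν i)
      ≤ A * 2 ^ r * (1 / K) ^ t₀ := by
  classical
  have hK0 : 0 < K := by linarith
  set P : ℝ := K * p with hPdef
  have hP0 : 0 < P := by positivity
  -- a canonical member inside `Z`
  have hJ : ∀ Z : Finset X, ∃ C : Finset X, C.card ≤ r ∧
      ((∃ i ∈ G, B i ⊆ Z) → ∃ j ∈ G, B j = C ∧ B j ⊆ Z) := by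
    intro Z
    by_cases h : ∃ i ∈ G, B i ⊆ Z
    · obtain ⟨i, hi, hiZ⟩ := h
      exact ⟨B i, hr i hi, fun _ => ⟨i, hi, rfl, hiZ⟩⟩
    · exact ⟨∅, by simp, fun h' => absurd h' h⟩
  choose C hCr hC using hJ
  have hp1' : 0 ≤ 1 - P := by linarith
  -- the target index set
  set w : Finset X → ℝ := fun W => P ^ W.card * (1 - P) ^ (s.card - W.card) with hw
  have hw0 : ∀ W, 0 ≤ w W := fun W => by positivity
  -- left side as a sum over pairs
  have hL : exs s P (fun W => ∑ i ∈ G with t₀ ≤ (B (fr W i) \ W).card, ν i)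
      = ∑ x ∈ (s.powerset ×ˢ G).filter (fun x => t₀ ≤ (B (fr x.1 x.2) \ x.1).card),
          w x.1 * ν x.2 := by
    rw [Finset.sum_filter, Finset.sum_product]
    unfold exs
    apply Finset.sum_congr rfl
    intro W _
    simp only
    rw [Finset.sum_filter, Finset.mul_sum]
    refine Finset.sum_congr rfl fun i _ => ?_
    split_ifs <;> simp [hw]
  -- the map
  set R : Finset (Σ _ : Finset X, Σ _ : Finset X, ι) :=
    s.powerset.sigma (fun Z => ((C Z).powerset.filter (fun T => t₀ ≤ T.card ∧ T ⊆ Z)).sigma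
      (fun T => G.filter (fun i => T ⊆ B i))) with hR
  set g : Finset X × ι → (Σ _ : Finset X, Σ _ : Finset X, ι) :=
    fun x => ⟨x.1 ∪ (B (fr x.1 x.2) \ x.1), ⟨B (fr x.1 x.2) \ x.1, x.2⟩⟩ with hg
  have hgh : ∀ x : Finset X × ι, (g x).1 \ (g x).2.1 = x.1 := by
    intro x
    simp only [hg]
    ext y
    simp only [Finset.mem_sdiff, Finset.mem_union]
    tauto
  have hmap : ∀ x ∈ (s.powerset ×ˢ G).filter (fun x => t₀ ≤ (B (fr x.1 x.2) \ x.1).card),
      g x ∈ R := by
    rintro ⟨W, i⟩ hx
    rw [Finset.mem_filter, Finset.mem_product] at hx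
    obtain ⟨⟨hW, hi⟩, ht⟩ := hx
    simp only at hW hi ht
    rw [Finset.mem_powerset] at hW
    obtain ⟨h1, h2, h3⟩ := hfr W i hi
    have hTB : B (fr W i) \ W ⊆ B i := by
      intro y hy
      rw [Finset.mem_sdiff] at hy
      have := h2 hy.1
      rw [Finset.mem_union] at this
      exact this.resolve_left hy.2
    have hfrs : B (fr W i) ⊆ s := hB _ h1
    simp only [hR, hg, Finset.mem_sigma, Finset.mem_filter, Finset.mem_powerset]
    have hZ : ∃ j ∈ G, B j ⊆ W ∪ (B (fr W i) \ W) := ⟨fr W i, h1, by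
      intro y hy
      by_cases hyW : y ∈ W
      · exact Finset.mem_union_left _ hyW
      · exact Finset.mem_union_right _ (Finset.mem_sdiff.mpr ⟨hy, hyW⟩)⟩
    obtain ⟨j, hj, hjC, hjZ⟩ := hC (W ∪ (B (fr W i) \ W)) hZ
    have hjW : B j ⊆ W ∪ B i := hjZ.trans (Finset.union_subset_union_right hTB)
    have hmin := h3 j hj hjW
    have hsub : B j \ W ⊆ B (fr W i) \ W := by
      intro y hy
      rw [Finset.mem_sdiff] at hy
      have := hjZ hy.1
      rw [Finset.mem_union] at this
      exact this.resolve_left hy.2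
    have heq : B j \ W = B (fr W i) \ W := Finset.eq_of_subset_of_card_le hsub hmin
    refine ⟨Finset.union_subset hW (Finset.sdiff_subset.trans hfrs), ⟨?_, ht,
      Finset.subset_union_right⟩, hi, hTB⟩
    rw [← hjC, ← heq]
    exact Finset.sdiff_subset
  have hinj : Set.InjOn g ((s.powerset ×ˢ G).filter
      (fun x => t₀ ≤ (B (fr x.1 x.2) \ x.1).card) : Finset (Finset X × ι)) := by
    rintro ⟨W, i⟩ _ ⟨W', i'⟩ _ h
    have h1 : W = W' := by
      have := hgh (W, i)
      rw [h, hgh (W', i')] at this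
      exact this.symm
    have h2 : i = i' := by
      have := congrArg (fun z => z.2.2) h
      exact this
    rw [h1, h2]
  have hS1 : ∑ x ∈ (s.powerset ×ˢ G).filter (fun x => t₀ ≤ (B (fr x.1 x.2) \ x.1).card),
      w x.1 * ν x.2 ≤ ∑ y ∈ R, w (y.1 \ y.2.1) * ν y.2.2 := by
    have : ∑ x ∈ (s.powerset ×ˢ G).filter (fun x => t₀ ≤ (B (fr x.1 x.2) \ x.1).card),
        w x.1 * ν x.2
        = ∑ y ∈ ((s.powerset ×ˢ G).filter
            (fun x => t₀ ≤ (B (fr x.1 x.2) \ x.1).card)).image g, w (y.1 \ y.2.1) * ν y.2.2 := by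
      rw [Finset.sum_image hinj]
      apply Finset.sum_congr rfl
      intro x _
      rw [hgh x]
    rw [this]
    apply Finset.sum_le_sum_of_subset_of_nonneg
    · intro y hy
      rw [Finset.mem_image] at hy
      obtain ⟨x, hx, rfl⟩ := hy
      exact hmap x hx
    · intro y _ _
      exact mul_nonneg (hw0 _) (hν _)
  have hS2 : ∑ y ∈ R, w (y.1 \ y.2.1) * ν y.2.2
      ≤ ∑ Z ∈ s.powerset, w Z * (A * 2 ^ r * (1 / K) ^ t₀) := by
    rw [hR, Finset.sum_sigma]
    apply Finset.sum_le_sum
    intro Z hZ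
    rw [Finset.mem_powerset] at hZ
    rw [Finset.sum_sigma]
    have hterm : ∀ T ∈ (C Z).powerset.filter (fun T => t₀ ≤ T.card ∧ T ⊆ Z),
        ∑ i ∈ G.filter (fun i => T ⊆ B i), w (Z \ T) * ν i ≤ w Z * (A * (1 / K) ^ t₀) := by
      intro T hT
      rw [Finset.mem_filter] at hT
      obtain ⟨-, hT1, hT2⟩ := hT
      have hTne : T.Nonempty := Finset.card_pos.mp (by omega)
      rw [← Finset.mul_sum]
      have hcard : (Z \ T).card = Z.card - T.card := Finset.card_sdiff_of_subset hT2
      have hTZ : T.card ≤ Z.card := Finset.card_le_card hT2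
      have hZs : Z.card ≤ s.card := Finset.card_le_card hZ
      have hw1 : w (Z \ T) * P ^ T.card ≤ w Z := by
        simp only [hw]
        rw [hcard]
        have e1 : P ^ Z.card = P ^ (Z.card - T.card) * P ^ T.card := by
          rw [← pow_add]; congr 1; omega
        have e2 : s.card - (Z.card - T.card) = (s.card - Z.card) + T.card := by omega
        rw [e1, e2, pow_add]
        have h3 : (1 - P) ^ T.card ≤ 1 := pow_le_one₀ hp1' (by linarith)
        have h4 : 0 ≤ P ^ (Z.card - T.card) * P ^ T.card * (1 - P) ^ (s.card - Z.card) := by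
          positivity
        nlinarith [mul_le_mul_of_nonneg_left h3 h4]
      have hq1 : p ^ T.card ≤ P ^ T.card * (1 / K) ^ t₀ := by
        calc p ^ T.card = (P * (1 / K)) ^ T.card := by
              rw [hPdef]; congr 1; field_simp
          _ = P ^ T.card * (1 / K) ^ T.card := mul_pow _ _ _
          _ ≤ P ^ T.card * (1 / K) ^ t₀ := by
              apply mul_le_mul_of_nonneg_left _ (by positivity)
              refine pow_le_pow_of_le_one (by positivity) ?_ hT1
              rw [div_le_one hK0]; exact hK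
      calc w (Z \ T) * ∑ i ∈ G with T ⊆ B i, ν i
          ≤ w (Z \ T) * (A * p ^ T.card) := mul_le_mul_of_nonneg_left (hsp T hTne) (hw0 _)
        _ ≤ w (Z \ T) * (A * (P ^ T.card * (1 / K) ^ t₀)) := by
            apply mul_le_mul_of_nonneg_left _ (hw0 _)
            exact mul_le_mul_of_nonneg_left hq1 hA
        _ = (w (Z \ T) * P ^ T.card) * (A * (1 / K) ^ t₀) := by ring
        _ ≤ w Z * (A * (1 / K) ^ t₀) := by
            apply mul_le_mul_of_nonneg_right hw1; positivity
    calc ∑ T ∈ (C Z).powerset.filter (fun T => t₀ ≤ T.card ∧ T ⊆ Z),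
          ∑ i ∈ G.filter (fun i => T ⊆ B i), w (Z \ T) * ν i
        ≤ ∑ T ∈ (C Z).powerset.filter (fun T => t₀ ≤ T.card ∧ T ⊆ Z),
            w Z * (A * (1 / K) ^ t₀) := Finset.sum_le_sum hterm
      _ = (((C Z).powerset.filter (fun T => t₀ ≤ T.card ∧ T ⊆ Z)).card : ℝ)
            * (w Z * (A * (1 / K) ^ t₀)) := by rw [Finset.sum_const, nsmul_eq_mul]
      _ ≤ 2 ^ r * (w Z * (A * (1 / K) ^ t₀)) := by
          apply mul_le_mul_of_nonneg_right
          · have h1 : ((C Z).powerset.filter (fun T => t₀ ≤ T.card ∧ T ⊆ Z)).card ≤ 2 ^ r := by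
              calc _ ≤ (C Z).powerset.card := Finset.card_filter_le _ _
                _ = 2 ^ (C Z).card := Finset.card_powerset _
                _ ≤ 2 ^ r := Nat.pow_le_pow_right (by norm_num) (hCr Z)
            exact_mod_cast h1
          · have := hw0 Z
            positivity
      _ = w Z * (A * 2 ^ r * (1 / K) ^ t₀) := by ring
  have hS3 : ∑ Z ∈ s.powerset, w Z * (A * 2 ^ r * (1 / K) ^ t₀)
      = A * 2 ^ r * (1 / K) ^ t₀ := exs_const s P _
  rw [hL]
  exact (hS1.trans hS2).trans hS3.le

end Pool.Agent.TH948.KK
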