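import Pool.Agent.TH806.LK.Defs

/-! Mean values of zeta times products of block polynomials (project LK, helper806). -/

set_option autoImplicit false

namespace Pool.Agent.TH263.LK_AV1

open Finset Filter Topology MeasureTheory MonoidAlgebra
open Pool.Agent.W184.NZ
open Pool.Agent.TH806 Pool.Agent.TH806.LK
open Pool.Agent.H306R2.SM (om cl Yf)
open Pool.Agent.H262R4.TM (Rng Ck)

noncomputable section

/-- expansion data -/
def Expn (N L : ℝ) (P : Finset ℕ) (F : ℝ → ℂ) (A : ℂ) : Prop :=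
  ∃ (ι : Type) (s : Finset ι) (a : ι → ℂ) (M : ι → DA),
    (∀ x ∈ s, M x ∈ SA (MI P) ∧ Bd N (M x)) ∧
    (∀ t, F t = ∑ x ∈ s, a x * ev t (M x)) ∧
    A = ∑ x ∈ s, a x * ((lam wF (M x) : ℝ) : ℂ) ∧
    ∑ x ∈ s, ‖a x‖ * l1 (M x) ≤ L

theorem lam_wF_one : lam wF 1 = 1 := by
  rw [MonoidAlgebra.one_def, lam_single]
  unfold wF
  simp

theorem Expn.one : Expn 1 1 ∅ (fun _ => 1) 1 := by
  refine ⟨Unit, {()}, fun _ => 1, fun _ => 1, ?_, ?_, ?_, ?_⟩
  · intro x _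
    exact ⟨Subalgebra.one_mem _, Bd.one⟩
  · intro t
    rw [sum_singleton, map_one, one_mul]
  · rw [sum_singleton, lam_wF_one]
    push_cast; ring
  · rw [sum_singleton, l1_one, norm_one, one_mul]

theorem int_pair {ν : Measure (ℂ × ℂ)} [IsFiniteMeasure ν] {B : ℝ}
    (hB : ∀ᵐ q ∂ν, ‖q.1‖ ≤ B ∧ ‖q.2‖ ≤ B) {f : ℂ × ℂ → ℂ} (hf : Continuous f) :
    Integrable f ν := by
  obtain ⟨C, hC⟩ := ((isCompact_closedBall (0:ℂ) B).prod
    (isCompact_closedBall (0:ℂ) B)).exists_bound_of_continuousOn hf.continuousOn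
  refine Integrable.of_bound hf.aestronglyMeasurable C ?_
  filter_upwards [hB] with q hq
  refine hC q ⟨?_, ?_⟩
  · rw [mem_closedBall_zero_iff]; exact hq.1
  · rw [mem_closedBall_zero_iff]; exact hq.2

theorem Fc_eq (K : ℕ) (c : ℕ → ℕ → ℂ) (z : ℂ) : Fc K c z =
    ∑ q ∈ range (K + 1) ×ˢ range (K + 1), c q.1 q.2 * (z ^ q.1 * (starRingEnd ℂ z) ^ q.2) := by
  unfold Fc
  rw [sum_product]

theorem int_Fc {κ₁ κ₂ Q C : ℝ} {I : Finset ℕ} {ν : Measure (ℂ × ℂ)} {w : ℕ × ℕ → ℝ}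
    (hν : LW w κ₁ κ₂ Q C I ν) (K : ℕ) (c : ℕ → ℕ → ℂ) :
    ∫ q, q.2 * Fc K c q.1 ∂ν = ∑ q ∈ range (K + 1) ×ˢ range (K + 1),
      c q.1 q.2 * ((lam w (xI I ^ q.1 * yI I ^ q.2) : ℝ) : ℂ) := by
  have := hν.prob
  obtain ⟨B, hB⟩ := hν.bdd
  have e1 : ∀ q : ℂ × ℂ, q.2 * Fc K c q.1 = ∑ x ∈ range (K + 1) ×ˢ range (K + 1),
      c x.1 x.2 * (q.2 * (q.1 ^ x.1 * (starRingEnd ℂ q.1) ^ x.2)) := by
    intro q
    rw [Fc_eq, mul_sum]
    refine sum_congr rfl fun x _ => ?_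
    ring
  have hi : ∀ x ∈ range (K + 1) ×ˢ range (K + 1), Integrable (fun q : ℂ × ℂ =>
      c x.1 x.2 * (q.2 * (q.1 ^ x.1 * (starRingEnd ℂ q.1) ^ x.2))) ν := by
    intro x _
    refine int_pair hB ?_
    have := Complex.continuous_conj
    fun_prop
  rw [integral_congr_ae (Eventually.of_forall e1), integral_finsetSum _ hi]
  refine sum_congr rfl fun x _ => ?_
  rw [integral_const_mul, hν.mom]

theorem sq_le_four_pow {K : ℕ} (hK : 1 ≤ K) : ((K : ℝ) + 1) ^ 2 ≤ 4 ^ K := by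
  have h1 : K + 1 ≤ 2 ^ K := by
    induction K, hK using Nat.le_induction with
    | base => norm_num
    | succ n hn ih => rw [pow_succ]; omega
  have h2 : ((K : ℝ) + 1) ≤ 2 ^ K := by exact_mod_cast h1
  calc ((K : ℝ) + 1) ^ 2 ≤ (2 ^ K) ^ 2 := by gcongr
    _ = 4 ^ K := by rw [← pow_mul, mul_comm K 2, pow_mul]; norm_num

theorem Expn.block (hF : P_WF) {N L : ℝ} {P : Finset ℕ} {F : ℝ → ℂ} {A : ℂ}
    (h : Expn N L P F A) {I : Finset ℕ} (hd : Disjoint P I) {b : ℝ} (hb : 10 ≤ b)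
    (hI : ∀ p ∈ I, p.Prime ∧ (p:ℝ) ≤ b) {K : ℕ} (hK : 1 ≤ K) {f : ℂ → ℂ}
    (hf : PB K f) {ν : Measure (ℂ × ℂ)} {κ₁ κ₂ Q C : ℝ} (hν : LW wF κ₁ κ₂ Q C I ν) :
    Expn (N * b ^ (2 * K)) (L * b ^ (3 * K)) (P ∪ I)
      (fun t => F t * f (PI I (1 / 2 + t * Complex.I))) (A * ∫ q, q.2 * f q.1 ∂ν) := by
  classical
  obtain ⟨ι, s, a, M, h1, h2, h3, h4⟩ := h
  obtain ⟨c, hc, hfc⟩ := hf
  have hb0 : 0 ≤ b := by linarith
  have hb1 : 1 ≤ b := by linarith
  have hI' : ∀ p ∈ I, p.Prime := fun p hp => (hI p hp).1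
  set R := range (K + 1) ×ˢ range (K + 1) with hR
  have hm : ∀ q : ℕ × ℕ, xI I ^ q.1 * yI I ^ q.2 ∈ SA (MI I) := fun q =>
    Subalgebra.mul_mem _ (Subalgebra.pow_mem _ (xI_mem hI') _) (Subalgebra.pow_mem _ (yI_mem hI') _)
  refine ⟨ι × (ℕ × ℕ), s ×ˢ R, fun y => a y.1 * c y.2.1 y.2.2,
    fun y => M y.1 * (xI I ^ y.2.1 * yI I ^ y.2.2), ?_, ?_, ?_, ?_⟩
  · intro y hy
    rw [mem_product] at hy
    obtain ⟨hy1, hy2⟩ := hy
    rw [hR, mem_product, mem_range, mem_range] at hy2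
    refine ⟨Subalgebra.mul_mem _ (SA_mono subset_union_left (h1 _ hy1).1)
      (SA_mono subset_union_right (hm y.2)), ?_⟩
    refine (h1 _ hy1).2.mul ?_
    refine (((xI_Bd hI).pow y.2.1).mul ((yI_Bd hI).pow y.2.2)).mono ?_
    rw [← pow_add]
    exact pow_le_pow_right₀ hb1 (by omega)
  · intro t
    simp only
    rw [h2, hfc, Fc_eq, sum_mul_sum, sum_product]
    refine sum_congr rfl fun x _ => sum_congr rfl fun q _ => ?_
    simp only
    rw [map_mul, map_mul, map_pow, map_pow, ev_xI, ev_yI t hI']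
    ring
  · have e1 : ∫ q, q.2 * f q.1 ∂ν = ∑ q ∈ R, c q.1 q.2 *
        ((lam wF (xI I ^ q.1 * yI I ^ q.2) : ℝ) : ℂ) := by
      rw [← int_Fc hν K c]
      refine integral_congr_ae (Eventually.of_forall fun q => ?_)
      simp only
      rw [hfc]
    rw [h3, e1, sum_mul_sum, sum_product]
    refine sum_congr rfl fun x hx => sum_congr rfl fun q _ => ?_
    simp only
    rw [hF P I hd _ _ (h1 x hx).1 (hm q)]
    push_cast
    ring
  · have e1 : ∀ q ∈ R, ‖c q.1 q.2‖ * l1 (xI I ^ q.1 * yI I ^ q.2) ≤ 2 ^ K * b ^ (2 * K) := by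
      intro q hq
      rw [hR, mem_product, mem_range, mem_range] at hq
      refine mul_le_mul (hc _ _) ?_ (l1_nonneg _) (by positivity)
      refine (l1_mul _ _).trans ?_
      calc l1 (xI I ^ q.1) * l1 (yI I ^ q.2) ≤ b ^ q.1 * b ^ q.2 := by
            refine mul_le_mul ((l1_pow _ _).trans ?_) ((l1_pow _ _).trans ?_) (l1_nonneg _)
              (by positivity)
            · exact pow_le_pow_left₀ (l1_nonneg _) (xI_l1 hb0 hI) _
            · exact pow_le_pow_left₀ (l1_nonneg _) (yI_l1 hb0 hI) _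
        _ = b ^ (q.1 + q.2) := (pow_add _ _ _).symm
        _ ≤ b ^ (2 * K) := pow_le_pow_right₀ hb1 (by omega)
    have e2 : ∑ q ∈ R, ‖c q.1 q.2‖ * l1 (xI I ^ q.1 * yI I ^ q.2) ≤ b ^ (3 * K) := by
      refine (sum_le_sum e1).trans ?_
      rw [sum_const, nsmul_eq_mul, hR, card_product, card_range]
      have h5 := sq_le_four_pow hK
      have h6 : (8:ℝ) ^ K ≤ b ^ K := pow_le_pow_left₀ (by norm_num) (by linarith) K
      calc (((K + 1) * (K + 1) : ℕ) : ℝ) * (2 ^ K * b ^ (2 * K))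
          = ((K : ℝ) + 1) ^ 2 * (2 ^ K * b ^ (2 * K)) := by push_cast; ring
        _ ≤ 4 ^ K * (2 ^ K * b ^ (2 * K)) := by gcongr
        _ = 8 ^ K * b ^ (2 * K) := by
            rw [← mul_assoc, ← mul_pow]; norm_num
        _ ≤ b ^ K * b ^ (2 * K) := by gcongr
        _ = b ^ (3 * K) := by rw [← pow_add]; congr 1; ring
    have e3 : ∑ y ∈ s ×ˢ R, ‖a y.1 * c y.2.1 y.2.2‖ * l1 (M y.1 * (xI I ^ y.2.1 * yI I ^ y.2.2)) ≤
        (∑ x ∈ s, ‖a x‖ * l1 (M x)) * ∑ q ∈ R, ‖c q.1 q.2‖ * l1 (xI I ^ q.1 * yI I ^ q.2) := by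
      rw [sum_mul_sum, sum_product]
      refine sum_le_sum fun x _ => sum_le_sum fun q _ => ?_
      simp only
      rw [norm_mul]
      calc ‖a x‖ * ‖c q.1 q.2‖ * l1 (M x * (xI I ^ q.1 * yI I ^ q.2))
          ≤ ‖a x‖ * ‖c q.1 q.2‖ * (l1 (M x) * l1 (xI I ^ q.1 * yI I ^ q.2)) :=
            mul_le_mul_of_nonneg_left (l1_mul _ _) (by positivity)
        _ = _ := by ring
    refine e3.trans ?_
    exact mul_le_mul h4 e2 (sum_nonneg fun q _ => mul_nonneg (norm_nonneg _) (l1_nonneg _))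
      (le_trans (sum_nonneg fun x _ => mul_nonneg (norm_nonneg _) (l1_nonneg _)) h4)

theorem expn_prod (hF : P_WF) {c Q C : ℝ} {J : ℕ} {I : ℕ → Finset ℕ} {b : ℕ → ℝ}
    {K : ℕ → ℕ} {f : ℕ → ℂ → ℂ} {ν : ℕ → Measure (ℂ × ℂ)} (hR : Rg c J I b)
    (hν : ∀ i < J, LW wF 0 1 Q C (I i) (ν i)) (hf : ∀ i < J, 1 ≤ K i ∧ PB (K i) (f i))
    (m : ℕ) (hm : m ≤ J) :
    Expn (∏ i ∈ range m, b i ^ (2 * K i)) (∏ i ∈ range m, b i ^ (3 * K i))
      ((range m).biUnion I) (fun t => ∏ i ∈ range m, f i (zz I t i))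
      (∏ i ∈ range m, ∫ q, q.2 * f i q.1 ∂(ν i)) := by
  classical
  induction m with
  | zero =>
    simp only [range_zero, prod_empty, biUnion_empty]
    exact Expn.one
  | succ m ih =>
    have hmJ : m < J := hm
    have h := (ih (by omega)).block hF (disj_union m hR.dj) (hR.b10 m hmJ)
      (fun p hp => ⟨(hR.pr m p hp).1, (hR.pr m p hp).2.2⟩) (hf m hmJ).1 (hf m hmJ).2 (hν m hmJ)
    have e : (range (m + 1)).biUnion I = (range m).biUnion I ∪ I m := by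
      rw [range_add_one, biUnion_insert, union_comm]
    rw [e]
    simp only [prod_range_succ]
    exact h

theorem prod_bound {J : ℕ} {b : ℕ → ℝ} (hb : ∀ i < J, 10 ≤ b i) (K : ℕ → ℕ) (r : ℕ) {T : ℝ}
    (hT : 1 < T)
    (h : ∑ i ∈ range J, (K i : ℝ) * Real.log (b i) ≤ 1 / 100 * Real.log T) :
    ∏ i ∈ range J, b i ^ (r * K i) ≤ T ^ ((r : ℝ) / 100) := by
  have h0 : ∀ i ∈ range J, (0:ℝ) < b i := fun i hi => by
    have := hb i (mem_range.mp hi); linarith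
  have e1 : ∏ i ∈ range J, b i ^ (r * K i)
      = Real.exp (r * ∑ i ∈ range J, (K i : ℝ) * Real.log (b i)) := by
    rw [mul_sum, Real.exp_sum]
    refine prod_congr rfl fun i hi => ?_
    rw [← Real.rpow_natCast, Real.rpow_def_of_pos (h0 i hi)]
    congr 1
    push_cast
    ring
  rw [e1, Real.rpow_def_of_pos (by linarith)]
  refine Real.exp_le_exp.mpr ?_
  have := mul_le_mul_of_nonneg_left h (Nat.cast_nonneg r : (0:ℝ) ≤ r)
  linarith

/-- integrability -/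
theorem int_om (κ : ℕ) {δ : ℝ} (hδ : 0 < δ) {g : ℝ → ℂ} {B : ℝ} (hg : Continuous g)
    (hB : ∀ t, ‖g t‖ ≤ B) :
    IntegrableOn (fun t : ℝ => ((om κ δ t : ℝ) : ℂ) * (riemannZeta (cl t) * g t)) (Set.Ioi 0) := by
  have h2 := Pool.Agent.H262R4.TM.TTW.int2 κ hδ
  have h0 := om_int0 κ hδ
  have hB0 : 0 ≤ B := (norm_nonneg _).trans (hB 0)
  have hz := Pool.Agent.H262R4.TM.TTW.zeta_cont
  refine Integrable.mono' (((h0.add h2).mul_const B)) ?_ ?_
  · exact ((Complex.continuous_ofReal.comp (Pool.Agent.H262R4.TM.TTW.om_cont κ δ)).mul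
      (hz.mul hg)).aestronglyMeasurable
  · refine (ae_restrict_iff' measurableSet_Ioi).mpr (Eventually.of_forall fun t ht => ?_)
    have ht0 : (0:ℝ) ≤ t := le_of_lt ht
    have h1 := om_nn κ hδ ht0
    have h3 := hB t
    have h4 : ‖riemannZeta (cl t)‖ ≤ 1 + ‖riemannZeta (cl t)‖ ^ 2 := by
      nlinarith [norm_nonneg (riemannZeta (cl t)), sq_nonneg (‖riemannZeta (cl t)‖ - 1)]
    rw [norm_mul, norm_mul, Complex.norm_real, Real.norm_of_nonneg h1]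
    simp only [Pi.add_apply]
    calc om κ δ t * (‖riemannZeta (cl t)‖ * ‖g t‖)
        ≤ om κ δ t * ((1 + ‖riemannZeta (cl t)‖ ^ 2) * B) := by
          refine mul_le_mul_of_nonneg_left ?_ h1
          exact mul_le_mul h4 h3 (norm_nonneg _) (by positivity)
      _ = _ := by ring

theorem ev_cont {N : ℝ} {M : DA} (hM : Bd N M) : Continuous fun t => ev t M := by
  simp_rw [ev_apply]
  exact continuous_finsetSum _ fun x hx =>
    continuous_const.mul (mh_cont (hM x hx).1.1 (hM x hx).1.2)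

theorem ev_le {N : ℝ} {M : DA} (hM : Bd N M) (t : ℝ) : ‖ev t M‖ ≤ l1 M := by
  rw [ev_apply]
  refine (norm_sum_le _ _).trans (sum_le_sum fun x hx => ?_)
  rw [norm_mul, Complex.norm_real, Real.norm_eq_abs]
  exact mul_le_of_le_one_right (abs_nonneg _) (mh_norm_le (hM x hx).1.1 (hM x hx).1.2)

/-- one element of the algebra -/
theorem one_elt {T : ℝ} {κ : ℕ} (hδ : 0 < (κ : ℝ) / T)
    (hZ : ∀ h l : ℕ, 1 ≤ h → 1 ≤ l →
      (h : ℝ) ≤ T ^ (1 / 4 : ℝ) → (l : ℝ) ≤ T ^ (1 / 4 : ℝ) →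
      ‖(∫ t in Set.Ioi (0 : ℝ), ((om κ (κ / T) t : ℝ) : ℂ) * (riemannZeta (cl t) * mh t (h, l))) -
      ((wF (h, l) : ℝ) : ℂ)‖ ≤ T ^ (-1 : ℝ))
    {N : ℝ} (hN : N ≤ T ^ (1 / 4 : ℝ)) {M : DA} (hM : Bd N M) :
    ‖(∫ t in Set.Ioi (0 : ℝ), ((om κ (κ / T) t : ℝ) : ℂ) * (riemannZeta (cl t) * ev t M)) -
      ((lam wF M : ℝ) : ℂ)‖ ≤ T ^ (-1 : ℝ) * l1 M := by
  have e1 : ∀ t : ℝ, ((om κ (κ / T) t : ℝ) : ℂ) * (riemannZeta (cl t) * ev t M) =
      ∑ x ∈ M.coeff.support, (M.coeff x : ℂ) *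
        (((om κ (κ / T) t : ℝ) : ℂ) * (riemannZeta (cl t) * mh t x)) := by
    intro t
    rw [ev_apply, mul_sum, mul_sum]
    refine sum_congr rfl fun x _ => ?_
    ring
  have hi : ∀ x ∈ M.coeff.support, Integrable (fun t : ℝ => (M.coeff x : ℂ) *
        (((om κ (κ / T) t : ℝ) : ℂ) * (riemannZeta (cl t) * mh t x)))
        (volume.restrict (Set.Ioi 0)) := by
    intro x hx
    refine Integrable.const_mul ?_ _
    exact int_om κ hδ (mh_cont (hM x hx).1.1 (hM x hx).1.2) (B := 1)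
      fun t => mh_norm_le (hM x hx).1.1 (hM x hx).1.2
  rw [integral_congr_ae (Eventually.of_forall e1), integral_finsetSum _ hi, lam_apply, Finsupp.sum,
    Complex.ofReal_sum, ← sum_sub_distrib, l1, mul_sum]
  refine (norm_sum_le _ _).trans (sum_le_sum fun x hx => ?_)
  rw [integral_const_mul, Complex.ofReal_mul, ← mul_sub, norm_mul, Complex.norm_real,
    Real.norm_eq_abs, mul_comm (T ^ (-1 : ℝ))]
  refine mul_le_mul_of_nonneg_left ?_ (abs_nonneg _)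
  have h := hM x hx
  exact hZ x.1 x.2 (Nat.pos_of_ne_zero h.1.1) (Nat.pos_of_ne_zero h.1.2) (h.2.1.trans hN)
    (h.2.2.trans hN)

theorem t_AV1 (hZ : P_ZM) (hF : P_WF) : P_AV1 := by
  unfold P_AV1
  filter_upwards [hZ, eventually_gt_atTop (Real.exp 1)] with T hZT hT1
  intro κ hκ c Q C J I b K f ν hR hν hf hsum
  have hT0 : 1 < T := lt_trans (Real.one_lt_exp_iff.2 one_pos) hT1
  have hlog : 1 < Real.log T := by
    rw [Real.lt_log_iff_exp_lt (by linarith)]; exact hT1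
  have hκ0 : (0 : ℝ) < κ := by
    have := hκ.1
    nlinarith
  have hδ : 0 < (κ : ℝ) / T := div_pos hκ0 (by linarith)
  have hZ' := hZT κ hκ
  obtain ⟨ι, s, a, M, h1, h2, h3, h4⟩ := expn_prod hF hR hν hf J le_rfl
  have hN : ∏ i ∈ range J, b i ^ (2 * K i) ≤ T ^ (1 / 4 : ℝ) := by
    refine (prod_bound hR.b10 K 2 hT0 hsum).trans ?_
    exact Real.rpow_le_rpow_of_exponent_le hT0.le (by norm_num)
  have hL := prod_bound hR.b10 K 3 hT0 hsum
  have e1 : ∀ t : ℝ, ((om κ (κ / T) t : ℝ) : ℂ) *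
        (riemannZeta (cl t) * ∏ i ∈ range J, f i (zz I t i)) =
      ∑ x ∈ s, a x * (((om κ (κ / T) t : ℝ) : ℂ) * (riemannZeta (cl t) * ev t (M x))) := by
    intro t
    rw [show ∏ i ∈ range J, f i (zz I t i) = ∑ x ∈ s, a x * ev t (M x) from h2 t, mul_sum, mul_sum]
    refine sum_congr rfl fun x _ => ?_
    ring
  have hi : ∀ x ∈ s, Integrable (fun t : ℝ => a x *
        (((om κ (κ / T) t : ℝ) : ℂ) * (riemannZeta (cl t) * ev t (M x))))
        (volume.restrict (Set.Ioi 0)) := by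
    intro x hx
    refine Integrable.const_mul ?_ _
    exact int_om κ hδ (ev_cont (h1 x hx).2) (B := l1 (M x)) fun t => ev_le (h1 x hx).2 t
  rw [integral_congr_ae (Eventually.of_forall e1), integral_finsetSum _ hi, h3, ← sum_sub_distrib]
  calc ‖∑ x ∈ s, ((∫ t in Set.Ioi (0:ℝ), a x *
        (((om κ (κ / T) t : ℝ) : ℂ) * (riemannZeta (cl t) * ev t (M x)))) -
        a x * ((lam wF (M x) : ℝ) : ℂ))‖
      ≤ ∑ x ∈ s, ‖a x‖ * (T ^ (-1 : ℝ) * l1 (M x)) := by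
        refine (norm_sum_le _ _).trans (sum_le_sum fun x hx => ?_)
        rw [integral_const_mul, ← mul_sub, norm_mul]
        exact mul_le_mul_of_nonneg_left (one_elt hδ hZ' hN (h1 x hx).2) (norm_nonneg _)
    _ = T ^ (-1 : ℝ) * ∑ x ∈ s, ‖a x‖ * l1 (M x) := by
        rw [mul_sum]
        refine sum_congr rfl fun x _ => ?_
        ring
    _ ≤ T ^ (-1 : ℝ) * T ^ (((3 : ℕ) : ℝ) / 100) := by
        refine mul_le_mul_of_nonneg_left (h4.trans hL) (by positivity)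
    _ ≤ T ^ (-(1 / 2) : ℝ) := by
        rw [← Real.rpow_add (by linarith)]
        refine Real.rpow_le_rpow_of_exponent_le hT0.le ?_
        norm_num

end

end Pool.Agent.TH263.LK_AV1
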