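import Pool.Agent.TH489.PL.Defs
import Pool.Agent.W424.PC.Lat
import Pool.Agent.W402.PC.Simon
import Pool.Agent.W400.PC.PT
import Pool.Agent.W45.PC.PT1
import Pool.Agent.W975.PC.GR1

/-!
# Sharpness along rays (Duminil-Copin and Tassion) with long-range bonds
-/

set_option autoImplicit false

open MeasureTheory Set

namespace Pool.Agent.TH263.PL

open Pool.Agent.W783.PC
open Pool.Agent.W424.PC (EE I1 Piv upd russo_pm pm_eq_EE piv_closed dep_Piv dep_mono meas_coord
  upd_self upd_of upd_ne upd_true_le zero_CB CB_finite I1_mem I1_not)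

variable {n : ℕ}

/-- open bonds inside `R` -/
def L (ω : Cfg n) (R : Set (V n)) : SimpleGraph (V n) where
  Adj x y := x ≠ y ∧ x ∈ R ∧ y ∈ R ∧ ω (Sum.inr s(x, y)) = true
  symm := ⟨fun x y ⟨h0, h1, h2, h4⟩ => ⟨h0.symm, h2, h1, by rwa [Sym2.eq_swap]⟩⟩
  loopless := ⟨fun x h => h.1 rfl⟩

/-- sites open, bonds which are not in the model closed -/
def Om (n : ℕ) : Set (Cfg n) :=
  {ω | (∀ x, ω (Sum.inl x) = true) ∧ ∀ e, e ∉ EdI 1 → ω (Sum.inr e) = false}

lemma G_eq_L {ω : Cfg n} (hω : ω ∈ Om n) (R : Set (V n)) : G (EdI 1) ω R = L ω R := by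
  ext x y
  constructor
  · rintro ⟨h1, h2, h3, h4, h5, h6, h7⟩
    exact ⟨h1, h2, h3, h7⟩
  · rintro ⟨h1, h2, h3, h4⟩
    refine ⟨h1, h2, h3, ?_, hω.1 x, hω.1 y, h4⟩
    by_contra h8
    have := hω.2 s(x, y) h8
    rw [this] at h4
    simp at h4

instance : Countable (Sym2 (V n)) := inferInstanceAs (Countable (Quot _))

/-- the rates -/
noncomputable def Jr (n : ℕ) (p : unitInterval) (β : NNReal) (s : ℝ) (c : Ix n) : ℝ :=
  open scoped Classical in
  match c with
  | Sum.inl _ => 0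
  | Sum.inr e => if isNN e then -Real.log (1 - p) else if isLg 1 e then
      (β : ℝ) * ((len e : ℕ) : ℝ) ^ (-s) else 0

/-- the real parameters -/
noncomputable def rr (n : ℕ) (p : unitInterval) (β : NNReal) (s : ℝ) (t : ℝ) (c : Ix n) : ℝ :=
  match c with
  | Sum.inl _ => 1
  | Sum.inr e => 1 - Real.exp (-(t * Jr n p β s (Sum.inr e)))

lemma Jr_nonneg (p : unitInterval) (β : NNReal) (s : ℝ) (hp : (p : ℝ) < 1) (c : Ix n) :
    0 ≤ Jr n p β s c := by
  classical
  cases c with
  | inl x => exact le_refl _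
  | inr e =>
    simp only [Jr]
    split_ifs
    · have h1 : Real.log (1 - (p : ℝ)) ≤ 0 :=
        Real.log_nonpos (by linarith) (by linarith [p.2.1])
      linarith
    · exact mul_nonneg β.2 (Real.rpow_nonneg (Nat.cast_nonneg _) _)
    · exact le_refl _

lemma prob_eq (p : unitInterval) (β : NNReal) (s : ℝ) (hp : (p : ℝ) < 1) (t : NNReal) (c : Ix n) :
    (prob (n := n) 1 (TH489.PL.pt p t) (t * β) s 1 c : ℝ) = rr n p β s t c := by
  classical
  cases c with
  | inl x => simp [prob, rr]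
  | inr e =>
    simp only [prob, rr, Jr]
    by_cases h : isNN e
    · rw [if_pos h, if_pos h]
      show 1 - (1 - (p : ℝ)) ^ (t : ℝ) = _
      rw [Real.rpow_def_of_pos (by linarith)]
      congr 2
      ring
    · rw [if_neg h, if_neg h]
      by_cases h2 : isLg 1 e
      · rw [if_pos h2, if_pos h2]
        show 1 - Real.exp (-(((t * β : NNReal) : ℝ) * ((len e : ℕ) : ℝ) ^ (-s))) = _
        rw [NNReal.coe_mul, mul_assoc]
      · rw [if_neg h2, if_neg h2]
        simp

lemma ae_Om (q : unitInterval) (β : NNReal) (s : ℝ) :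
    ∀ᵐ ω ∂(pm (prob (n := n) 1 q β s 1)), ω ∈ Om n := by
  classical
  set r := prob (n := n) 1 q β s 1 with hr
  have h1 : ∀ᵐ ω ∂(pm r), ∀ x, ω (Sum.inl x) = true := by
    rw [ae_all_iff]
    intro x
    rw [ae_iff]
    have h := (W424.PC.pm_coord r (Sum.inl x)).2
    have h2 : (r (Sum.inl x) : ℝ) = 1 := by rw [hr]; simp [prob]
    rw [h2, sub_self, measureReal_def, ENNReal.toReal_eq_zero_iff] at h
    rcases h with h | h
    · rw [← h]; congr 1; ext ω; simp
    · exact absurd h (measure_ne_top _ _)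
  have h2 : ∀ᵐ ω ∂(pm r), ∀ e, e ∉ EdI 1 → ω (Sum.inr e) = false := by
    rw [ae_all_iff]
    intro e
    by_cases he : e ∈ EdI 1
    · exact Filter.Eventually.of_forall fun ω h => absurd he h
    · rw [ae_iff]
      have h := (W424.PC.pm_coord r (Sum.inr e)).1
      have he' : ¬ isNN e ∧ ¬ isLg 1 e := by
        constructor
        · exact fun h => he (Or.inl h)
        · exact fun h => he (Or.inr h)
      have h2 : (r (Sum.inr e) : ℝ) = 0 := by rw [hr]; simp [prob, he'.1, he'.2]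
      rw [h2, measureReal_def, ENNReal.toReal_eq_zero_iff] at h
      rcases h with h | h
      · rw [← h]; congr 1; ext ω; simp [he]
      · exact absurd h (measure_ne_top _ _)
  filter_upwards [h1, h2] with ω a b using ⟨a, b⟩

/-- pairs inside `R` -/
def lnI (R : Set (V n)) : Set (Ix n) := {c | ∃ x y, x ∈ R ∧ y ∈ R ∧ c = Sum.inr s(x, y)}

lemma L_congr {ω ω' : Cfg n} {R : Set (V n)} (h : ∀ c ∈ lnI R, ω c = ω' c) : L ω R = L ω' R := by
  ext x y
  constructor
  · rintro ⟨h0, h1, h2, h4⟩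
    exact ⟨h0, h1, h2, by rw [← h _ ⟨x, y, h1, h2, rfl⟩]; exact h4⟩
  · rintro ⟨h0, h1, h2, h4⟩
    exact ⟨h0, h1, h2, by rw [h _ ⟨x, y, h1, h2, rfl⟩]; exact h4⟩

lemma L_mono {ω : Cfg n} {R R' : Set (V n)} (h : R ⊆ R') : L ω R ≤ L ω R' := by
  intro x y hxy
  exact ⟨hxy.1, h hxy.2.1, h hxy.2.2.1, hxy.2.2.2⟩

lemma L_le {ω ω' : Cfg n} {R : Set (V n)} (h : ∀ c, ω c = true → ω' c = true) :
    L ω R ≤ L ω' R := by
  intro x y hxy
  exact ⟨hxy.1, hxy.2.1, hxy.2.2.1, h _ hxy.2.2.2⟩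

/-- the cluster of a set -/
def clu (ω : Cfg n) (R A : Set (V n)) : Set (V n) := {v | ∃ a ∈ A, (L ω R).Reachable a v}

lemma reach_mem {ω : Cfg n} {R : Set (V n)} {x y : V n} (h : (L ω R).Reachable x y)
    (hx : x ∈ R) : y ∈ R := by
  rw [SimpleGraph.reachable_iff_reflTransGen] at h
  induction h with
  | refl => exact hx
  | tail _ h _ => exact h.2.2.1

/-- pairs inside `R` touching `C` -/
def tch (R C : Set (V n)) : Set (Ix n) :=
  {c | ∃ x y, x ∈ R ∧ y ∈ R ∧ x ∈ C ∧ c = Sum.inr s(x, y)}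

lemma dep_clu (R A C : Set (V n)) : DepOn {ω : Cfg n | clu ω R A = C} (tch R C) := by
  have key : ∀ ω ω' : Cfg n, (∀ i ∈ tch R C, ω i = ω' i) → clu ω R A = C → clu ω' R A = C := by
    intro ω ω' h hC
    ext v
    constructor
    · rintro ⟨a, ha, hr⟩
      rw [SimpleGraph.reachable_iff_reflTransGen] at hr
      induction hr with
      | refl => rw [← hC]; exact ⟨a, ha, SimpleGraph.Reachable.refl _⟩
      | @tail c d _ hcd ih =>
        have h1 : ω (Sum.inr s(c, d)) = true := by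
          rw [h _ ⟨c, d, hcd.2.1, hcd.2.2.1, ih, rfl⟩]; exact hcd.2.2.2
        rw [← hC] at ih ⊢
        obtain ⟨a', ha', hr'⟩ := ih
        exact ⟨a', ha', hr'.trans (SimpleGraph.Adj.reachable ⟨hcd.1, hcd.2.1, hcd.2.2.1, h1⟩)⟩
    · intro hv
      rw [← hC] at hv
      obtain ⟨a, ha, hr⟩ := hv
      refine ⟨a, ha, ?_⟩
      rw [SimpleGraph.reachable_iff_reflTransGen] at hr
      induction hr with
      | refl => exact SimpleGraph.Reachable.refl _
      | @tail c d hac hcd ih =>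
        refine ih.trans (SimpleGraph.Adj.reachable ⟨hcd.1, hcd.2.1, hcd.2.2.1, ?_⟩)
        have hcC : c ∈ C := by
          rw [← hC]
          exact ⟨a, ha, (SimpleGraph.reachable_iff_reflTransGen a c).2 hac⟩
        rw [← h _ ⟨c, d, hcd.2.1, hcd.2.2.1, hcC, rfl⟩]
        exact hcd.2.2.2
  intro ω ω' h
  exact ⟨key ω ω' h, key ω' ω fun i hi => (h i hi).symm⟩

lemma dep_reach (R : Set (V n)) (x y : V n) :
    DepOn {ω : Cfg n | (L ω R).Reachable x y} (lnI R) := by
  intro ω ω' h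
  simp only [mem_ofPred_eq]
  rw [L_congr h]

lemma lnI_finite {R : Set (V n)} (h : R.Finite) : (lnI R).Finite := by
  have : lnI R ⊆ (fun z : V n × V n => (Sum.inr s(z.1, z.2) : Ix n)) '' (R ×ˢ R) := by
    rintro c ⟨x, y, hx, hy, rfl⟩
    exact ⟨(x, y), ⟨hx, hy⟩, rfl⟩
  exact ((h.prod h).image _).subset this

/-- the arm event: `0` is connected to `T` inside `R` -/
def arm (R T : Set (V n)) : Set (Cfg n) := {ω | (0 : V n) ∈ clu ω R T}

lemma arm_inc (R T : Set (V n)) : Inc (arm R T) := by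
  rintro ω ω' h ⟨b, hb, hr⟩
  exact ⟨b, hb, hr.mono (L_le h)⟩

lemma arm_dep (R T : Set (V n)) : DepOn (arm R T) (lnI R) := by
  intro ω ω' h
  unfold arm clu
  simp only [mem_ofPred_eq]
  rw [L_congr h]

/-- The differential inequality of Duminil-Copin and Tassion. -/
lemma piv_lower (hI : S_indep) (hD : S_depmeas) (r : Ix n → unitInterval) (a : ℝ)
    (bF : Finset (V n)) (T : Set (V n)) (hT : T ⊆ (bF : Set (V n)))
    (h0F : (0 : V n) ∈ bF)
    (E : Finset (Ix n)) (hE : ∀ e, e ∈ E ↔ e ∈ lnI (bF : Set (V n)))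
    (hphi : ∀ S C : Finset (V n), (0 : V n) ∈ S → (∀ y ∈ S, y ∈ bF ∧ y ∉ T) →
      (∀ v, v ∈ C ↔ v ∈ bF ∧ v ∉ S) →
      a ≤ ∑ z ∈ S ×ˢ C, (r (Sum.inr s(z.1, z.2)) : ℝ) *
        (pm r).real {ω | (L ω (S : Set (V n))).Reachable 0 z.1}) :
    a * (1 - (pm r).real (arm (bF : Set (V n)) T)) ≤
      ∑ e ∈ E, (r e : ℝ) * (pm r).real (Piv (arm (bF : Set (V n)) T) e ∩ {ω | ω e = false}) := by
  classical
  set μ := pm r with hμ
  set R : Set (V n) := (bF : Set (V n)) with hR
  have hbF : ∀ v, v ∈ bF ↔ v ∈ R := fun v => Iff.rfl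
  set EC : Finset (V n) → Set (Cfg n) := fun C => {ω | clu ω R T = (C : Set (V n))} with hEC
  set Cs : Finset (Finset (V n)) :=
    bF.powerset.filter (fun C => (0 : V n) ∉ C ∧ T ⊆ (C : Set (V n))) with hCs
  have hin : ∀ ω, ∀ v ∈ clu ω R T, v ∈ R := by
    rintro ω v ⟨a, ha, hr⟩
    exact reach_mem hr (hT ha)
  have hsub : ∀ ω, T ⊆ clu ω R T := fun ω v hv =>
    ⟨v, hv, SimpleGraph.Reachable.refl _⟩
  have harm : ∀ ω, ω ∈ arm R T ↔ (0 : V n) ∈ clu ω R T := fun ω => Iff.rfl
  have hfin : (lnI R).Finite := lnI_finite bF.finite_toSet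
  have mdep : ∀ (A : Set (Cfg n)), DepOn A (lnI R) → MeasurableSet A := by
    intro A hA
    refine hD _ hfin.toFinset A ?_
    rw [Set.Finite.coe_toFinset]; exact hA
  have tchsub : ∀ C : Set (V n), tch R C ⊆ lnI R := by
    rintro C c ⟨x, y, hx, hy, _, rfl⟩
    exact ⟨x, y, hx, hy, rfl⟩
  have mEC : ∀ C, MeasurableSet (EC C) := fun C =>
    mdep _ (dep_mono (dep_clu R T (C : Set (V n))) (tchsub _))
  have hdisj : ∀ C C' : Finset (V n), C ≠ C' → Disjoint (EC C) (EC C') := by
    intro C C' hne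
    rw [Set.disjoint_left]
    intro ω h1 h2
    apply hne
    have h1' : clu ω R T = (C : Set (V n)) := h1
    have h2' : clu ω R T = (C' : Set (V n)) := h2
    exact Finset.coe_injective (h1'.symm.trans h2')
  have hcompl : (arm R T)ᶜ = ⋃ C ∈ Cs, EC C := by
    ext ω
    rw [mem_compl_iff, harm]
    simp only [mem_iUnion, exists_prop]
    constructor
    · intro h
      refine ⟨bF.filter (fun v => v ∈ clu ω R T), ?_, ?_⟩
      · rw [hCs, Finset.mem_filter, Finset.mem_powerset]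
        refine ⟨Finset.filter_subset _ _, ?_, ?_⟩
        · rw [Finset.mem_filter]; exact fun h' => h h'.2
        · intro v hv
          rw [Finset.mem_coe, Finset.mem_filter, hbF]
          exact ⟨hT hv, hsub _ hv⟩
      · show clu ω R T = _
        ext v
        rw [Finset.mem_coe, Finset.mem_filter, hbF]
        exact ⟨fun h => ⟨hin ω v h, h⟩, fun h => h.2⟩
    · rintro ⟨C, hC, hE'⟩
      have hE'' : clu ω R T = (C : Set (V n)) := hE'
      rw [hCs, Finset.mem_filter] at hC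
      rw [hE'']
      exact hC.2.1
  have marm : MeasurableSet (arm R T) := mdep _ (arm_dep R T)
  have hone : 1 - μ.real (arm R T) = ∑ C ∈ Cs, μ.real (EC C) := by
    have h1 := probReal_compl_eq_one_sub (μ := μ) marm
    rw [← h1, hcompl, measureReal_biUnion_finset]
    · intro C _ C' _ hne
      exact hdisj C C' hne
    · intro C _; exact mEC C
  -- lower bound for a single C
  have hC : ∀ C ∈ Cs, a * μ.real (EC C) ≤ ∑ e ∈ E, (r e : ℝ) * μ.real ((Piv (arm R T) e ∩
      {ω | ω e = false}) ∩ EC C) := by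
    intro C hC
    rw [hCs, Finset.mem_filter, Finset.mem_powerset] at hC
    obtain ⟨hC1, hC2, hC3⟩ := hC
    set S : Finset (V n) := bF \ C with hS
    have h0S : (0 : V n) ∈ S := by
      rw [hS, Finset.mem_sdiff]
      exact ⟨h0F, hC2⟩
    have hSmem : ∀ x ∈ S, x ∈ R ∧ x ∉ C ∧ x ∉ T := by
      intro x hx
      rw [hS, Finset.mem_sdiff, hbF] at hx
      exact ⟨hx.1, hx.2, fun h => hx.2 (hC3 h)⟩
    have hCmem : ∀ v, v ∈ C ↔ v ∈ R ∧ v ∉ S := by
      intro v
      rw [hS, Finset.mem_sdiff, hbF]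
      constructor
      · intro h
        exact ⟨(hbF v).1 (hC1 h), fun h' => h'.2 h⟩
      · rintro ⟨h1, h2⟩
        by_contra h3
        exact h2 ⟨h1, h3⟩
    set Z := S ×ˢ C with hZ
    have hbd : ∀ z ∈ Z, z.1 ∈ S ∧ z.2 ∈ C := by
      intro z hz
      rw [hZ, Finset.mem_product] at hz
      exact hz
    have hinj : Set.InjOn (fun z : V n × V n => (Sum.inr s(z.1, z.2) : Ix n)) (Z : Set _) := by
      intro z hz z' hz' h
      have g1 := hbd z hz
      have g2 := hbd z' hz'
      simp only [Sum.inr.injEq] at h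
      rw [Sym2.eq_iff] at h
      rcases h with ⟨h1, h2⟩ | ⟨h1, h2⟩
      · exact Prod.ext h1 h2
      · exfalso
        have := (hSmem _ g1.1).2.1
        rw [h1] at this
        exact this g2.2
    have himg : Z.image (fun z : V n × V n => (Sum.inr s(z.1, z.2) : Ix n)) ⊆ E := by
      intro e he
      rw [Finset.mem_image] at he
      obtain ⟨z, hz, rfl⟩ := he
      have g := hbd z hz
      rw [hE]
      exact ⟨z.1, z.2, (hSmem _ g.1).1, ((hCmem _).1 g.2).1, rfl⟩
    have hz : ∀ z ∈ Z, μ.real (EC C) * μ.real {ω | (L ω (S : Set (V n))).Reachable 0 z.1} ≤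
        μ.real ((Piv (arm R T) (Sum.inr s(z.1, z.2)) ∩ {ω | ω (Sum.inr s(z.1, z.2)) = false}) ∩
          EC C) := by
      intro z hz
      obtain ⟨g1, g2⟩ := hbd z hz
      have hSB : (S : Set (V n)) ⊆ R := fun x hx => (hSmem x hx).1
      have mr : MeasurableSet {ω : Cfg n | (L ω (S : Set (V n))).Reachable 0 z.1} := by
        refine mdep _ (dep_mono (dep_reach _ _ _) ?_)
        rintro c ⟨x, y, hx, hy, rfl⟩
        exact ⟨x, y, hSB hx, hSB hy, rfl⟩
      have hind : μ (EC C ∩ {ω | (L ω (S : Set (V n))).Reachable 0 z.1}) =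
          μ (EC C) * μ {ω | (L ω (S : Set (V n))).Reachable 0 z.1} := by
        refine hI _ r _ _ _ _ (dep_clu R T (C : Set (V n))) (dep_reach _ _ _) ?_ (mEC C) mr
        rw [Set.disjoint_left]
        rintro e ⟨x, y, hx, hy, hxC, rfl⟩ ⟨x', y', hx', hy', h⟩
        simp only [Sum.inr.injEq] at h
        rw [Sym2.eq_iff] at h
        rcases h with ⟨h1, h2⟩ | ⟨h1, h2⟩
        · rw [h1] at hxC; exact (hSmem _ hx').2.1 hxC
        · rw [h1] at hxC; exact (hSmem _ hy').2.1 hxC
      have hindr : μ.real (EC C) * μ.real {ω | (L ω (S : Set (V n))).Reachable 0 z.1} =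
          μ.real (EC C ∩ {ω | (L ω (S : Set (V n))).Reachable 0 z.1}) := by
        unfold Measure.real
        rw [hind, ENNReal.toReal_mul]
      rw [hindr]
      refine measureReal_mono ?_ (measure_ne_top _ _)
      rintro ω ⟨hω, hr⟩
      have hcl : clu ω R T = (C : Set (V n)) := hω
      have hyC : z.2 ∈ clu ω R T := by rw [hcl]; exact g2
      have hxC : z.1 ∉ clu ω R T := by rw [hcl]; exact (hSmem _ g1).2.1
      have g4 : z.2 ∈ R := ((hCmem _).1 g2).1
      have hne : z.1 ≠ z.2 := fun h => (hSmem _ g1).2.1 (by rw [h]; exact g2)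
      have hclosed : ω (Sum.inr s(z.1, z.2)) = false := by
        by_contra hne'
        rw [Bool.not_eq_false] at hne'
        apply hxC
        obtain ⟨b, hb, hrb⟩ := hyC
        refine ⟨b, hb, hrb.trans (SimpleGraph.Adj.reachable ?_)⟩
        exact SimpleGraph.Adj.symm ⟨hne, hSB g1, g4, hne'⟩
      refine ⟨⟨⟨?_, ?_⟩, hclosed⟩, hω⟩
      · rw [harm]
        obtain ⟨b, hb, hrb⟩ := hyC
        have hle := L_le (R := R) (upd_true_le (Sum.inr s(z.1, z.2)) ω)
        have hle2 := L_mono (ω := ω) hSB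
        refine ⟨b, hb, (hrb.mono hle).trans (SimpleGraph.Reachable.trans ?_
          ((hr.mono hle2).mono hle).symm)⟩
        refine SimpleGraph.Adj.reachable (SimpleGraph.Adj.symm
          ⟨hne, hSB g1, g4, upd_self _ _ _⟩)
      · rw [upd_of hclosed, harm, hcl]
        exact hC2
    have hphiS := hphi S C h0S (fun y hy => ⟨(hSmem y hy).1, (hSmem y hy).2.2⟩) hCmem
    calc a * μ.real (EC C) ≤ (∑ z ∈ Z, (r (Sum.inr s(z.1, z.2)) : ℝ) *
          μ.real {ω | (L ω (S : Set (V n))).Reachable 0 z.1}) * μ.real (EC C) :=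
          mul_le_mul_of_nonneg_right hphiS measureReal_nonneg
      _ = ∑ z ∈ Z, (r (Sum.inr s(z.1, z.2)) : ℝ) *
          (μ.real (EC C) * μ.real {ω | (L ω (S : Set (V n))).Reachable 0 z.1}) := by
          rw [Finset.sum_mul]
          refine Finset.sum_congr rfl fun z _ => ?_
          ring
      _ ≤ ∑ z ∈ Z, (r (Sum.inr s(z.1, z.2)) : ℝ) *
          μ.real ((Piv (arm R T) (Sum.inr s(z.1, z.2)) ∩
          {ω | ω (Sum.inr s(z.1, z.2)) = false}) ∩ EC C) :=
          Finset.sum_le_sum fun z hz' => mul_le_mul_of_nonneg_left (hz z hz') (r _).2.1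
      _ = ∑ e ∈ Z.image (fun z : V n × V n => (Sum.inr s(z.1, z.2) : Ix n)),
          (r e : ℝ) * μ.real ((Piv (arm R T) e ∩ {ω | ω e = false}) ∩ EC C) := by
          rw [Finset.sum_image hinj]
      _ ≤ ∑ e ∈ E, (r e : ℝ) * μ.real ((Piv (arm R T) e ∩ {ω | ω e = false}) ∩ EC C) :=
          Finset.sum_le_sum_of_subset_of_nonneg himg fun e _ _ =>
            mul_nonneg (r e).2.1 measureReal_nonneg
  rw [hone, Finset.mul_sum]
  calc ∑ C ∈ Cs, a * μ.real (EC C) ≤ ∑ C ∈ Cs, ∑ e ∈ E, (r e : ℝ) * μ.real ((Piv (arm R T) e ∩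
      {ω | ω e = false}) ∩ EC C) := Finset.sum_le_sum hC
    _ = ∑ e ∈ E, (r e : ℝ) *
        ∑ C ∈ Cs, μ.real ((Piv (arm R T) e ∩ {ω | ω e = false}) ∩ EC C) := by
        rw [Finset.sum_comm]
        refine Finset.sum_congr rfl fun e _ => ?_
        rw [Finset.mul_sum]
    _ ≤ ∑ e ∈ E, (r e : ℝ) * μ.real (Piv (arm R T) e ∩ {ω | ω e = false}) := by
        refine Finset.sum_le_sum fun e he => mul_le_mul_of_nonneg_left ?_ (r e).2.1
        have hmeas : MeasurableSet (Piv (arm R T) e ∩ {ω | ω e = false}) :=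
          (mdep _ (dep_Piv (arm_dep R T) e)).inter (meas_coord e false)
        rw [← measureReal_biUnion_finset]
        · refine measureReal_mono ?_ (measure_ne_top _ _)
          refine Set.iUnion₂_subset fun C _ => inter_subset_left
        · intro C _ C' _ hne
          exact Set.disjoint_of_subset inter_subset_right inter_subset_right (hdisj C C' hne)
        · intro C _; exact hmeas.inter (mEC C)

open scoped Classical in
/-- The functional in terms of pairs inside a big region. -/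
lemma phi_le_pairs (q : unitInterval) (β : NNReal) (s : ℝ) (hs : 1 < s) (bF S C Λ : Finset (V n))
    (hSΛ : S ⊆ Λ) (hC : ∀ v, v ∈ C ↔ v ∈ bF ∧ v ∉ S)
    (hbF : ∑ y ∈ Λ, ∑' z : V n, (if z ∈ bF then (0 : ℝ) else
      (prob (n := n) 1 q β s 1 (Sum.inr s(y, z)) : ℝ)) ≤ 1 / 2) :
    phi q β s 1 S 0 ≤ ∑ z ∈ S ×ˢ C, (prob (n := n) 1 q β s 1 (Sum.inr s(z.1, z.2)) : ℝ) *
        (pm (prob (n := n) 1 q β s 1)).real {ω | (L ω (S : Set (V n))).Reachable 0 z.1} + 1 / 2 := by
  set r := prob (n := n) 1 q β s 1 with hr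
  have hnn : ∀ c, (0 : ℝ) ≤ r c := fun c => (r c).2.1
  have hsum : ∀ y, Summable fun z : V n => (r (Sum.inr s(y, z)) : ℝ) := fun y =>
    W402.PC.prob_summable 1 q β s hs y
  have hsum1 : ∀ (P : Finset (V n)) (y), Summable fun z : V n => (if z ∈ P then (0 : ℝ) else
      (r (Sum.inr s(y, z)) : ℝ)) := by
    intro P y
    refine Summable.of_nonneg_of_le (fun z => ?_) (fun z => ?_) (hsum y)
    · split_ifs
      · exact le_refl _
      · exact hnn _
    · split_ifs
      · exact hnn _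
      · exact le_refl _
  have hterm : ∀ y ∈ S, (pm r).real {ω | (G (EdI 1) ω (S : Set (V n))).Reachable 0 y} *
      (∑' z : V n, if z ∈ S then (0 : ℝ) else (r (Sum.inr s(y, z)) : ℝ)) ≤
      ∑ z ∈ C, (r (Sum.inr s(y, z)) : ℝ) *
        (pm r).real {ω | (L ω (S : Set (V n))).Reachable 0 y} +
      ∑' z : V n, (if z ∈ bF then (0 : ℝ) else (r (Sum.inr s(y, z)) : ℝ)) := by
    intro y hy
    have hcongr : (pm r).real {ω | (G (EdI 1) ω (S : Set (V n))).Reachable 0 y} =
        (pm r).real {ω | (L ω (S : Set (V n))).Reachable 0 y} := by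
      refine measureReal_congr ?_
      filter_upwards [ae_Om (n := n) q β s] with ω hω
      apply propext
      show (G (EdI 1) ω (S : Set (V n))).Reachable 0 y ↔ (L ω (S : Set (V n))).Reachable 0 y
      rw [G_eq_L hω]
    rw [hcongr]
    set a := (pm r).real {ω | (L ω (S : Set (V n))).Reachable 0 y}
    have ha : 0 ≤ a := measureReal_nonneg
    have ha1 : a ≤ 1 := measureReal_le_one
    have h1 : (∑' z : V n, if z ∈ S then (0 : ℝ) else (r (Sum.inr s(y, z)) : ℝ)) ≤
        ∑ z ∈ C, (r (Sum.inr s(y, z)) : ℝ) +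
          ∑' z : V n, (if z ∈ bF then (0 : ℝ) else (r (Sum.inr s(y, z)) : ℝ)) := by
      have h2 : ∑ z ∈ C, (r (Sum.inr s(y, z)) : ℝ)
          = ∑' z : V n, if z ∈ C then (r (Sum.inr s(y, z)) : ℝ) else 0 := by
        rw [tsum_eq_sum (s := C)]
        · exact Finset.sum_congr rfl fun z hz => (if_pos hz).symm
        · intro z hz; exact if_neg hz
      have h3 : Summable fun z : V n => if z ∈ C then (r (Sum.inr s(y, z)) : ℝ) else 0 :=
        summable_of_ne_finset_zero (s := C) fun z hz => if_neg hz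
      rw [h2, ← h3.tsum_add (hsum1 bF y)]
      refine (hsum1 S y).tsum_le_tsum (fun z => ?_)
        (h3.add (hsum1 bF y))
      by_cases hzS : z ∈ S
      · rw [if_pos hzS]
        refine add_nonneg ?_ ?_
        · split_ifs
          · exact hnn _
          · exact le_refl _
        · split_ifs
          · exact le_refl _
          · exact hnn _
      · rw [if_neg hzS]
        by_cases hzb : z ∈ bF
        · rw [if_pos ((hC z).2 ⟨hzb, hzS⟩), if_pos hzb, add_zero]
        · rw [if_neg hzb]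
          have : 0 ≤ (if z ∈ C then (r (Sum.inr s(y, z)) : ℝ) else 0) := by
            split_ifs
            · exact hnn _
            · exact le_refl _
          linarith
    have h4 : 0 ≤ ∑' z : V n, (if z ∈ bF then (0 : ℝ) else (r (Sum.inr s(y, z)) : ℝ)) :=
      tsum_nonneg fun z => by
        split_ifs
        · exact le_refl _
        · exact hnn _
    have h5 := mul_le_mul_of_nonneg_left h1 ha
    rw [mul_add, Finset.mul_sum] at h5
    have h6 := mul_le_mul_of_nonneg_right ha1 h4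
    refine h5.trans ?_
    have h7 : ∑ z ∈ C, a * (r (Sum.inr s(y, z)) : ℝ) = ∑ z ∈ C, (r (Sum.inr s(y, z)) : ℝ) * a :=
      Finset.sum_congr rfl fun z _ => mul_comm _ _
    rw [h7]
    linarith
  unfold phi
  refine (Finset.sum_le_sum hterm).trans ?_
  rw [Finset.sum_add_distrib, Finset.sum_product]
  have h8 : ∑ y ∈ S, ∑' z : V n, (if z ∈ bF then (0 : ℝ) else (r (Sum.inr s(y, z)) : ℝ)) ≤
      ∑ y ∈ Λ, ∑' z : V n, (if z ∈ bF then (0 : ℝ) else (r (Sum.inr s(y, z)) : ℝ)) := by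
    refine Finset.sum_le_sum_of_subset_of_nonneg hSΛ fun y _ _ => tsum_nonneg fun z => ?_
    split_ifs
    · exact le_refl _
    · exact hnn _
  linarith

open scoped Classical in
/-- a big region -/
lemma exists_big (q : unitInterval) (β : NNReal) (s : ℝ) (hs : 1 < s) (Λ : Finset (V n)) :
    ∃ bF : Finset (V n), Λ ⊆ bF ∧ ∑ y ∈ Λ, ∑' z : V n, (if z ∈ bF then (0 : ℝ) else
      (prob (n := n) 1 q β s 1 (Sum.inr s(y, z)) : ℝ)) ≤ 1 / 2 := by
  set r := prob (n := n) 1 q β s 1 with hr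
  have hnn : ∀ c, (0 : ℝ) ≤ r c := fun c => (r c).2.1
  have hsum : ∀ y, Summable fun z : V n => (r (Sum.inr s(y, z)) : ℝ) := fun y =>
    W402.PC.prob_summable 1 q β s hs y
  have hlim : Filter.Tendsto (fun F : Finset (V n) => ∑ y ∈ Λ, ∑' z : V n,
      (if z ∈ F then (0 : ℝ) else (r (Sum.inr s(y, z)) : ℝ))) Filter.atTop (nhds 0) := by
    have hz : ∀ {l : Filter (Finset (V n))} {f : Finset (V n) → ℝ},
        Filter.Tendsto f l (nhds (∑ y ∈ Λ, (0 : ℝ))) → Filter.Tendsto f l (nhds 0) := by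
      intro l f h
      rwa [Finset.sum_const_zero] at h
    apply hz
    refine tendsto_finsetSum _ fun y _ => ?_
    have h1 : ∀ F : Finset (V n), ∑' z : V n, (if z ∈ F then (0 : ℝ) else
        (r (Sum.inr s(y, z)) : ℝ)) = (∑' z, (r (Sum.inr s(y, z)) : ℝ))
          - ∑ z ∈ F, (r (Sum.inr s(y, z)) : ℝ) := by
      intro F
      have h3 : Summable fun z : V n => if z ∈ F then (r (Sum.inr s(y, z)) : ℝ) else 0 :=
        summable_of_ne_finset_zero (s := F) fun z hz => if_neg hz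
      have h2 : ∑ z ∈ F, (r (Sum.inr s(y, z)) : ℝ)
          = ∑' z : V n, if z ∈ F then (r (Sum.inr s(y, z)) : ℝ) else 0 := by
        rw [tsum_eq_sum (s := F)]
        · exact Finset.sum_congr rfl fun z hz => (if_pos hz).symm
        · intro z hz; exact if_neg hz
      rw [h2, ← (hsum y).tsum_sub h3]
      refine tsum_congr fun z => ?_
      split_ifs <;> ring
    have h4 : Filter.Tendsto (fun F : Finset (V n) => (∑' z, (r (Sum.inr s(y, z)) : ℝ))
        - ∑ z ∈ F, (r (Sum.inr s(y, z)) : ℝ)) Filter.atTop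
        (nhds ((∑' z, (r (Sum.inr s(y, z)) : ℝ)) - ∑' z, (r (Sum.inr s(y, z)) : ℝ))) :=
      Filter.Tendsto.const_sub _ (hsum y).hasSum
    rw [sub_self] at h4
    exact h4.congr fun F => (h1 F).symm
  have h5 := (hlim.eventually (ge_mem_nhds (by norm_num : (0 : ℝ) < 1 / 2))).and
    (Filter.eventually_ge_atTop Λ)
  obtain ⟨F, hF1, hF2⟩ := h5.exists
  exact ⟨F, hF2, hF1⟩


/-- the arm probabilities are bounded from below -/
lemma arm_lower (hI : S_indep) (hD : S_depmeas) (hM : S_mono) (s : ℝ) (hs : 1 < s)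
    (p : unitInterval) (hp : (p : ℝ) < 1) (β : NNReal) (t0 : NNReal) (ht0 : t0 < 1)
    (hcon : ∀ S : Finset (V n), 0 ∈ S → 1 ≤ phi (TH489.PL.pt p t0) (t0 * β) s 1 S 0)
    (Λ : Finset (V n)) (h0Λ : (0 : V n) ∈ Λ) :
    ∃ bF : Finset (V n), Λ ⊆ bF ∧ 1 - Real.exp (-((1 - (t0 : ℝ)) / 2)) ≤
      (pm (prob (n := n) 1 p β s 1)).real
        (arm (bF : Set (V n)) {v | v ∈ bF ∧ v ∉ Λ}) := by
  classical
  obtain ⟨bF, hΛ, hbF⟩ := exists_big (n := n) (TH489.PL.pt p t0) (t0 * β) s hs Λ
  refine ⟨bF, hΛ, ?_⟩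
  set T : Set (V n) := {v | v ∈ bF ∧ v ∉ Λ} with hT
  set A : Set (Cfg n) := arm (bF : Set (V n)) T with hA
  have hTb : T ⊆ (bF : Set (V n)) := fun v hv => hv.1
  have hfin : (lnI (bF : Set (V n))).Finite := lnI_finite bF.finite_toSet
  set E := hfin.toFinset with hEdef
  have hE : ∀ e, e ∈ E ↔ e ∈ lnI (bF : Set (V n)) := fun e => by
    rw [hEdef, Set.Finite.mem_toFinset]
  have hdep : DepOn A (E : Set (Ix n)) := by
    rw [hEdef, Set.Finite.coe_toFinset]; exact arm_dep _ _
  set F : ℝ → ℝ := fun t => EE E (rr n p β s t) (I1 A) with hF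
  have hFq : ∀ t : NNReal, F t = (pm (prob (n := n) 1 (TH489.PL.pt p t) (t * β) s 1)).real A := by
    intro t
    rw [pm_eq_EE hI hD _ hdep]
    have : rr n p β s (t : ℝ) =
        fun c => (prob (n := n) 1 (TH489.PL.pt p t) (t * β) s 1 c : ℝ) := by
      funext c; exact (prob_eq p β s hp t c).symm
    rw [hF]
    simp only [this]
  have hJ := Jr_nonneg (n := n) p β s hp
  have hmono : ∀ t : NNReal, t0 ≤ t → ∀ c, prob (n := n) 1 (TH489.PL.pt p t0) (t0 * β) s 1 c ≤
      prob (n := n) 1 (TH489.PL.pt p t) (t * β) s 1 c := by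
    intro t ht c
    rw [← Subtype.coe_le_coe, prob_eq p β s hp, prob_eq p β s hp]
    cases c with
    | inl x => exact le_refl _
    | inr e =>
      simp only [rr]
      have h1 : (t0 : ℝ) ≤ t := by exact_mod_cast ht
      have h2 := mul_le_mul_of_nonneg_right h1 (hJ (Sum.inr e))
      have h3 : Real.exp (-((t : ℝ) * Jr n p β s (Sum.inr e))) ≤
          Real.exp (-((t0 : ℝ) * Jr n p β s (Sum.inr e))) := Real.exp_le_exp.2 (by linarith)
      linarith
  have hder : ∀ t : ℝ, (t0 : ℝ) ≤ t → t ≤ 1 → ∃ D, HasDerivAt F D t ∧ (1 - F t) / 2 ≤ D := by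
    intro t h1 h2
    have ht0' : 0 ≤ t := le_trans t0.2 h1
    set q : NNReal := ⟨t, ht0'⟩ with hq
    have hpq : t0 ≤ q := h1
    set r := prob (n := n) 1 (TH489.PL.pt p q) (q * β) s 1 with hr
    set ρ' : Ix n → ℝ := fun c => match c with
      | Sum.inl _ => 0
      | Sum.inr e => Jr n p β s (Sum.inr e) *
          Real.exp (-(t * Jr n p β s (Sum.inr e))) with hρ'
    have hd := russo_pm hI hD r hdep (arm_inc _ _) (fun t => rr n p β s t) ρ' t (by
      intro c
      cases c with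
      | inl x => simpa [rr, hρ'] using hasDerivAt_const t (1 : ℝ)
      | inr e =>
        simp only [rr, hρ']
        have h3 : HasDerivAt (fun t : ℝ => -(t * Jr n p β s (Sum.inr e)))
            (-(Jr n p β s (Sum.inr e))) t := by
          have h5 := ((hasDerivAt_id' t).mul_const (Jr n p β s (Sum.inr e))).neg
          rw [one_mul] at h5
          exact h5
        have h4 := h3.exp.const_sub 1
        refine h4.congr_deriv ?_
        ring) (by
      intro c
      rw [hr, prob_eq p β s hp]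
      rfl)
    refine ⟨_, hd, ?_⟩
    have h3 := piv_lower hI hD r (1 / 2) bF T hTb (hΛ h0Λ) E hE (by
        intro S C h0 hS hC
        have hSΛ : S ⊆ Λ := by
          intro y hy
          by_contra hcon
          exact (hS y hy).2 ⟨(hS y hy).1, hcon⟩
        have h4 := (hcon S h0).trans (phi_le_pairs (TH489.PL.pt p t0) (t0 * β) s hs bF S C Λ
          hSΛ hC hbF)
        have h5 : (1 : ℝ) / 2 ≤ ∑ z ∈ S ×ˢ C,
            (prob (n := n) 1 (TH489.PL.pt p t0) (t0 * β) s 1 (Sum.inr s(z.1, z.2)) : ℝ) *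
            (pm (prob (n := n) 1 (TH489.PL.pt p t0) (t0 * β) s 1)).real
              {ω | (L ω (S : Set (V n))).Reachable 0 z.1} := by linarith
        refine h5.trans ?_
        refine Finset.sum_le_sum fun z hz => ?_
        have hSfin : (lnI (S : Set (V n))).Finite := lnI_finite S.finite_toSet
        have hmeas : MeasurableSet {ω : Cfg n | (L ω (S : Set (V n))).Reachable 0 z.1} := by
          refine hD _ hSfin.toFinset _ ?_
          rw [Set.Finite.coe_toFinset]; exact dep_reach _ _ _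
        have hinc : Inc {ω : Cfg n | (L ω (S : Set (V n))).Reachable 0 z.1} := by
          intro ω ω' h hω
          exact SimpleGraph.Reachable.mono (L_le h) hω
        have h6 : (pm (prob (n := n) 1 (TH489.PL.pt p t0) (t0 * β) s 1)).real
              {ω | (L ω (S : Set (V n))).Reachable 0 z.1} ≤ (pm r).real
              {ω | (L ω (S : Set (V n))).Reachable 0 z.1} :=
          ENNReal.toReal_mono (measure_ne_top _ _)
            (hM _ _ _ _ (hmono q hpq) hinc hmeas)
        refine mul_le_mul ?_ h6 measureReal_nonneg (r _).2.1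
        exact hmono q hpq _)
    have h4 : F t = (pm r).real A := hFq q
    rw [h4]
    refine le_trans (le_of_eq (by ring)) (h3.trans ?_)
    refine Finset.sum_le_sum fun e he => ?_
    obtain ⟨x, y, hx, hy, rfl⟩ := (hE e).1 he
    rw [piv_closed hI hD r hdep he]
    have h5 : (r (Sum.inr s(x, y)) : ℝ) =
        1 - Real.exp (-(t * Jr n p β s (Sum.inr s(x, y)))) := by
      rw [hr, prob_eq p β s hp]; rfl
    have h6 : ρ' (Sum.inr s(x, y)) = Jr n p β s (Sum.inr s(x, y)) *
        (1 - (r (Sum.inr s(x, y)) : ℝ)) := by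
      rw [h5, hρ']; simp only; ring
    have h7 : 0 ≤ (pm r).real (Piv A (Sum.inr s(x, y))) := measureReal_nonneg
    have h8 : (r (Sum.inr s(x, y)) : ℝ) ≤ Jr n p β s (Sum.inr s(x, y)) := by
      rw [h5]
      have h9 := Real.add_one_le_exp (-(t * Jr n p β s (Sum.inr s(x, y))))
      have h10 := mul_le_mul_of_nonneg_right h2 (hJ (Sum.inr s(x, y)))
      linarith
    have h11 : 0 ≤ 1 - (r (Sum.inr s(x, y)) : ℝ) := by linarith [(r (Sum.inr s(x, y))).2.2]
    rw [h6]
    have h12 := mul_le_mul_of_nonneg_right h8 (mul_nonneg h11 h7)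
    calc (r (Sum.inr s(x, y)) : ℝ) * ((1 - (r (Sum.inr s(x, y)) : ℝ)) *
          (pm r).real (Piv A (Sum.inr s(x, y))))
        ≤ Jr n p β s (Sum.inr s(x, y)) * ((1 - (r (Sum.inr s(x, y)) : ℝ)) *
          (pm r).real (Piv A (Sum.inr s(x, y)))) := h12
      _ = _ := by ring
  set g : ℝ → ℝ := fun t => (1 - F t) * Real.exp (t / 2) with hg
  have hgder : ∀ t : ℝ, (t0 : ℝ) ≤ t → t ≤ 1 → ∃ D, HasDerivAt g D t ∧ D ≤ 0 := by
    intro t h1 h2
    obtain ⟨D, hD, hD2⟩ := hder t h1 h2
    have hexp : HasDerivAt (fun t : ℝ => Real.exp (t / 2)) (Real.exp (t / 2) * (1 / 2)) t :=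
      ((hasDerivAt_id' t).div_const 2).exp
    have h3 := ((hasDerivAt_const t (1 : ℝ)).sub hD).mul hexp
    refine ⟨_, h3, ?_⟩
    simp only [Pi.sub_apply]
    have := Real.exp_pos (t / 2)
    nlinarith
  have ht0' : (t0 : ℝ) < 1 := by exact_mod_cast ht0
  have hanti : AntitoneOn g (Set.Icc (t0 : ℝ) 1) := by
    refine antitoneOn_of_deriv_nonpos (convex_Icc _ _) ?_ ?_ ?_
    · intro t ht
      obtain ⟨D, hD, _⟩ := hgder t ht.1 ht.2
      exact hD.continuousAt.continuousWithinAt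
    · intro t ht
      rw [interior_Icc] at ht
      obtain ⟨D, hD, _⟩ := hgder t ht.1.le ht.2.le
      exact hD.differentiableAt.differentiableWithinAt
    · intro t ht
      rw [interior_Icc] at ht
      obtain ⟨D, hD, hD2⟩ := hgder t ht.1.le ht.2.le
      rw [hD.deriv]; exact hD2
  have h1 := hanti (Set.left_mem_Icc.2 ht0'.le) (Set.right_mem_Icc.2 ht0'.le) ht0'.le
  have h3 : 0 ≤ F t0 := by rw [hFq t0]; exact measureReal_nonneg
  have hF1 : F 1 = (pm (prob (n := n) 1 p β s 1)).real A := by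
    have h4 := hFq 1
    have h5 : TH489.PL.pt p 1 = p := by
      apply Subtype.ext
      show 1 - (1 - (p : ℝ)) ^ ((1 : NNReal) : ℝ) = p
      rw [NNReal.coe_one, Real.rpow_one]; ring
    rw [h5, one_mul, NNReal.coe_one] at h4
    exact h4
  rw [← hF1]
  simp only [hg] at h1
  have h4 : (1 - F t0) * Real.exp (t0 / 2) ≤ Real.exp (t0 / 2) := by
    have := Real.exp_pos ((t0 : ℝ) / 2)
    nlinarith
  have h5 : (1 - F 1) ≤ Real.exp (-((1 - (t0 : ℝ)) / 2)) := by
    have h6 : Real.exp (-((1 - (t0 : ℝ)) / 2)) * Real.exp (1 / 2) = Real.exp (t0 / 2) := by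
      rw [← Real.exp_add]; congr 1; ring
    have h7 := Real.exp_pos ((1 : ℝ) / 2)
    have h8 : (1 - F 1) * Real.exp (1 / 2) ≤
        Real.exp (-((1 - (t0 : ℝ)) / 2)) * Real.exp (1 / 2) := by rw [h6]; linarith
    exact le_of_mul_le_mul_right h8 h7
  linarith

/-- Duminil-Copin and Tassion, with long-range bonds -/
theorem s_dctL : Pool.Agent.TH489.PL.S_dctL := by
  classical
  intro n s p β t hs ht hp h0
  have hI : S_indep := W45.PC.s_indep
  have hD : S_depmeas := W45.PC.s_depmeas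
  have hM : S_mono := W400.PC.s_mono
  have hR : S_reach_meas := W975.PC.s_reach_meas
  by_contra hcon
  push Not at hcon
  set μ := pm (prob (n := n) 1 p β s 1) with hμ
  set B : ℕ → Set (Cfg n) := fun k =>
    {ω | ∃ y : V n, y ∉ (CB k k : Set (V n)) ∧ (G (EdI 1) ω univ).Reachable 0 y} with hB
  have hBm : ∀ k, MeasurableSet (B k) := by
    intro k
    have : B k = ⋃ y : V n, ⋃ (_ : y ∉ (CB k k : Set (V n))),
        {ω | (G (EdI 1) ω univ).Reachable 0 y} := by
      ext ω; simp [hB]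
    rw [this]
    exact MeasurableSet.iUnion fun y => MeasurableSet.iUnion fun _ => hR n _ _ _ _
  have hBanti : Antitone B := by
    intro k l hkl ω hω
    obtain ⟨y, hy, hr⟩ := hω
    refine ⟨y, fun h => hy ?_, hr⟩
    have hkl' : (k : ℤ) ≤ l := by exact_mod_cast hkl
    exact ⟨h.1.trans hkl', fun i => (h.2 i).trans hkl'⟩
  have hsubP : (⋂ k, B k) ⊆ Perc (EdI 1) (0 : V n) := by
    intro ω hω
    rw [mem_iInter] at hω
    show (cl (EdI 1) ω univ 0).Infinite
    intro hfin
    obtain ⟨M, hM⟩ : ∃ M : ℕ, ∀ v ∈ hfin.toFinset, v ∈ (CB M M : Set (V n)) := by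
      refine ⟨∑ v ∈ hfin.toFinset, (v.1.natAbs + ∑ i, (v.2 i).natAbs), fun v hv => ?_⟩
      have h1 := Finset.single_le_sum (f := fun v : V n => (v.1.natAbs + ∑ i, (v.2 i).natAbs))
          (fun _ _ => Nat.zero_le _) hv
      constructor
      · have h2 : v.1.natAbs ≤ ∑ v ∈ hfin.toFinset, (v.1.natAbs + ∑ i, (v.2 i).natAbs) :=
          (Nat.le_add_right _ _).trans h1
        rw [Int.abs_eq_natAbs]
        exact_mod_cast h2
      · intro i
        have h3 : (v.2 i).natAbs ≤ ∑ i, (v.2 i).natAbs :=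
          Finset.single_le_sum (f := fun i => (v.2 i).natAbs) (fun _ _ => Nat.zero_le _)
            (Finset.mem_univ i)
        have h2 : (v.2 i).natAbs ≤ ∑ v ∈ hfin.toFinset, (v.1.natAbs + ∑ i, (v.2 i).natAbs) :=
          (h3.trans (Nat.le_add_left _ _)).trans h1
        rw [Int.abs_eq_natAbs]
        exact_mod_cast h2
    obtain ⟨y, hy, hr⟩ := hω M
    exact hy (hM y (by rw [Set.Finite.mem_toFinset]; exact hr))
  have hlow : ∀ k, 1 - Real.exp (-((1 - (t : ℝ)) / 2)) ≤ μ.real (B k) := by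
    intro k
    have hfinite : (CB k k : Set (V n)).Finite := CB_finite k k
    obtain ⟨bF, hbF, h1⟩ := arm_lower hI hD hM s hs p hp β t ht hcon hfinite.toFinset
      (by rw [Set.Finite.mem_toFinset]; exact zero_CB k)
    refine h1.trans ?_
    have h2 : μ (arm (bF : Set (V n)) {v | v ∈ bF ∧ v ∉ hfinite.toFinset}) ≤ μ (B k) := by
      refine measure_mono_ae ?_
      filter_upwards [ae_Om (n := n) p β s] with ω hω
      rintro ⟨b, hb, hr⟩
      refine ⟨b, ?_, ?_⟩
      · intro hb2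
        exact hb.2 (by rw [Set.Finite.mem_toFinset]; exact hb2)
      · rw [G_eq_L hω]
        exact (hr.mono (L_mono (subset_univ _))).symm
    exact ENNReal.toReal_mono (measure_ne_top _ _) h2
  have hlim := tendsto_measure_iInter_atTop (μ := μ) (s := B)
    (fun k => (hBm k).nullMeasurableSet) hBanti ⟨0, measure_ne_top _ _⟩
  have hP : 1 - Real.exp (-((1 - (t : ℝ)) / 2)) ≤ μ.real (⋂ k, B k) := by
    have h1 : Filter.Tendsto (fun k => μ.real (B k)) Filter.atTop
        (nhds (μ.real (⋂ k, B k))) := by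
      unfold Measure.real
      exact (ENNReal.tendsto_toReal (measure_ne_top _ _)).comp hlim
    exact ge_of_tendsto' h1 hlow
  have hP2 : μ.real (⋂ k, B k) ≤ μ.real (Perc (EdI 1) (0 : V n)) :=
    measureReal_mono hsubP (measure_ne_top _ _)
  have hexp : Real.exp (-((1 - (t : ℝ)) / 2)) < 1 := by
    rw [Real.exp_lt_one_iff]
    have : (t : ℝ) < 1 := by exact_mod_cast ht
    linarith
  rw [h0] at hP2
  linarith

end Pool.Agent.TH263.PL
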