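import Pool.Agent.TH83.SQ.Defs

set_option autoImplicit false

namespace Pool.Agent.TH83.SQ

open Finset
open scoped Pointwise Classical

theorem few_small (x : Finset ℕ) (η lam : ℝ) (h0 : 0 < lam) (h1 : lam ≤ 1) :
    ((x.powerset.filter fun E => (E.card : ℝ) ≤ η).card : ℝ) ≤
      Real.exp (η * Real.log (1 / lam) + lam * x.card) := by
  have hlog : 0 ≤ Real.log (1 / lam) := Real.log_nonneg (by rw [le_div_iff₀ h0]; linarith)
  have hpow : ∀ n : ℕ, lam ^ n = Real.exp (-(n * Real.log (1 / lam))) := by
    intro n
    rw [one_div, Real.log_inv, mul_neg, neg_neg, mul_comm, Real.exp_mul, Real.exp_log h0,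
      Real.rpow_natCast]
  have hsum : ∑ E ∈ x.powerset, lam ^ E.card = (lam + 1) ^ x.card := by
    have := Finset.sum_pow_mul_eq_add_pow lam 1 x
    simpa using this
  calc ((x.powerset.filter fun E => (E.card : ℝ) ≤ η).card : ℝ)
      = ∑ E ∈ x.powerset.filter fun E => (E.card : ℝ) ≤ η, (1 : ℝ) := by simp
    _ ≤ ∑ E ∈ x.powerset.filter fun E => (E.card : ℝ) ≤ η,
          Real.exp (η * Real.log (1 / lam)) * lam ^ E.card := by
        refine Finset.sum_le_sum fun E hE => ?_
        rw [Finset.mem_filter] at hE
        rw [hpow, ← Real.exp_add]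
        refine Real.one_le_exp ?_
        have := mul_le_mul_of_nonneg_right hE.2 hlog
        linarith
    _ ≤ ∑ E ∈ x.powerset, Real.exp (η * Real.log (1 / lam)) * lam ^ E.card := by
        refine Finset.sum_le_sum_of_subset_of_nonneg (Finset.filter_subset _ _) fun E _ _ => ?_
        positivity
    _ = Real.exp (η * Real.log (1 / lam)) * (lam + 1) ^ x.card := by
        rw [← Finset.mul_sum, hsum]
    _ ≤ Real.exp (η * Real.log (1 / lam)) * Real.exp (lam * x.card) := by
        refine mul_le_mul_of_nonneg_left ?_ (Real.exp_pos _).le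
        rw [Real.exp_mul, Real.rpow_natCast]
        exact pow_le_pow_left₀ (by linarith) (Real.add_one_le_exp lam) _
    _ = _ := by rw [← Real.exp_add]

/-- the decoding map -/
noncomputable def dec {k : ℕ} {Λ : Type} [Fintype Λ] (π : Fin k → Λ → Finset ℕ)
    (L : Fin k → Finset Λ) (fE : (Fin k → Λ → Fin k) × (Fin k → Fin k → Finset ℕ)) :
    Fin k → Finset ℕ := fun j =>
  Finset.univ.biUnion fun i =>
    symmDiff (((L i).filter fun l => fE.1 i l = j).biUnion (π i)) (fE.2 i j)

theorem mem_sg {k : ℕ} (y : Fin k → Finset ℕ) (q : ℕ) : q ∈ sg y ↔ ∃ i, q ∈ y i := by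
  unfold sg
  rw [Multiset.mem_sum]
  simp

theorem count_trivial {k : ℕ} {Λ : Type} [Fintype Λ] (A : Finset (Finset ℕ))
    (x : Fin k → Finset ℕ) (π : Fin k → Λ → Finset ℕ) (hπ : ∀ i l, π i l ⊆ x i)
    (hx : ∀ i, x i ⊆ Finset.univ.biUnion (π i)) (u v η : ℝ) (hu : 0 < u) (hv : 0 < v) (m : ℕ)
    (hm : ∀ i, (Finset.univ.filter fun l => v ≤ ((π i l).card : ℝ)).card ≤ m)
    (hη : m * u + Fintype.card Λ * v ≤ η) (W : ℝ)
    (hW : ∀ i, (((x i).powerset.filter fun E => (E.card : ℝ) ≤ η).card : ℝ) ≤ W) :
    (((rep A x).filter fun y => ∀ i l, Triv u (π i l) y).card : ℝ) ≤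
      ((k : ℝ) ^ m * W ^ k) ^ k := by
  rcases Nat.eq_zero_or_pos k with hk | hk
  · subst hk
    rw [pow_zero]
    have : ((rep A x).filter fun y => ∀ i l, Triv u (π i l) y).card ≤ 1 := by
      refine Finset.card_le_one.2 fun a _ b _ => Subsingleton.elim _ _
    exact_mod_cast this
  set L : Fin k → Finset Λ := fun i => Finset.univ.filter fun l => v ≤ ((π i l).card : ℝ) with hL
  set j0 : Fin k := ⟨0, hk⟩ with hj0
  have hW0 : 0 ≤ W := le_trans (Nat.cast_nonneg _) (hW j0)
  set Fs : Fin k → Finset (Λ → Fin k) := fun i =>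
    Fintype.piFinset fun l => if l ∈ L i then Finset.univ else {j0} with hFs
  set Es : Fin k → Finset (Fin k → Finset ℕ) := fun i =>
    Fintype.piFinset fun _ => (x i).powerset.filter fun E => (E.card : ℝ) ≤ η with hEs
  have hsub : ((rep A x).filter fun y => ∀ i l, Triv u (π i l) y) ⊆
      ((Fintype.piFinset Fs) ×ˢ (Fintype.piFinset Es)).image (dec π L) := by
    intro y hy
    rw [Finset.mem_filter] at hy
    obtain ⟨hyr, hyT⟩ := hy
    unfold rep at hyr
    rw [Finset.mem_filter] at hyr
    have hsg : ∀ q, (∃ i, q ∈ y i) ↔ ∃ i, q ∈ x i := by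
      intro q
      rw [← mem_sg, ← mem_sg, hyr.2]
    choose g hg1 hg2 using hyT
    set f : Fin k → Λ → Fin k := fun i l => if l ∈ L i then g i l else j0 with hf
    set U : Fin k → Fin k → Finset ℕ := fun i j =>
      ((L i).filter fun l => f i l = j).biUnion (π i) with hU
    set E : Fin k → Fin k → Finset ℕ := fun i j => symmDiff (U i j) (x i ∩ y j) with hE
    have hUx : ∀ i j, U i j ⊆ x i := by
      intro i j q hq
      obtain ⟨l, -, hl⟩ := Finset.mem_biUnion.1 hq
      exact hπ i l hl
    refine Finset.mem_image.2 ⟨(f, E), Finset.mem_product.2 ⟨?_, ?_⟩, ?_⟩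
    · rw [Fintype.mem_piFinset]
      intro i
      rw [hFs]
      simp only
      rw [Fintype.mem_piFinset]
      intro l
      by_cases hl : l ∈ L i
      · rw [if_pos hl]; exact Finset.mem_univ _
      · rw [if_neg hl, hf]
        simp only
        rw [if_neg hl]; exact Finset.mem_singleton_self _
    · rw [Fintype.mem_piFinset]
      intro i
      rw [hEs]
      simp only
      rw [Fintype.mem_piFinset]
      intro j
      rw [Finset.mem_filter, Finset.mem_powerset]
      refine ⟨?_, ?_⟩
      · intro q hq
        rcases Finset.mem_symmDiff.1 hq with h | h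
        · exact hUx i j h.1
        · exact (Finset.mem_inter.1 h.1).1
      · set D : Λ → Finset ℕ := fun l =>
          if l ∈ L i then (if f i l = j then π i l \ y j else π i l ∩ y j) else π i l with hD
        have hED : E i j ⊆ Finset.univ.biUnion D := by
          intro q hq
          rcases Finset.mem_symmDiff.1 hq with h | h
          · obtain ⟨h1, h2⟩ := h
            obtain ⟨l, hl, hql⟩ := Finset.mem_biUnion.1 h1
            rw [Finset.mem_filter] at hl
            refine Finset.mem_biUnion.2 ⟨l, Finset.mem_univ _, ?_⟩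
            rw [hD]
            simp only
            rw [if_pos hl.1, if_pos hl.2]
            refine Finset.mem_sdiff.2 ⟨hql, fun hqy => h2 ?_⟩
            exact Finset.mem_inter.2 ⟨hπ i l hql, hqy⟩
          · obtain ⟨h1, h2⟩ := h
            rw [Finset.mem_inter] at h1
            obtain ⟨l, -, hql⟩ := Finset.mem_biUnion.1 (hx i h1.1)
            refine Finset.mem_biUnion.2 ⟨l, Finset.mem_univ _, ?_⟩
            rw [hD]
            simp only
            by_cases hl : l ∈ L i
            · rw [if_pos hl]
              by_cases hfl : f i l = j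
              · exact absurd (Finset.mem_biUnion.2 ⟨l, Finset.mem_filter.2 ⟨hl, hfl⟩, hql⟩) h2
              · rw [if_neg hfl]
                exact Finset.mem_inter.2 ⟨hql, h1.2⟩
            · rw [if_neg hl]; exact hql
        have hDc : ∀ l, ((D l).card : ℝ) ≤ (if l ∈ L i then u else 0) + v := by
          intro l
          rw [hD]
          simp only
          by_cases hl : l ∈ L i
          · rw [if_pos hl, if_pos hl]
            have hfg : f i l = g i l := by
              rw [hf]; simp only; rw [if_pos hl]
            by_cases hfl : f i l = j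
            · rw [if_pos hfl]
              have := hg1 i l
              rw [← hfg, hfl] at this
              linarith
            · rw [if_neg hfl]
              have := hg2 i l j (by rw [← hfg]; exact fun h => hfl h.symm)
              linarith
          · rw [if_neg hl, if_neg hl]
            have : ¬ v ≤ ((π i l).card : ℝ) := fun h =>
              hl (by rw [hL]; exact Finset.mem_filter.2 ⟨Finset.mem_univ _, h⟩)
            push Not at this
            linarith
        have h3 : ((E i j).card : ℝ) ≤ ∑ l, ((D l).card : ℝ) := by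
          exact_mod_cast (Finset.card_le_card hED).trans Finset.card_biUnion_le
        have h4 : ∑ l, ((D l).card : ℝ) ≤ ∑ l, ((if l ∈ L i then u else 0) + v) :=
          Finset.sum_le_sum fun l _ => hDc l
        have h5 : ∑ l, ((if l ∈ L i then u else 0) + v)
            = (L i).card * u + Fintype.card Λ * v := by
          rw [Finset.sum_add_distrib, Finset.sum_const, nsmul_eq_mul, Finset.card_univ]
          congr 1
          rw [Finset.sum_ite_mem, Finset.univ_inter, Finset.sum_const, nsmul_eq_mul]
        have h6 : ((L i).card : ℝ) * u ≤ m * u := by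
          have : ((L i).card : ℝ) ≤ m := by exact_mod_cast hm i
          exact mul_le_mul_of_nonneg_right this hu.le
        linarith
    · funext j
      unfold dec
      simp only
      ext q
      rw [Finset.mem_biUnion]
      have hUE : ∀ i, symmDiff (U i j) (E i j) = x i ∩ y j := by
        intro i
        rw [hE]
        simp only
        rw [symmDiff_symmDiff_cancel_left]
      constructor
      · rintro ⟨i, -, hi⟩
        have hi' : q ∈ symmDiff (U i j) (E i j) := hi
        rw [hUE i] at hi'
        exact (Finset.mem_inter.1 hi').2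
      · intro hq
        obtain ⟨i, hi⟩ := (hsg q).1 ⟨j, hq⟩
        refine ⟨i, Finset.mem_univ _, ?_⟩
        show q ∈ symmDiff (U i j) (E i j)
        rw [hUE i]
        exact Finset.mem_inter.2 ⟨hi, hq⟩
  have hc1 : ∀ i, ((Fs i).card : ℝ) ≤ (k : ℝ) ^ m := by
    intro i
    rw [hFs]
    simp only
    rw [Fintype.card_piFinset]
    have h7 : ∏ l, (if l ∈ L i then (Finset.univ : Finset (Fin k)) else {j0}).card
        = k ^ (L i).card := by
      have : ∀ l, (if l ∈ L i then (Finset.univ : Finset (Fin k)) else {j0}).card
          = if l ∈ L i then k else 1 := by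
        intro l
        by_cases hl : l ∈ L i
        · rw [if_pos hl, if_pos hl]; simp
        · rw [if_neg hl, if_neg hl]; simp
      rw [Finset.prod_congr rfl fun l _ => this l]
      rw [Finset.prod_ite_mem, Finset.univ_inter, Finset.prod_const]
    rw [h7]
    have : k ^ (L i).card ≤ k ^ m := Nat.pow_le_pow_right hk (hm i)
    exact_mod_cast this
  have hc2 : ∀ i, ((Es i).card : ℝ) ≤ W ^ k := by
    intro i
    rw [hEs]
    simp only
    rw [Fintype.card_piFinset]
    rw [Finset.prod_const, Finset.card_univ, Fintype.card_fin]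
    push_cast
    exact pow_le_pow_left₀ (Nat.cast_nonneg _) (hW i) _
  calc (((rep A x).filter fun y => ∀ i l, Triv u (π i l) y).card : ℝ)
      ≤ ((((Fintype.piFinset Fs) ×ˢ (Fintype.piFinset Es)).image (dec π L)).card : ℝ) := by
        exact_mod_cast Finset.card_le_card hsub
    _ ≤ (((Fintype.piFinset Fs) ×ˢ (Fintype.piFinset Es)).card : ℝ) := by
        exact_mod_cast Finset.card_image_le
    _ = (∏ i, ((Fs i).card : ℝ)) * ∏ i, ((Es i).card : ℝ) := by
        rw [Finset.card_product, Fintype.card_piFinset, Fintype.card_piFinset]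
        push_cast; rfl
    _ ≤ (∏ _i : Fin k, (k : ℝ) ^ m) * ∏ _i : Fin k, W ^ k := by
        refine mul_le_mul ?_ ?_ ?_ ?_
        · exact Finset.prod_le_prod (fun i _ => Nat.cast_nonneg _) fun i _ => hc1 i
        · exact Finset.prod_le_prod (fun i _ => Nat.cast_nonneg _) fun i _ => hc2 i
        · exact Finset.prod_nonneg fun i _ => Nat.cast_nonneg _
        · exact Finset.prod_nonneg fun i _ => by positivity
    _ = ((k : ℝ) ^ m * W ^ k) ^ k := by
        rw [Finset.prod_const, Finset.prod_const, Finset.card_univ, Fintype.card_fin, mul_pow]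

end Pool.Agent.TH83.SQ
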