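import Pool.Agent.TH83.SQ.Defs

set_option autoImplicit false

namespace Pool.Agent.TH83.SQ

open Finset
open scoped Pointwise Classical

theorem pick (a : Finset ℕ) (K : ℝ) (ha : (a.card : ℝ) ≤ K) (hK : 0 < K) (c : ℝ) (hc : 0 < c)
    (F : Finset (Finset ℕ)) (hFn : F.Nonempty) (hF : ∀ b ∈ F, c ≤ ((a ∩ b).card : ℝ)) (r : ℕ)
    (hr : (r : ℝ) ≤ c / 2) :
    ∃ n ⊆ a, n.card = r ∧ (F.card : ℝ) * (c / (2 * K)) ^ r ≤
      ((F.filter fun b => n ⊆ b).card : ℝ) := by
  induction r with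
  | zero => exact ⟨∅, Finset.empty_subset _, by simp, by simp⟩
  | succ r ih =>
    have hr' : (r : ℝ) + 1 ≤ c / 2 := by exact_mod_cast hr
    obtain ⟨n, hna, hnr, hn⟩ := ih (by linarith)
    have hq : 0 < c / (2 * K) := by positivity
    set G := F.filter fun b => n ⊆ b with hG
    have hGpos : (0 : ℝ) < G.card := by
      have : (0 : ℝ) < F.card := by exact_mod_cast hFn.card_pos
      exact lt_of_lt_of_le (by positivity) hn
    have hdc : ∑ v ∈ a \ n, ((G.filter fun b => v ∈ b).card : ℝ)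
        = ∑ b ∈ G, (((a \ n) ∩ b).card : ℝ) := by
      have h1 : ∀ v ∈ a \ n, ((G.filter fun b => v ∈ b).card : ℝ)
          = ∑ b ∈ G, if v ∈ b then (1 : ℝ) else 0 := by
        intro v _
        rw [Finset.card_filter]; push_cast; rfl
      rw [Finset.sum_congr rfl h1, Finset.sum_comm]
      refine Finset.sum_congr rfl fun b _ => ?_
      rw [← Finset.filter_mem_eq_inter, Finset.card_filter]; push_cast; rfl
    have hlow : (G.card : ℝ) * (c / 2) ≤ ∑ b ∈ G, (((a \ n) ∩ b).card : ℝ) := by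
      rw [← nsmul_eq_mul]
      refine Finset.card_nsmul_le_sum _ _ _ fun b hb => ?_
      rw [hG, Finset.mem_filter] at hb
      have h2 : a ∩ b ⊆ ((a \ n) ∩ b) ∪ n := by
        intro q hq
        rw [Finset.mem_inter] at hq
        by_cases h : q ∈ n
        · exact Finset.mem_union_right _ h
        · exact Finset.mem_union_left _ (Finset.mem_inter.2 ⟨Finset.mem_sdiff.2 ⟨hq.1, h⟩, hq.2⟩)
      have h3 : ((a ∩ b).card : ℝ) ≤ (((a \ n) ∩ b).card : ℝ) + n.card := by
        exact_mod_cast (Finset.card_le_card h2).trans (Finset.card_union_le _ _)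
      have h4 := hF b hb.1
      rw [hnr] at h3
      linarith
    have hex : ∃ v ∈ a \ n, (c / (2 * K)) * G.card ≤ ((G.filter fun b => v ∈ b).card : ℝ) := by
      by_contra hcon
      push Not at hcon
      have h5 : ∑ v ∈ a \ n, ((G.filter fun b => v ∈ b).card : ℝ)
          ≤ ((a \ n).card : ℝ) * ((c / (2 * K)) * G.card) := by
        rw [← nsmul_eq_mul]
        exact Finset.sum_le_card_nsmul _ _ _ fun v hv => (hcon v hv).le
      have h6 : ((a \ n).card : ℝ) ≤ K :=
        le_trans (by exact_mod_cast Finset.card_le_card Finset.sdiff_subset) ha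
      have h7 : K * ((c / (2 * K)) * G.card) = (G.card : ℝ) * (c / 2) := by
        field_simp
      rcases (a \ n).eq_empty_or_nonempty with he | hne
      · rw [hdc] at h5
        rw [he] at h5
        simp only [Finset.card_empty, Nat.cast_zero, zero_mul] at h5
        have : 0 < (G.card : ℝ) * (c / 2) := by positivity
        rw [he] at hlow
        linarith
      · have h8 : ∑ v ∈ a \ n, ((G.filter fun b => v ∈ b).card : ℝ)
            < ∑ v ∈ a \ n, ((c / (2 * K)) * G.card) :=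
          Finset.sum_lt_sum_of_nonempty hne fun v hv => hcon v hv
        rw [Finset.sum_const, nsmul_eq_mul, hdc] at h8
        have h9 : ((a \ n).card : ℝ) * ((c / (2 * K)) * G.card) ≤ K * ((c / (2 * K)) * G.card) := by
          gcongr
        linarith
    obtain ⟨v, hv, hvG⟩ := hex
    rw [Finset.mem_sdiff] at hv
    refine ⟨insert v n, Finset.insert_subset hv.1 hna, ?_, ?_⟩
    · rw [Finset.card_insert_of_notMem hv.2, hnr]
    · have h10 : (G.filter fun b => v ∈ b) = F.filter fun b => insert v n ⊆ b := by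
        ext b
        simp only [hG, Finset.mem_filter, Finset.insert_subset_iff]
        tauto
      rw [← h10]
      refine le_trans ?_ hvG
      calc (F.card : ℝ) * (c / (2 * K)) ^ (r + 1)
          = (c / (2 * K)) * ((F.card : ℝ) * (c / (2 * K)) ^ r) := by ring
        _ ≤ (c / (2 * K)) * G.card := by gcongr

theorem sumsq_le {ι : Type*} (s : Finset ι) (f : ι → ℝ) (hf : ∀ i ∈ s, 0 ≤ f i) :
    ∑ i ∈ s, f i ^ 2 ≤ (∑ i ∈ s, f i) ^ 2 := by
  rw [sq, Finset.sum_mul]
  refine Finset.sum_le_sum fun i hi => ?_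
  rw [sq]
  exact mul_le_mul_of_nonneg_left (Finset.single_le_sum hf hi) (hf i hi)

theorem gain {k : ℕ} (hk : 0 < k) (π : Finset ℕ) (y : Fin k → Finset ℕ)
    (hπ : π ⊆ Finset.univ.biUnion y) :
    Real.sqrt π.card ≤ ∑ j, Real.sqrt ((π ∩ y j).card : ℝ) ∧
    ∀ u : ℝ, 0 < u → ¬ Triv u π y →
      Real.sqrt (π.card + 2 * u) ≤ ∑ j, Real.sqrt ((π ∩ y j).card : ℝ) := by
  have hcov : (π.card : ℝ) ≤ ∑ j, ((π ∩ y j).card : ℝ) := by
    have h1 : π ⊆ Finset.univ.biUnion fun j => π ∩ y j := by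
      intro q hq
      obtain ⟨j, hj, hqj⟩ := Finset.mem_biUnion.1 (hπ hq)
      exact Finset.mem_biUnion.2 ⟨j, hj, Finset.mem_inter.2 ⟨hq, hqj⟩⟩
    exact_mod_cast (Finset.card_le_card h1).trans Finset.card_biUnion_le
  have hnn : 0 ≤ ∑ j, Real.sqrt ((π ∩ y j).card : ℝ) :=
    Finset.sum_nonneg fun _ _ => Real.sqrt_nonneg _
  constructor
  · refine Real.sqrt_le_iff.2 ⟨hnn, ?_⟩
    refine le_trans hcov ?_
    have h2 := sumsq_le Finset.univ
      (fun j => Real.sqrt ((π ∩ y j).card : ℝ)) fun _ _ => Real.sqrt_nonneg _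
    refine le_trans (le_of_eq ?_) h2
    refine Finset.sum_congr rfl fun j _ => ?_
    rw [Real.sq_sqrt (Nat.cast_nonneg _)]
  · intro u hu hT
    refine Real.sqrt_le_iff.2 ⟨hnn, ?_⟩
    have : Nonempty (Fin k) := ⟨⟨0, hk⟩⟩
    obtain ⟨j0, -, hj0⟩ := Finset.exists_max_image (Finset.univ : Finset (Fin k))
      (fun j => (π ∩ y j).card) Finset.univ_nonempty
    have hu2 : u ≤ ∑ j ∈ Finset.univ.erase j0, ((π ∩ y j).card : ℝ) := by
      by_contra hcon
      push Not at hcon
      apply hT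
      refine ⟨j0, ?_, ?_⟩
      · refine lt_of_le_of_lt ?_ hcon
        have h3 : π \ y j0 ⊆ (Finset.univ.erase j0).biUnion fun j => π ∩ y j := by
          intro q hq
          rw [Finset.mem_sdiff] at hq
          obtain ⟨j, -, hqj⟩ := Finset.mem_biUnion.1 (hπ hq.1)
          refine Finset.mem_biUnion.2 ⟨j, Finset.mem_erase.2 ⟨?_, Finset.mem_univ _⟩,
            Finset.mem_inter.2 ⟨hq.1, hqj⟩⟩
          rintro rfl
          exact hq.2 hqj
        exact_mod_cast (Finset.card_le_card h3).trans Finset.card_biUnion_le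
      · intro j' hj'
        refine lt_of_le_of_lt ?_ hcon
        exact Finset.single_le_sum (f := fun j => ((π ∩ y j).card : ℝ))
          (fun j _ => Nat.cast_nonneg _) (Finset.mem_erase.2 ⟨hj', Finset.mem_univ _⟩)
    have hs1 : ∑ j, Real.sqrt ((π ∩ y j).card : ℝ)
        = Real.sqrt ((π ∩ y j0).card : ℝ)
          + ∑ j ∈ Finset.univ.erase j0, Real.sqrt ((π ∩ y j).card : ℝ) :=
      (Finset.add_sum_erase _ _ (Finset.mem_univ j0)).symm
    have hs2 : ∑ j, ((π ∩ y j).card : ℝ)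
        = ((π ∩ y j0).card : ℝ)
          + ∑ j ∈ Finset.univ.erase j0, ((π ∩ y j).card : ℝ) :=
      (Finset.add_sum_erase _ (fun j => ((π ∩ y j).card : ℝ)) (Finset.mem_univ j0)).symm
    have hsq : ∑ j ∈ Finset.univ.erase j0, ((π ∩ y j).card : ℝ)
        ≤ (∑ j ∈ Finset.univ.erase j0, Real.sqrt ((π ∩ y j).card : ℝ)) ^ 2 := by
      have h2 := sumsq_le (Finset.univ.erase j0)
        (fun j => Real.sqrt ((π ∩ y j).card : ℝ)) fun _ _ => Real.sqrt_nonneg _
      refine le_trans (le_of_eq ?_) h2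
      refine Finset.sum_congr rfl fun j _ => ?_
      rw [Real.sq_sqrt (Nat.cast_nonneg _)]
    have hcr : ∑ j ∈ Finset.univ.erase j0, ((π ∩ y j).card : ℝ)
        ≤ Real.sqrt ((π ∩ y j0).card : ℝ)
          * ∑ j ∈ Finset.univ.erase j0, Real.sqrt ((π ∩ y j).card : ℝ) := by
      rw [Finset.mul_sum]
      refine Finset.sum_le_sum fun j _ => ?_
      have h4 : ((π ∩ y j).card : ℝ) ≤ ((π ∩ y j0).card : ℝ) := by
        exact_mod_cast hj0 j (Finset.mem_univ _)
      calc ((π ∩ y j).card : ℝ)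
          = Real.sqrt ((π ∩ y j).card : ℝ) * Real.sqrt ((π ∩ y j).card : ℝ) :=
            (Real.mul_self_sqrt (Nat.cast_nonneg _)).symm
        _ ≤ Real.sqrt ((π ∩ y j0).card : ℝ) * Real.sqrt ((π ∩ y j).card : ℝ) := by
            gcongr
    have h5 : Real.sqrt ((π ∩ y j0).card : ℝ) ^ 2 = ((π ∩ y j0).card : ℝ) :=
      Real.sq_sqrt (Nat.cast_nonneg _)
    rw [hs1]
    nlinarith [hcov, hs2, hsq, hcr, h5, hu2]

theorem prod_primeFactors_inv (t : Finset ℕ) (ht : ∀ p ∈ t, p.Prime) :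
    (∏ q ∈ t, q).primeFactors = t := Nat.primeFactors_prod ht

theorem transl (A : Finset ℕ) (hs : ∀ a ∈ A, Squarefree a) (hd : ∀ a ∈ A, ∀ d, d ∣ a → d ∈ A) :
    ∃ F : Finset (Finset ℕ), F.card = A.card ∧ (∀ s ∈ F, ∀ p ∈ s, p.Prime) ∧
      (∀ s ∈ F, ∀ t ⊆ s, t ∈ F) ∧ F.image (fun s => ∏ q ∈ s, q) = A ∧
      ∀ k : ℕ, ((tup k F).image sg).card ≤
        ((Fintype.piFinset fun _ : Fin k => A).image fun f => ∏ i, f i).card := by
  have hprod : ∀ a ∈ A, ∏ q ∈ a.primeFactors, q = a := fun a ha =>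
    Nat.prod_primeFactors_of_squarefree (hs a ha)
  have hmem : ∀ s ∈ A.image Nat.primeFactors, ∏ q ∈ s, q ∈ A := by
    intro s hs'
    obtain ⟨a, ha, rfl⟩ := Finset.mem_image.1 hs'
    rw [hprod a ha]; exact ha
  have hpr : ∀ s ∈ A.image Nat.primeFactors, ∀ p ∈ s, p.Prime := by
    intro s hs' p hp
    obtain ⟨a, ha, rfl⟩ := Finset.mem_image.1 hs'
    exact Nat.prime_of_mem_primeFactors hp
  refine ⟨A.image Nat.primeFactors, ?_, hpr, ?_, ?_, ?_⟩
  · refine Finset.card_image_of_injOn fun a ha b hb hab => ?_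
    have h1 := hprod a ha
    have h2 := hprod b hb
    rw [← h1, hab, h2]
  · intro s hs' t hts
    refine Finset.mem_image.2 ⟨∏ q ∈ t, q, ?_, ?_⟩
    · exact hd _ (hmem s hs') _ (Finset.prod_dvd_prod_of_subset _ _ _ hts)
    · exact Nat.primeFactors_prod fun p hp => hpr s hs' p (hts hp)
  · ext a
    rw [Finset.mem_image]
    constructor
    · rintro ⟨s, hs', rfl⟩
      exact hmem s hs'
    · intro ha
      exact ⟨a.primeFactors, Finset.mem_image_of_mem _ ha, hprod a ha⟩
  · intro k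
    have hsg : ∀ y : Fin k → Finset ℕ, (sg y).prod = ∏ i, ∏ q ∈ y i, q := by
      intro y
      unfold sg
      rw [Multiset.prod_sum]
      refine Finset.prod_congr rfl fun i _ => ?_
      rw [Finset.prod_val]; rfl
    have hprm : ∀ y ∈ tup k (A.image Nat.primeFactors), ∀ p ∈ sg y, Prime p := by
      intro y hy p hp
      unfold sg at hp
      rw [Multiset.mem_sum] at hp
      obtain ⟨i, -, hpi⟩ := hp
      unfold tup at hy
      rw [Fintype.mem_piFinset] at hy
      exact (hpr (y i) (hy i) p hpi).prime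
    refine Finset.card_le_card_of_injOn (fun M => M.prod) ?_ ?_
    · intro M hM
      obtain ⟨y, hy, rfl⟩ := Finset.mem_image.1 (Finset.mem_coe.1 hM)
      refine Finset.mem_coe.2 (Finset.mem_image.2 ⟨fun i => ∏ q ∈ y i, q, ?_, ?_⟩)
      · rw [Fintype.mem_piFinset]
        intro i
        unfold tup at hy
        rw [Fintype.mem_piFinset] at hy
        exact hmem _ (hy i)
      · exact (hsg y).symm
    · intro M hM N hN hMN
      obtain ⟨y, hy, rfl⟩ := Finset.mem_image.1 (Finset.mem_coe.1 hM)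
      obtain ⟨z, hz, rfl⟩ := Finset.mem_image.1 (Finset.mem_coe.1 hN)
      simp only at hMN
      rw [← UniqueFactorizationMonoid.normalizedFactors_prod_of_prime (hprm y hy), hMN,
        UniqueFactorizationMonoid.normalizedFactors_prod_of_prime (hprm z hz)]

end Pool.Agent.TH83.SQ
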