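import Pool.Agent.TH83.SQ.Expt
import Pool.Agent.TH263.SQ1825
import Pool.Agent.TH263.SQ1826

set_option autoImplicit false

namespace Pool.Agent.TH83.SQ

open Finset
open scoped Classical

theorem gc_prodsum {Ω : Type} [Fintype Ω] {k : ℕ} (g : Fin k → Ω → ℝ) :
    ∑ z : Fin k → Ω, ∏ i, g i (z i) = ∏ i, ∑ ω, g i ω := by
  rw [Finset.prod_univ_sum, Fintype.piFinset_univ]

theorem gc_wsum {A : Finset (Finset ℕ)} (hA : A.Nonempty) (E : Expt A) : ∑ ω, E.w ω = 1 := by
  have h := E.root_law fun _ => 1
  have hc : (A.card : ℝ) ≠ 0 := by exact_mod_cast hA.card_pos.ne'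
  simp only [mul_one, Finset.sum_const, nsmul_eq_mul] at h
  rw [h, div_self hc]

theorem gc_coord {A : Finset (Finset ℕ)} (hA : A.Nonempty) (E : Expt A) {k : ℕ} (G : E.Ω → ℝ)
    (i : Fin k) :
    ∑ z : Fin k → E.Ω, (∏ i, E.w (z i)) * G (z i) = ∑ ω, E.w ω * G ω := by
  have h := gc_prodsum (k := k) fun i' ω => E.w ω * (if i' = i then G ω else 1)
  have h1 : ∀ z : Fin k → E.Ω, ∏ i', E.w (z i') * (if i' = i then G (z i') else 1)
      = (∏ i, E.w (z i)) * G (z i) := by
    intro z
    rw [Finset.prod_mul_distrib, Finset.prod_ite_eq' Finset.univ i fun i' => G (z i'),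
      if_pos (Finset.mem_univ _)]
  have h2 : ∀ i' : Fin k, ∑ ω, E.w ω * (if i' = i then G ω else 1)
      = if i' = i then ∑ ω, E.w ω * G ω else 1 := by
    intro i'
    by_cases hi : i' = i
    · simp only [if_pos hi]
    · simp only [if_neg hi, mul_one]
      exact gc_wsum hA E
  rw [Finset.sum_congr rfl fun z _ => h1 z, Finset.prod_congr rfl fun i' _ => h2 i',
    Finset.prod_ite_eq' Finset.univ i fun _ => ∑ ω, E.w ω * G ω, if_pos (Finset.mem_univ _)] at h
  exact h

theorem gc_root {A : Finset (Finset ℕ)} (E : Expt A) {k : ℕ}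
    (F : (Fin k → Finset ℕ) → ℝ) :
    ∑ z : Fin k → E.Ω, (∏ i, E.w (z i)) * F (fun i => E.root (z i))
      = (∑ x ∈ tup k A, F x) / (A.card : ℝ) ^ k := by
  have h1 : ∀ z : Fin k → E.Ω, (∏ i, E.w (z i)) * F (fun i => E.root (z i))
      = ∑ x ∈ tup k A, F x * ∏ i, (E.w (z i) * if E.root (z i) = x i then 1 else 0) := by
    intro z
    rw [Finset.sum_eq_single (fun i => E.root (z i))]
    · simp only [if_true, mul_one]
      ring
    · intro x _ hx
      have : ∃ i, E.root (z i) ≠ x i := by
        by_contra hcon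
        push Not at hcon
        exact hx (funext fun i => (hcon i).symm)
      obtain ⟨i, hi⟩ := this
      rw [Finset.prod_eq_zero (Finset.mem_univ i), mul_zero]
      rw [if_neg hi, mul_zero]
    · intro hx
      exfalso
      apply hx
      unfold tup
      rw [Fintype.mem_piFinset]
      exact fun i => E.root_mem _
  rw [Finset.sum_congr rfl fun z _ => h1 z, Finset.sum_comm, Finset.sum_div]
  refine Finset.sum_congr rfl fun x hx => ?_
  rw [← Finset.mul_sum, gc_prodsum fun i ω => E.w ω * if E.root ω = x i then 1 else 0]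
  have h2 : ∀ i, ∑ ω, (E.w ω * if E.root ω = x i then 1 else 0) = 1 / (A.card : ℝ) := by
    intro i
    rw [E.root_law fun a => if a = x i then 1 else 0]
    congr 1
    unfold tup at hx
    rw [Fintype.mem_piFinset] at hx
    rw [Finset.sum_ite_eq' A (x i) fun _ => (1 : ℝ), if_pos (hx i)]
  rw [Finset.prod_congr rfl fun i _ => h2 i, Finset.prod_const, Finset.card_univ, Fintype.card_fin,
    one_div, inv_pow]
  rfl

theorem gc_sqrt {a u K : ℝ} (ha : 0 ≤ a) (haK : a ≤ K) (hu : 0 < u) (huK : 2 * u ≤ K) :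
    Real.sqrt a + u / Real.sqrt (2 * K) ≤ Real.sqrt (a + 2 * u) := by
  have hK : 0 < K := by linarith
  have hs : 0 < Real.sqrt (2 * K) := Real.sqrt_pos.2 (by linarith)
  have h1 : Real.sqrt a ≤ Real.sqrt (2 * K) := Real.sqrt_le_sqrt (by linarith)
  have h2 : Real.sqrt (a + 2 * u) ≤ Real.sqrt (2 * K) := Real.sqrt_le_sqrt (by linarith)
  have h3 : Real.sqrt a ≤ Real.sqrt (a + 2 * u) := Real.sqrt_le_sqrt (by linarith)
  have h4 := Real.sq_sqrt ha
  have h5 := Real.sq_sqrt (show 0 ≤ a + 2 * u by linarith)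
  have h6 : u ≤ (Real.sqrt (a + 2 * u) - Real.sqrt a) * Real.sqrt (2 * K) := by
    have h7 : 2 * u = (Real.sqrt (a + 2 * u) - Real.sqrt a)
        * (Real.sqrt (a + 2 * u) + Real.sqrt a) := by nlinarith
    nlinarith [mul_le_mul_of_nonneg_left (add_le_add h2 h1) (sub_nonneg.2 h3)]
  have h8 : u / Real.sqrt (2 * K) ≤ Real.sqrt (a + 2 * u) - Real.sqrt a := by
    rw [div_le_iff₀ hs]; exact h6
  linarith

theorem gain_core {A : Finset (Finset ℕ)} (hA : A.Nonempty) (E : Expt A) (k : ℕ) (hk : 0 < k)
    (u v η K W M : ℝ) (m : ℕ) (hu : 0 < u) (hv : 0 < v) (hK : ∀ a ∈ A, (a.card : ℝ) ≤ K)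
    (hη : m * u + Fintype.card E.Λ * v ≤ η)
    (hW : ∀ a ∈ A, ((a.powerset.filter fun E => (E.card : ℝ) ≤ η).card : ℝ) ≤ W)
    (hM : 2 * ((k : ℝ) ^ m * W ^ k) ^ k ≤ M) (huK : 2 * u ≤ K)
    (p : ℝ) (hp : E.many (m + 1) v ≤ p)
    (hrare : (((tup k A).filter fun x => ((rep A x).card : ℝ) < M).card : ℝ) ≤
      p * (A.card : ℝ) ^ k) :
    E.pot + (1 - (k + 1) * p) / (2 * k) * (u / Real.sqrt (2 * K)) ≤
      (∑ z : Fin k → E.Ω, (∏ i, E.w (z i)) *
        ((∑ y ∈ rep A (fun i => E.root (z i)), ∑ i, ∑ l, ∑ j,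
          Real.sqrt ((E.piece (z i) l ∩ y j).card : ℝ)) /
            (rep A (fun i => E.root (z i))).card)) / k := by
  have hk' : (0 : ℝ) < k := by exact_mod_cast hk
  have hc : (0 : ℝ) < A.card := by exact_mod_cast hA.card_pos
  set g : ℝ := u / Real.sqrt (2 * K) with hg
  have hg0 : 0 ≤ g := by positivity
  set P : (Fin k → E.Ω) → ℝ := fun z => ∏ i, E.w (z i) with hP
  have hP0 : ∀ z, 0 ≤ P z := fun z => Finset.prod_nonneg fun i _ => E.w_nonneg _
  set B : (Fin k → E.Ω) → ℝ := fun z => ∑ i, ∑ l, Real.sqrt ((E.piece (z i) l).card : ℝ) with hB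
  set Good : (Fin k → E.Ω) → Prop := fun z =>
    M ≤ ((rep A (fun i => E.root (z i))).card : ℝ) ∧
      ∀ i, ¬ (m + 1 ≤ (Finset.univ.filter fun l => v ≤ ((E.piece (z i) l).card : ℝ)).card)
    with hGood
  -- sums over the fibres
  have hcovy : ∀ z : Fin k → E.Ω, ∀ y ∈ rep A (fun i => E.root (z i)), ∀ i l,
      E.piece (z i) l ⊆ Finset.univ.biUnion y := by
    intro z y hy i l q hq
    unfold rep at hy
    have hy2 := (Finset.mem_filter.1 hy).2
    have h1 : q ∈ sg (fun i => E.root (z i)) := (mem_sg _ _).2 ⟨i, E.piece_root _ _ hq⟩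
    rw [← hy2] at h1
    obtain ⟨j, hj⟩ := (mem_sg _ _).1 h1
    exact Finset.mem_biUnion.2 ⟨j, Finset.mem_univ _, hj⟩
  have hterm : ∀ z : Fin k → E.Ω, ∀ y ∈ rep A (fun i => E.root (z i)),
      B z ≤ ∑ i, ∑ l, ∑ j, Real.sqrt ((E.piece (z i) l ∩ y j).card : ℝ) := by
    intro z y hy
    refine Finset.sum_le_sum fun i _ => Finset.sum_le_sum fun l _ => ?_
    exact (gain hk _ y (hcovy z y hy i l)).1
  have hterm2 : ∀ z : Fin k → E.Ω, ∀ y ∈ rep A (fun i => E.root (z i)),
      ¬ (∀ i l, Triv u (E.piece (z i) l) y) →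
      B z + g ≤ ∑ i, ∑ l, ∑ j, Real.sqrt ((E.piece (z i) l ∩ y j).card : ℝ) := by
    intro z y hy hT
    push Not at hT
    obtain ⟨i0, l0, hT⟩ := hT
    have h1 := (gain hk _ y (hcovy z y hy i0 l0)).2 u hu hT
    have hcK : ((E.piece (z i0) l0).card : ℝ) ≤ K :=
      le_trans (by exact_mod_cast Finset.card_le_card (E.piece_root _ _)) (hK _ (E.root_mem (z i0)))
    have h2 := gc_sqrt (Nat.cast_nonneg _) hcK hu huK
    have h3 : ∀ i l, Real.sqrt ((E.piece (z i) l).card : ℝ)
        + (if i = i0 then (if l = l0 then g else 0) else 0)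
        ≤ ∑ j, Real.sqrt ((E.piece (z i) l ∩ y j).card : ℝ) := by
      intro i l
      by_cases hi : i = i0
      · by_cases hl : l = l0
        · rw [if_pos hi, if_pos hl, hi, hl]
          exact h2.trans h1
        · rw [if_pos hi, if_neg hl, add_zero]
          exact (gain hk _ y (hcovy z y hy i l)).1
      · rw [if_neg hi, add_zero]
        exact (gain hk _ y (hcovy z y hy i l)).1
    have h4 : ∑ i, ∑ l, (Real.sqrt ((E.piece (z i) l).card : ℝ)
        + (if i = i0 then (if l = l0 then g else 0) else 0)) = B z + g := by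
      simp only [Finset.sum_add_distrib]
      congr 1
      have h5 : ∀ i : Fin k, ∑ l, (if i = i0 then (if l = l0 then g else 0) else 0)
          = if i = i0 then g else 0 := by
        intro i
        by_cases hi : i = i0
        · simp only [if_pos hi]
          rw [Finset.sum_ite_eq' Finset.univ l0 fun _ => g, if_pos (Finset.mem_univ _)]
        · simp only [if_neg hi, Finset.sum_const_zero]
      rw [Finset.sum_congr rfl fun i _ => h5 i, Finset.sum_ite_eq' Finset.univ i0 fun _ => g,
        if_pos (Finset.mem_univ _)]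
    rw [← h4]
    exact Finset.sum_le_sum fun i _ => Finset.sum_le_sum fun l _ => h3 i l
  have hrepne : ∀ z : Fin k → E.Ω, (0 : ℝ) < (rep A (fun i => E.root (z i))).card := by
    intro z
    have : (fun i => E.root (z i)) ∈ rep A (fun i => E.root (z i)) := by
      unfold rep tup
      rw [Finset.mem_filter, Fintype.mem_piFinset]
      exact ⟨fun i => E.root_mem _, rfl⟩
    exact_mod_cast Finset.card_pos.2 ⟨_, this⟩
  have hin : ∀ z : Fin k → E.Ω, B z + (if Good z then g / 2 else 0) ≤
      (∑ y ∈ rep A (fun i => E.root (z i)), ∑ i, ∑ l, ∑ j,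
          Real.sqrt ((E.piece (z i) l ∩ y j).card : ℝ)) /
            (rep A (fun i => E.root (z i))).card := by
    intro z
    rw [le_div_iff₀ (hrepne z)]
    by_cases hz : Good z
    · rw [if_pos hz]
      have hT := count_trivial A (fun i => E.root (z i)) (fun i l => E.piece (z i) l)
        (fun i l => E.piece_root _ _) (fun i => E.cover _) u v η hu hv m
        (fun i => Nat.lt_succ_iff.1 (not_le.1 (hz.2 i))) hη W (fun i => hW _ (E.root_mem _))
      set R := rep A (fun i => E.root (z i)) with hR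
      have h6 : (((R.filter fun y => ∀ i l, Triv u (E.piece (z i) l) y).card : ℕ) : ℝ)
          ≤ (R.card : ℝ) / 2 := by
        have := hz.1
        linarith
      have h7 : ((R.filter fun y => ∀ i l, Triv u (E.piece (z i) l) y).card : ℝ)
          + ((R.filter fun y => ¬ ∀ i l, Triv u (E.piece (z i) l) y).card : ℝ) = R.card := by
        exact_mod_cast Finset.card_filter_add_card_filter_not (s := R)
          (fun y => ∀ i l, Triv u (E.piece (z i) l) y)
      have h8 : ∑ y ∈ R, (B z + if (∀ i l, Triv u (E.piece (z i) l) y) then 0 else g)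
          ≤ ∑ y ∈ R, ∑ i, ∑ l, ∑ j, Real.sqrt ((E.piece (z i) l ∩ y j).card : ℝ) := by
        refine Finset.sum_le_sum fun y hy => ?_
        by_cases hTy : ∀ i l, Triv u (E.piece (z i) l) y
        · rw [if_pos hTy, add_zero]
          exact hterm z y hy
        · rw [if_neg hTy]
          exact hterm2 z y hy hTy
      have h9 : ∑ y ∈ R, (B z + if (∀ i l, Triv u (E.piece (z i) l) y) then 0 else g)
          = R.card * B z
            + ((R.filter fun y => ¬ ∀ i l, Triv u (E.piece (z i) l) y).card : ℝ) * g := by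
        rw [Finset.sum_add_distrib, Finset.sum_const, nsmul_eq_mul]
        congr 1
        rw [Finset.sum_ite, Finset.sum_const_zero, zero_add, Finset.sum_const, nsmul_eq_mul]
      have h10 : (R.card : ℝ) / 2 ≤
          ((R.filter fun y => ¬ ∀ i l, Triv u (E.piece (z i) l) y).card : ℝ) := by linarith
      have h11 := mul_le_mul_of_nonneg_right h10 hg0
      nlinarith [h8, h9, h11]
    · rw [if_neg hz, add_zero]
      have h8 : ∑ y ∈ rep A (fun i => E.root (z i)), B z
          ≤ ∑ y ∈ rep A (fun i => E.root (z i)), ∑ i, ∑ l, ∑ j,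
            Real.sqrt ((E.piece (z i) l ∩ y j).card : ℝ) :=
        Finset.sum_le_sum fun y hy => hterm z y hy
      rw [Finset.sum_const, nsmul_eq_mul] at h8
      linarith
  -- mass of the good tuples
  have hPsum : ∑ z, P z = 1 := by
    rw [hP]
    simp only
    rw [gc_prodsum fun _ ω => E.w ω]
    rw [gc_wsum hA E, Finset.prod_const_one]
  have hbad1 : ∑ z, P z * (if ((rep A (fun i => E.root (z i))).card : ℝ) < M then 1 else 0)
      ≤ p := by
    have h := gc_root E (k := k) fun x => if ((rep A x).card : ℝ) < M then 1 else 0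
    have h' : ∑ z, P z * (if ((rep A (fun i => E.root (z i))).card : ℝ) < M then 1 else 0)
        = (∑ x ∈ tup k A, if ((rep A x).card : ℝ) < M then (1 : ℝ) else 0)
          / (A.card : ℝ) ^ k := h
    rw [h', div_le_iff₀ (by positivity)]
    refine le_trans (le_of_eq ?_) hrare
    rw [Finset.card_filter]
    push_cast
    rfl
  have hbad2 : ∀ i : Fin k, ∑ z, P z * (if m + 1 ≤
      (Finset.univ.filter fun l => v ≤ ((E.piece (z i) l).card : ℝ)).card then 1 else 0) ≤ p := by
    intro i
    have h := gc_coord hA E (k := k) (fun ω => if m + 1 ≤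
      (Finset.univ.filter fun l => v ≤ ((E.piece ω l).card : ℝ)).card then 1 else 0) i
    unfold Expt.many at hp
    exact le_trans (le_of_eq h) hp
  have hgood : 1 - (k + 1) * p ≤ ∑ z, P z * (if Good z then 1 else 0) := by
    have h1 : ∀ z, P z ≤ P z * (if Good z then 1 else 0)
        + P z * (if ((rep A (fun i => E.root (z i))).card : ℝ) < M then 1 else 0)
        + ∑ i : Fin k, P z * (if m + 1 ≤
      (Finset.univ.filter fun l => v ≤ ((E.piece (z i) l).card : ℝ)).card then 1 else 0) := by
      intro z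
      have hnn : 0 ≤ ∑ i : Fin k, P z * (if m + 1 ≤
        (Finset.univ.filter fun l => v ≤ ((E.piece (z i) l).card : ℝ)).card
          then (1 : ℝ) else 0) := by
        refine Finset.sum_nonneg fun i _ => mul_nonneg (hP0 z) ?_
        split_ifs <;> norm_num
      by_cases hz : Good z
      · rw [if_pos hz]
        have : 0 ≤ P z * (if ((rep A (fun i => E.root (z i))).card : ℝ) < M
            then (1 : ℝ) else 0) := by
          refine mul_nonneg (hP0 z) ?_
          split_ifs <;> norm_num
        linarith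
      · rw [if_neg hz]
        by_cases h2 : ((rep A (fun i => E.root (z i))).card : ℝ) < M
        · rw [if_pos h2]; linarith
        · rw [if_neg h2]
          have h3 : ∃ i, m + 1 ≤
              (Finset.univ.filter fun l => v ≤ ((E.piece (z i) l).card : ℝ)).card := by
            by_contra hcon
            push Not at hcon
            exact hz ⟨not_lt.1 h2, fun i => not_le.2 (hcon i)⟩
          obtain ⟨i, hi⟩ := h3
          have h4 := Finset.single_le_sum (s := Finset.univ) (f := fun i : Fin k =>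
            P z * (if m + 1 ≤ (Finset.univ.filter fun l =>
              v ≤ ((E.piece (z i) l).card : ℝ)).card then (1 : ℝ) else 0))
            (fun i _ => mul_nonneg (hP0 z) (by split_ifs <;> norm_num)) (Finset.mem_univ i)
          simp only [if_pos hi, mul_one] at h4
          linarith
    have h5 := Finset.sum_le_sum (s := Finset.univ) fun z (_ : z ∈ Finset.univ) => h1 z
    rw [Finset.sum_add_distrib, Finset.sum_add_distrib, hPsum, Finset.sum_comm] at h5
    have h6 : ∑ i : Fin k, ∑ z, P z * (if m + 1 ≤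
      (Finset.univ.filter fun l => v ≤ ((E.piece (z i) l).card : ℝ)).card
        then (1 : ℝ) else 0) ≤ k * p := by
      refine le_trans (Finset.sum_le_sum fun i _ => hbad2 i) ?_
      rw [Finset.sum_const, Finset.card_univ, Fintype.card_fin, nsmul_eq_mul]
    linarith
  have hBsum : ∑ z, P z * B z = k * E.pot := by
    rw [hB]
    simp only [Finset.mul_sum]
    rw [Finset.sum_comm]
    have h1 : ∀ i : Fin k, ∑ z, ∑ l, P z * Real.sqrt ((E.piece (z i) l).card : ℝ) = E.pot := by
      intro i
      have h := gc_coord hA E (k := k) (fun ω => ∑ l, Real.sqrt ((E.piece ω l).card : ℝ)) i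
      unfold Expt.pot
      rw [← h]
      refine Finset.sum_congr rfl fun z _ => ?_
      rw [Finset.mul_sum]
    rw [Finset.sum_congr rfl fun i _ => h1 i, Finset.sum_const, Finset.card_univ, Fintype.card_fin,
      nsmul_eq_mul]
  rw [le_div_iff₀ hk']
  have hfin : ∑ z, P z * (B z + (if Good z then g / 2 else 0))
      ≤ ∑ z, P z * ((∑ y ∈ rep A (fun i => E.root (z i)), ∑ i, ∑ l, ∑ j,
          Real.sqrt ((E.piece (z i) l ∩ y j).card : ℝ)) /
            (rep A (fun i => E.root (z i))).card) :=
    Finset.sum_le_sum fun z _ => mul_le_mul_of_nonneg_left (hin z) (hP0 z)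
  refine le_trans ?_ hfin
  have hsplit : ∑ z, P z * (B z + (if Good z then g / 2 else 0))
      = k * E.pot + g / 2 * ∑ z, P z * (if Good z then 1 else 0) := by
    rw [← hBsum, Finset.mul_sum, ← Finset.sum_add_distrib]
    refine Finset.sum_congr rfl fun z _ => ?_
    split_ifs <;> ring
  rw [hsplit]
  have h12 := mul_le_mul_of_nonneg_left hgood (by positivity : 0 ≤ g / 2)
  have h13 : (E.pot + (1 - (k + 1) * p) / (2 * k) * g) * k
      = k * E.pot + g / 2 * (1 - (k + 1) * p) := by
    field_simp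
  rw [h13]
  linarith

end Pool.Agent.TH83.SQ
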